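import Pool.Agent.H772R2.NS.Pub

/-!
Public definitions: the vector product of two velocity fields, Serrin classes.
-/

set_option autoImplicit false

open MeasureTheory Set
open scoped InnerProductSpace ENNReal

namespace Pool.Agent.Y303.RA

open H772R2.NS.Pub

/-- `‖v × w‖²` in `L²(Ω)`: the integral of `|v × w|² = |v|² |w|² - (v·w)²`. -/
noncomputable def crossSq {Ω : Set R3} (v w : L2 Ω R3) : ℝ :=
  ∫ x in Ω, (‖v.fn x‖ ^ 2 * ‖w.fn x‖ ^ 2 - ⟪v.fn x, w.fn x⟫_ℝ ^ 2)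

/-- `w` belongs to the Serrin class `L^p(s,τ; L^q(Ω))`, `2/p + 3/q = 1`, `2 ≤ p < ∞`: the norm of
`w(t)` in `L^q(Ω)` is at most `B(t)` for almost every `t`, where `B ∈ L^p(s,τ)`. -/
def SerrinOn (Ω : Set R3) (s τ : ℝ) (p q : ℝ≥0∞) (w : ℝ → R3 → ℝ) : Prop :=
  2 / p + 3 / q = 1 ∧ p ≠ ⊤ ∧ ∃ B : ℝ → ℝ, MemLp B p (volume.restrict (Ioo s τ)) ∧
    ∀ᵐ t ∂(volume.restrict (Ioo s τ)), AEStronglyMeasurable (w t) (volume.restrict Ω) ∧
      eLpNorm (w t) q (volume.restrict Ω) ≤ ENNReal.ofReal (B t)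

end Pool.Agent.Y303.RA
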