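import Pool.Agent.Y303.RA.Core
import Pool.Agent.Y303.RA.PubDef
import Pool.Agent.W795.ES.Pub

/-!
The velocity and the acceleration before a first singular time, in terms of the public definitions.
-/

set_option autoImplicit false

open MeasureTheory Set Filter Topology
open scoped InnerProductSpace ENNReal ContDiff

namespace Pool.Agent.Y303.RA

open H772R2.NS H772R2.NS.Pub H772R2.NSR H772R2.NSG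
open Pool.Agent.W795.TQ
open Pool.Agent.W795.ES (stretch stretch_eq)

theorem crs_pub {Ω : Set E3} (v w : L2V Ω) :
    crossSq (Ω := (show Set R3 from Ω)) v w = crs v w := rfl

/-- the first singular time, with the rate of the time derivative -/
theorem first_mid (hit : S_iter) (hode : S_ode) (htp : S_dtp)
    (he1 : S_est1) (he2 : S_est2) (hloc : S_loc) (huni : S_uni) (hun : S_univ) :
    ∃ κ : ℝ, 0 < κ ∧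
    ∀ (Ω : Set E3), IsOpen Ω → Bornology.IsBounded Ω → ∀ (ν T : ℝ), 0 < ν → 0 < T →
    ∀ (F F' : ℝ → L2M Ω), MemLp F' 2 (volume.restrict (Ioc 0 T)) →
    (∀ a b, 0 ≤ a → a ≤ b → b ≤ T → F b - F a = ∫ s in a..b, F' s) →
    ∀ (u : ℝ → L2V Ω) (z : ℝ → L2M Ω), AEStronglyMeasurable u (volume.restrict (Ioc 0 T)) →
    (∀ᵐ t ∂(volume.restrict (Ioc 0 T)), (u t, z t) ∈ graphW Ω) →
    MemLp z 2 (volume.restrict (Ioc 0 T)) →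
    (∀ φ : E3 → E3, H772R2.NS.IsTest Ω φ → ∀ t ∈ Icc 0 T,
      (∫ x in (show Set R3 from Ω), ⟪L2.fn (Ω := Ω) (E := R3) (u t) x, (φ : R3 → R3) x⟫_ℝ)
        - (∫ x in (show Set R3 from Ω), ⟪L2.fn (Ω := Ω) (E := R3) (u 0) x, (φ : R3 → R3) x⟫_ℝ)
      = ∫ s in (0 : ℝ)..t, Pub.rhs (Ω := Ω) ν (u s) (z s) (F s) φ) →
    (∀ t ∈ Icc 0 T, ‖u t‖ ^ 2 / 2 + ν * (∫ s in (0 : ℝ)..t, ‖z s‖ ^ 2)
      ≤ ‖u 0‖ ^ 2 / 2 + ∫ s in (0 : ℝ)..t, ⟪F s, z s⟫_ℝ) →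
    ∀ z0 : L2M Ω, (u 0, z0) ∈ graphW Ω →
    (∃ h : L2V Ω, ∀ φ : E3 → E3, H772R2.NS.IsTest Ω φ →
      Pub.rhs (Ω := Ω) ν (u 0) z0 (F 0) φ
        = ∫ x in (show Set R3 from Ω), ⟪L2.fn (Ω := Ω) (E := R3) h x, (φ : R3 → R3) x⟫_ℝ) →
    (∃ u' G1 G', IsStrong (show Set R3 from Ω) ν T F u u' G1 G') ∨
    ∃ C : ℝ, Frame (graphW Ω) (tensL (Ω := Ω)) C ∧
    ∃ τ ∈ Ioc 0 T, ∃ (u1 : ℝ → L2V Ω) (z0 z1 : ℝ → L2M Ω),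
      (∀ t ∈ Ioo 0 τ, IsStrong (show Set R3 from Ω) ν t F u u1 z0 z1) ∧
      (∀ t ∈ Ioo 0 τ, Str (graphW Ω) (tensL (Ω := Ω)) ν t F u u1 z0 z1) ∧
      (∀ t0 < τ, ¬ ∀ᵐ t ∂(volume.restrict (Ioo t0 τ)),
        ‖u1 t‖ ≤ κ * ν ^ (5 / 4 : ℝ) * (τ - t) ^ (-(3 / 4) : ℝ)) := by
  obtain ⟨c, hc, hU⟩ := hun
  obtain ⟨κ, hκ, hrate⟩ := rate hit hode htp he1 he2 hloc huni c hc
  refine ⟨κ, hκ, ?_⟩
  intro Ω hΩ hb ν T hν hT F F' hF1 hF u z hmeas hmem hz2 heqn hen z0 h0 hg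
  obtain ⟨C, Fr⟩ := exists_frame hΩ hb
  obtain ⟨g0, hg0⟩ := hg
  have hm : MeasurableSet Ω := hΩ.measurableSet
  have hcomp : ∀ p ∈ graphW Ω, ⟪F 0 - ν • z0 + tensL (u 0), p.2⟫_ℝ = ⟪g0, p.1⟫_ℝ := by
    refine compat_ext ?_
    rintro p ⟨φ, k1, k2, k3⟩
    rw [← pub_rhs hm ν (F 0) h0 k3, ← pub_inner (Ω := Ω) g0 k2]
    exact hg0 φ k1
  have hFc : ContinuousOn F (Icc 0 T) := prim_cont hF1 hF
  have hLH := lh_mid hΩ hFc Fr hmeas hmem hz2 heqn hen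
  rcases hrate (L2V Ω) (L2M Ω) (graphW Ω) tensL C ν T F F' (u 0) g0 z0 u z Fr (hU _ hΩ)
    (rellich_W hΩ hb) hν hT ⟨hF1, hF⟩ h0 hcomp hLH with
    ⟨w, w1, y, y1, k1, k2⟩ | ⟨τ, hτ, k1, _, k2⟩
  · exact Or.inl ⟨w1, y, y1, strong_of_str hΩ hT k1 k2⟩
  · exact Or.inr ⟨C, Fr, τ, hτ, deriv u, gz (graphW Ω) u, deriv (gz (graphW Ω) u),
      fun t ht => strong_of_str hΩ ht.1 (k1 t ht) (fun _ _ => rfl), k1, k2⟩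

/-- the theorem on the acceleration, internal form -/
theorem acc_mid (hit : S_iter) (hode : S_ode) (htp : S_dtp)
    (he1 : S_est1) (he2 : S_est2) (hloc : S_loc) (huni : S_uni) (hun : S_univ) :
    ∃ κ : ℝ, 0 < κ ∧
    ∀ (Ω : Set E3), IsOpen Ω → Bornology.IsBounded Ω → ∀ (ν T : ℝ), 0 < ν → 0 < T →
    ∀ (F F' : ℝ → L2M Ω), MemLp F' 2 (volume.restrict (Ioc 0 T)) →
    (∀ a b, 0 ≤ a → a ≤ b → b ≤ T → F b - F a = ∫ s in a..b, F' s) →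
    ∀ (u : ℝ → L2V Ω) (z : ℝ → L2M Ω), AEStronglyMeasurable u (volume.restrict (Ioc 0 T)) →
    (∀ᵐ t ∂(volume.restrict (Ioc 0 T)), (u t, z t) ∈ graphW Ω) →
    MemLp z 2 (volume.restrict (Ioc 0 T)) →
    (∀ φ : E3 → E3, H772R2.NS.IsTest Ω φ → ∀ t ∈ Icc 0 T,
      (∫ x in (show Set R3 from Ω), ⟪L2.fn (Ω := Ω) (E := R3) (u t) x, (φ : R3 → R3) x⟫_ℝ)
        - (∫ x in (show Set R3 from Ω), ⟪L2.fn (Ω := Ω) (E := R3) (u 0) x, (φ : R3 → R3) x⟫_ℝ)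
      = ∫ s in (0 : ℝ)..t, Pub.rhs (Ω := Ω) ν (u s) (z s) (F s) φ) →
    (∀ t ∈ Icc 0 T, ‖u t‖ ^ 2 / 2 + ν * (∫ s in (0 : ℝ)..t, ‖z s‖ ^ 2)
      ≤ ‖u 0‖ ^ 2 / 2 + ∫ s in (0 : ℝ)..t, ⟪F s, z s⟫_ℝ) →
    ∀ z0 : L2M Ω, (u 0, z0) ∈ graphW Ω →
    (∃ h : L2V Ω, ∀ φ : E3 → E3, H772R2.NS.IsTest Ω φ →
      Pub.rhs (Ω := Ω) ν (u 0) z0 (F 0) φ
        = ∫ x in (show Set R3 from Ω), ⟪L2.fn (Ω := Ω) (E := R3) h x, (φ : R3 → R3) x⟫_ℝ) →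
    (∃ u' G1 G', IsStrong (show Set R3 from Ω) ν T F u u' G1 G') ∨
    ∃ τ ∈ Ioc 0 T, ∃ (u' : ℝ → L2V Ω) (G1 G' : ℝ → L2M Ω),
      (∀ t ∈ Ioo 0 τ, IsStrong (show Set R3 from Ω) ν t F u u' G1 G') ∧
      (∀ s ∈ Ico 0 τ, ∀ t0 < τ, ∃ t ∈ Ioo t0 τ, s < t ∧
        κ * ν ^ (7 / 2 : ℝ) ≤ (τ - t) ^ (3 / 2 : ℝ)
          * ∫ r in s..t, crossSq (Ω := (show Set R3 from Ω)) (u r) (u' r)) ∧
      (∀ c ∈ Ioo (0 : ℝ) 3, ∀ s ∈ Ico 0 τ, ∃ M : ℝ, ∀ ψ : ℝ → ℝ, (∀ t, 0 ≤ ψ t) →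
        (∀ t ∈ Ioo s τ, IntegrableOn ψ (Ioc s t)) →
        (∀ᵐ t ∂(volume.restrict (Ioo s τ)),
          crossSq (Ω := (show Set R3 from Ω)) (u t) (u' t) ≤ ψ t * ‖u' t‖ ^ 2) →
        ∀ t0 < τ, ∃ t ∈ Ioo t0 τ, s < t ∧
          c * ν * Real.log (1 / (τ - t)) - M ≤ ∫ r in s..t, ψ r) ∧
      (∀ s ∈ Ico 0 τ, ∀ (p q : ℝ≥0∞) (w : ℝ → R3 → ℝ), SerrinOn (show Set R3 from Ω) s τ p q w →
        ¬ ∀ᵐ t ∂(volume.restrict (Ioo s τ)), ∀ᵐ x ∂((volume : Measure R3).restrict Ω),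
          ‖L2.fn (Ω := Ω) (E := R3) (u t) x‖ ^ 2 * ‖L2.fn (Ω := Ω) (E := R3) (u' t) x‖ ^ 2
            - ⟪L2.fn (Ω := Ω) (E := R3) (u t) x, L2.fn (Ω := Ω) (E := R3) (u' t) x⟫_ℝ ^ 2
          ≤ (w t x) ^ 2 * ‖L2.fn (Ω := Ω) (E := R3) (u' t) x‖ ^ 2) ∧
      (∀ δ : ℝ, 0 < δ → ∀ s ∈ Ico 0 τ, ∃ M : ℝ, ∀ Λ : ℝ → ℝ, (∀ t, 0 ≤ Λ t) →
        (∀ t ∈ Ioo s τ, IntegrableOn Λ (Ioc s t)) →
        (∀ᵐ t ∂(volume.restrict (Ioo s τ)),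
          -stretch (Ω := (show Set R3 from Ω)) (G1 t) (u' t)
            ≤ (1 - δ) * ν * ‖G' t‖ ^ 2 + Λ t * ‖u' t‖ ^ 2) →
        ∀ t0 < τ, ∃ t ∈ Ioo t0 τ, s < t ∧
          3 / 4 * Real.log (1 / (τ - t)) - M ≤ ∫ r in s..t, Λ r) := by
  obtain ⟨κ, hκ, hmid⟩ := first_mid hit hode htp he1 he2 hloc huni hun
  refine ⟨κ ^ 2 / 2, by positivity, ?_⟩
  intro Ω hΩ hb ν T hν hT F F' hF1 hF u z hmeas hmem hz2 heqn hen z0 h0 hg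
  have hm : MeasurableSet Ω := hΩ.measurableSet
  rcases hmid Ω hΩ hb ν T hν hT F F' hF1 hF u z hmeas hmem hz2 heqn hen z0 h0 hg with
    h1 | ⟨C, Fr, τ, hτ, u1, y0, y1, h1, h2, h3⟩
  · exact Or.inl h1
  have hFH : FH T F F' := ⟨hF1, hF⟩
  have hκν : 0 < κ * ν ^ (5 / 4 : ℝ) := by positivity
  have hκ2 : (κ * ν ^ (5 / 4 : ℝ)) ^ 2 / 2 * ν = κ ^ 2 / 2 * ν ^ (7 / 2 : ℝ) := by
    have e : (ν ^ (5 / 4 : ℝ)) ^ 2 * ν = ν ^ (7 / 2 : ℝ) := by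
      rw [← Real.rpow_natCast, ← Real.rpow_mul hν.le, ← Real.rpow_add_one hν.ne']
      norm_num
    rw [mul_pow, ← e]
    ring
  refine Or.inr ⟨τ, hτ, u1, y0, y1, h1, ?_, ?_, ?_, ?_⟩
  · intro s hs t0 ht0
    obtain ⟨t, ht, hst, hle⟩ := core_A hΩ Fr hν hτ.1 hτ.2 hFH h2 hκν h3 hs t0 ht0
    refine ⟨t, ht, hst, ?_⟩
    rw [hκ2] at hle
    exact hle
  · intro c hc s hs
    exact core_B hΩ Fr hν hτ.1 hτ.2 hFH h2 hκν h3 hc hs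
  · rintro s hs p q w ⟨hpq, hp, B, hB, hwB⟩
    exact core_S hΩ Fr hν hτ.1 hτ.2 hFH h2 hκν h3 hs hpq hp hB hwB
  · intro δ hδ s hs
    obtain ⟨M, hM⟩ := growth_Λ Fr (hom_tensL hm) hν hτ.1 hτ.2 hFH h2 hκν h3 hs hδ
    refine ⟨M, fun Λ hΛ0 hΛi hΛ => hM Λ hΛ0 hΛi ?_⟩
    filter_upwards [hΛ, mem_ae' hτ.1 h2 hs.1] with t h4 h5
    have e := stretch_eq hm (y0 t) (p := (u1 t, y1 t)) h5.2
    simp only at e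
    rw [e] at h4
    exact h4

end Pool.Agent.Y303.RA
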