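import Mathlib

/-!
The generalised theorem of dominated convergence (Pratt's lemma).
-/

set_option autoImplicit false

open MeasureTheory Set Filter Topology

namespace Pool.Agent.Y303.RA

theorem pratt {α : Type*} {mα : MeasurableSpace α} {μ : Measure α} {f G : ℕ → α → ℝ} {g Γ : α → ℝ}
    (hf : ∀ n, AEStronglyMeasurable (f n) μ) (hG : ∀ n, Integrable (G n) μ) (hΓ : Integrable Γ μ)
    (hb : ∀ n, ∀ᵐ s ∂μ, |f n s| ≤ G n s)
    (hfl : ∀ᵐ s ∂μ, Tendsto (fun n => f n s) atTop (𝓝 (g s)))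
    (hGl : ∀ᵐ s ∂μ, Tendsto (fun n => G n s) atTop (𝓝 (Γ s)))
    (hGi : Tendsto (fun n => ∫ s, G n s ∂μ) atTop (𝓝 (∫ s, Γ s ∂μ))) :
    Integrable g μ ∧ Tendsto (fun n => ∫ s, f n s ∂μ) atTop (𝓝 (∫ s, g s ∂μ)) := by
  have hb' : ∀ᵐ s ∂μ, ∀ n, |f n s| ≤ G n s := ae_all_iff.2 hb
  have hgΓ : ∀ᵐ s ∂μ, |g s| ≤ Γ s := by
    filter_upwards [hb', hfl, hGl] with s h1 h2 h3
    exact le_of_tendsto_of_tendsto' h2.abs h3 h1
  have hgm : AEStronglyMeasurable g μ := aestronglyMeasurable_of_tendsto_ae atTop hf hfl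
  have hgi : Integrable g μ := hΓ.mono' hgm (by simpa using hgΓ)
  refine ⟨hgi, ?_⟩
  set c : ℕ → α → ℝ := fun n s => max (-(Γ s)) (min (f n s) (Γ s)) with hc
  have hcm : ∀ n, AEStronglyMeasurable (c n) μ := fun n =>
    hΓ.aestronglyMeasurable.neg.sup ((hf n).inf hΓ.aestronglyMeasurable)
  have hcb : ∀ n, ∀ᵐ s ∂μ, ‖c n s‖ ≤ Γ s := by
    intro n
    filter_upwards [hgΓ] with s hs
    have h0 : 0 ≤ Γ s := (abs_nonneg _).trans hs
    rw [Real.norm_eq_abs, abs_le]
    exact ⟨le_max_left _ _, max_le (by linarith) (min_le_right _ _)⟩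
  have hcl : ∀ᵐ s ∂μ, Tendsto (fun n => c n s) atTop (𝓝 (g s)) := by
    filter_upwards [hgΓ, hfl] with s h1 h2
    have h3 : Tendsto (fun n => c n s) atTop (𝓝 (max (-(Γ s)) (min (g s) (Γ s)))) :=
      tendsto_const_nhds.max (h2.min tendsto_const_nhds)
    have h4 := abs_le.1 h1
    rwa [min_eq_left h4.2, max_eq_right h4.1] at h3
  have hci : Tendsto (fun n => ∫ s, c n s ∂μ) atTop (𝓝 (∫ s, g s ∂μ)) :=
    tendsto_integral_of_dominated_convergence Γ hcm hΓ hcb hcl
  set d : ℕ → α → ℝ := fun n s => min (G n s) (Γ s) with hd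
  have hdm : ∀ n, AEStronglyMeasurable (d n) μ := fun n =>
    (hG n).aestronglyMeasurable.inf hΓ.aestronglyMeasurable
  have hdb : ∀ n, ∀ᵐ s ∂μ, ‖d n s‖ ≤ Γ s := by
    intro n
    filter_upwards [hgΓ, hb n] with s hs hs2
    have h0 : 0 ≤ Γ s := (abs_nonneg _).trans hs
    have h1 : 0 ≤ G n s := (abs_nonneg _).trans hs2
    rw [Real.norm_of_nonneg (le_min h1 h0)]
    exact min_le_right _ _
  have hdl : ∀ᵐ s ∂μ, Tendsto (fun n => d n s) atTop (𝓝 (Γ s)) := by
    filter_upwards [hGl] with s h1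
    have := h1.min (tendsto_const_nhds (x := Γ s))
    simpa using this
  have hdi : Tendsto (fun n => ∫ s, d n s ∂μ) atTop (𝓝 (∫ s, Γ s ∂μ)) :=
    tendsto_integral_of_dominated_convergence Γ hdm hΓ hdb hdl
  have hdint : ∀ n, Integrable (d n) μ := fun n => hΓ.mono' (hdm n) (hdb n)
  have hcint : ∀ n, Integrable (c n) μ := fun n => hΓ.mono' (hcm n) (hcb n)
  have hfint : ∀ n, Integrable (f n) μ := fun n => (hG n).mono' (hf n) (by simpa using hb n)
  have hle : ∀ n, |(∫ s, f n s ∂μ) - ∫ s, c n s ∂μ| ≤ (∫ s, G n s ∂μ) - ∫ s, d n s ∂μ := by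
    intro n
    rw [← integral_sub (hfint n) (hcint n), ← integral_sub (hG n) (hdint n), ← Real.norm_eq_abs]
    refine norm_integral_le_of_norm_le ((hG n).sub (hdint n)) ?_
    filter_upwards [hgΓ, hb n] with s hs hs2
    have h0 : 0 ≤ Γ s := (abs_nonneg _).trans hs
    obtain ⟨h1, h2⟩ := abs_le.1 hs2
    rw [Real.norm_eq_abs, abs_le]
    simp only [hc, hd]
    rcases le_total (G n s) (Γ s) with h3 | h3
    · rw [min_eq_left (by linarith : f n s ≤ Γ s), max_eq_right (by linarith), min_eq_left h3]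
      constructor <;> linarith
    · rw [min_eq_right h3]
      rcases le_total (f n s) (Γ s) with h4 | h4
      · rw [min_eq_left h4]
        rcases le_total (-(Γ s)) (f n s) with h5 | h5
        · rw [max_eq_right h5]; constructor <;> linarith
        · rw [max_eq_left h5]; constructor <;> linarith
      · rw [min_eq_right h4, max_eq_right (by linarith)]; constructor <;> linarith
  have hz : Tendsto (fun n => (∫ s, G n s ∂μ) - ∫ s, d n s ∂μ) atTop (𝓝 0) := by
    have := hGi.sub hdi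
    rwa [sub_self] at this
  have h9 : Tendsto (fun n => (∫ s, f n s ∂μ) - ∫ s, c n s ∂μ) atTop (𝓝 0) := by
    rw [tendsto_zero_iff_abs_tendsto_zero]
    exact squeeze_zero (fun n => abs_nonneg _) hle hz
  have := h9.add hci
  simpa using this

end Pool.Agent.Y303.RA
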