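import Pool.Agent.W790.TQ.Est2
import Pool.Agent.Y303.RA.Pratt

/-!
The energy equality for the time derivative of a strong solution.
-/

set_option autoImplicit false
set_option linter.unusedSectionVars false

open MeasureTheory Set Filter Topology Metric
open scoped InnerProductSpace NNReal ENNReal

namespace Pool.Agent.Y303.RA

open Pool.Agent.W795.TQ
open H772R2.NSR (Frame prim_cont memLp_ii ae_deriv_of_prim int_sq_le)
open H772R2.NSG (St by_parts ii_of_int int_inner norm_m_le)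
open Pool.Agent.W790.TQ (toSt sq_prim)

variable {H K : Type} [NormedAddCommGroup H] [InnerProductSpace ℝ H] [CompleteSpace H]
  [NormedAddCommGroup K] [InnerProductSpace ℝ K] [CompleteSpace K]
  {W : Submodule ℝ (H × K)} {m : H → K} {C c ν T : ℝ} {F F1 : ℝ → K} {u u1 : ℝ → H}
  {z z1 : ℝ → K}

/-- the map `m` is homogeneous of degree two -/
def Hom (W : Submodule ℝ (H × K)) (m : H → K) : Prop :=
  ∀ p ∈ W, ∀ a : ℝ, m (a • p.1) = a ^ 2 • m p.1

theorem m_tendsto (Fr : Frame W m C) {ι : Type*} {l : Filter ι} {p : ι → H × K} {q : H × K}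
    (hp : ∀ᶠ n in l, p n ∈ W) (hq : q ∈ W)
    (h1 : Tendsto (fun n => (p n).1) l (𝓝 q.1))
    (h2 : Tendsto (fun n => (p n).2) l (𝓝 q.2)) :
    Tendsto (fun n => m (p n).1) l (𝓝 (m q.1)) := by
  rw [tendsto_iff_norm_sub_tendsto_zero]
  have k1 : Tendsto (fun n => C * (‖(p n).1 - q.1‖ * ‖(p n).2 - q.2‖ ^ 3
      * (‖(p n).2‖ + ‖q.2‖) ^ 4)) l (𝓝 (C * (0 * 0 ^ 3 * (‖q.2‖ + ‖q.2‖) ^ 4))) :=
    (((tendsto_iff_norm_sub_tendsto_zero.mp h1).mul
      ((tendsto_iff_norm_sub_tendsto_zero.mp h2).pow 3)).mul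
        ((h2.norm.add_const _).pow 4)).const_mul _
  have e0 : C * (0 * 0 ^ 3 * (‖q.2‖ + ‖q.2‖) ^ 4) = 0 := by ring
  rw [e0] at k1
  rw [Metric.tendsto_nhds]
  intro ε hε
  filter_upwards [k1.eventually (gt_mem_nhds (pow_pos hε 4)), hp] with n hn hpn
  rw [dist_zero_right, norm_norm]
  exact lt_of_pow_lt_pow_left₀ 4 hε.le (lt_of_le_of_lt (Fr.lips _ hpn _ hq) hn)

theorem norm_int_sq_le {Y : Type} [NormedAddCommGroup Y] [InnerProductSpace ℝ Y] [CompleteSpace Y]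
    {g : ℝ → Y} (hg : MemLp g 2 (volume.restrict (Ioc 0 T))) {a b : ℝ} (ha : 0 ≤ a)
    (hab : a < b) (hb : b ≤ T) :
    ‖∫ s in a..b, g s‖ ^ 2 ≤ (b - a) * ∫ s in a..b, ‖g s‖ ^ 2 := by
  have hi : Integrable (fun s => ‖g s‖) (volume.restrict (Ioc 0 T)) :=
    (hg.integrable (by norm_num)).norm
  have hi2 : Integrable (fun s => ‖g s‖ ^ 2) (volume.restrict (Ioc 0 T)) :=
    (memLp_two_iff_integrable_sq_norm hg.aestronglyMeasurable).mp hg
  have h1 := int_sq_le hab (ii_of_int hi ha hab.le hb) (ii_of_int hi2 ha hab.le hb)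
  refine le_trans ?_ h1
  have h2 := intervalIntegral.norm_integral_le_integral_norm (f := g) (μ := volume) hab.le
  exact pow_le_pow_left₀ (norm_nonneg _) h2 2

/-- The equation for the differences. -/
theorem diff_eq (Fr : Frame W m C) (hT : 0 < T) (hF : FH T F F1)
    (S : Str W m ν T F u u1 z z1) {h : ℝ} (hh : 0 < h) :
    ∀ᵐ s ∂(volume.restrict (Ioc 0 (T - h))),
      ⟪u1 (s + h) - u1 s, u (s + h) - u s⟫_ℝ =
        ⟪F (s + h) - F s, z (s + h) - z s⟫_ℝ - ν * ‖z (s + h) - z s‖ ^ 2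
          - ⟪m (u (s + h) - u s), z s⟫_ℝ := by
  obtain ⟨Z, St1⟩ := toSt hF S
  have hw := St1.deriv_weak Fr hT
  rw [ae_restrict_iff' measurableSet_Ioc] at hw ⊢
  have hw2 := (quasiMeasurePreserving_add_right volume h).ae hw
  filter_upwards [hw, hw2] with s k1 k2 hs
  have hs1 : s ∈ Ioc 0 T := ⟨hs.1, by linarith [hs.2]⟩
  have hs2 : s + h ∈ Ioc 0 T := ⟨by linarith [hs.1], by linarith [hs.2]⟩
  have hsI := Ioc_subset_Icc_self hs1
  have hsI2 := Ioc_subset_Icc_self hs2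
  have hW : (u (s + h) - u s, z (s + h) - z s) ∈ W := W.sub_mem (S.mem _ hsI2) (S.mem _ hsI)
  have e1 := k1 hs1 _ hW
  have e2 := k2 hs2 _ hW
  have e3 := Fr.anti _ (S.mem _ hsI2) _ (S.mem _ hsI)
  simp only at e1 e2 e3
  rw [inner_sub_left, e1, e2, ← inner_sub_left]
  have e5 : F (s + h) - ν • z (s + h) + m (u (s + h)) - (F s - ν • z s + m (u s)) =
      (F (s + h) - F s) - ν • (z (s + h) - z s) + (m (u (s + h)) - m (u s)) := by
    rw [smul_sub]; abel
  rw [e5, inner_add_left, inner_sub_left, inner_smul_left, real_inner_self_eq_norm_sq, e3]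
  simp
  ring

/-- **Energy equality for `∂ₜu`.** -/
theorem en_a (Fr : Frame W m C) (hm : Hom W m) (hν : 0 ≤ ν) (hT : 0 < T) (hF : FH T F F1)
    (S : Str W m ν T F u u1 z z1) {r t : ℝ} (hr : 0 ≤ r) (hrt : r < t) (htT : t < T) {a b : H}
    (dr : HasDerivAt u a r) (dt : HasDerivAt u b t) :
    IntegrableOn (fun s => ⟪F1 s, z1 s⟫_ℝ - ν * ‖z1 s‖ ^ 2 - ⟪m (u1 s), z s⟫_ℝ) (Ioc r t) ∧
    ‖b‖ ^ 2 - ‖a‖ ^ 2
      = 2 * ∫ s in r..t, (⟪F1 s, z1 s⟫_ℝ - ν * ‖z1 s‖ ^ 2 - ⟪m (u1 s), z s⟫_ℝ) := by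
  set h : ℕ → ℝ := fun n => (T - t) / (n + 1) with hh
  have hTt : 0 < T - t := by linarith
  have hpos : ∀ n, 0 < h n := fun n => by rw [hh]; positivity
  have hle : ∀ n, t + h n ≤ T := by
    intro n
    have : h n ≤ T - t := by
      rw [hh]
      refine div_le_self hTt.le ?_
      have : (0 : ℝ) ≤ n := Nat.cast_nonneg n
      linarith
    linarith
  have hlim0 : Tendsto h atTop (𝓝 0) := by
    have := (tendsto_one_div_add_atTop_nhds_zero_nat (𝕜 := ℝ)).const_mul (T - t)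
    rw [mul_zero] at this
    refine this.congr fun n => ?_
    rw [hh]; ring
  have hlim : Tendsto h atTop (𝓝[>] 0) :=
    tendsto_nhdsWithin_iff.2 ⟨hlim0, Eventually.of_forall fun n => hpos n⟩
  have hzc : ContinuousOn z (Icc 0 T) := prim_cont S.z1m S.pz
  have huc : ContinuousOn u (Icc 0 T) := prim_cont S.u1m S.pu
  have hFc : ContinuousOn F (Icc 0 T) := prim_cont hF.memLp hF.prim
  have hF2 : Integrable (fun s => ‖F1 s‖ ^ 2) (volume.restrict (Ioc 0 T)) :=
    (memLp_two_iff_integrable_sq_norm hF.memLp.aestronglyMeasurable).mp hF.memLp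
  have hz2 : Integrable (fun s => ‖z1 s‖ ^ 2) (volume.restrict (Ioc 0 T)) :=
    (memLp_two_iff_integrable_sq_norm S.z1m.aestronglyMeasurable).mp S.z1m
  obtain ⟨Z, hZ⟩ : ∃ Z, ∀ s ∈ Icc 0 T, ‖z s‖ ≤ Z := by
    obtain ⟨Z, hZ⟩ := (isCompact_Icc.image_of_continuousOn hzc).isBounded.exists_norm_le
    exact ⟨Z, fun s hs => hZ _ ⟨s, hs, rfl⟩⟩
  have hZ0 : 0 ≤ Z := (norm_nonneg _).trans (hZ 0 ⟨le_rfl, hT.le⟩)
  have hC0 := Fr.C0
  -- derivatives at the end points
  have hdt : Tendsto (fun n => ‖(h n)⁻¹ • (u (t + h n) - u t)‖ ^ 2) atTop (𝓝 (‖b‖ ^ 2)) :=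
    ((dt.tendsto_slope_zero_right.comp hlim).norm).pow 2
  have hdr : Tendsto (fun n => ‖(h n)⁻¹ • (u (r + h n) - u r)‖ ^ 2) atTop (𝓝 (‖a‖ ^ 2)) :=
    ((dr.tendsto_slope_zero_right.comp hlim).norm).pow 2
  have hsub : (volume.restrict (Ioc r t) : Measure ℝ) ≤ volume.restrict (Ioc 0 T) :=
    Measure.restrict_mono (Ioc_subset_Ioc hr htT.le) le_rfl
  have hsI : ∀ n, ∀ s ∈ Ioc r t, s ∈ Icc 0 T ∧ s + h n ∈ Icc 0 T := by
    intro n s hs
    have := hpos n
    have := hle n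
    exact ⟨⟨by linarith [hs.1], by linarith [hs.2]⟩, ⟨by linarith [hs.1], by linarith [hs.2]⟩⟩
  -- the dominating functions
  set k : ℝ → ℝ := (Ioc 0 T).indicator (fun s => ‖z1 s‖ ^ 2 + ‖F1 s‖ ^ 2) with hk
  have hki : Integrable k volume := (integrable_indicator_iff measurableSet_Ioc).mpr (hz2.add hF2)
  have hkii : ∀ x y, IntervalIntegrable k volume x y := fun x y => hki.intervalIntegrable
  set P : ℝ → ℝ := fun x => ∫ s in (0 : ℝ)..x, k s with hP
  have hPc : Continuous P := intervalIntegral.continuous_primitive hkii 0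
  have hPd : ∀ x y, P y - P x = ∫ s in x..y, k s := fun x y =>
    intervalIntegral.integral_interval_sub_left (hkii _ _) (hkii _ _)
  set A : ℝ := 1 + ν + Z * C with hA
  have hA0 : 0 ≤ A := by positivity
  set G : ℕ → ℝ → ℝ := fun n s => A * ((h n)⁻¹ * (P (s + h n) - P s)) with hG
  have hGc : ∀ n, Continuous (G n) := fun n => by
    simp only [hG]
    exact continuous_const.mul (continuous_const.mul
      ((hPc.comp (by fun_prop : Continuous fun s : ℝ => s + h n)).sub hPc))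
  have hGint : ∀ n, Integrable (G n) (volume.restrict (Ioc r t)) := fun n =>
    ((hGc n).integrableOn_Icc (a := r) (b := t)).mono_set Ioc_subset_Icc_self
  have hΓint : Integrable (fun s => A * k s) (volume.restrict (Ioc r t)) :=
    (hki.const_mul A).mono_measure Measure.restrict_le_self
  -- bound of the squares of the quotients
  have hsqb : ∀ {Y : Type} [NormedAddCommGroup Y] [InnerProductSpace ℝ Y] [CompleteSpace Y]
      (g g1 : ℝ → Y), MemLp g1 2 (volume.restrict (Ioc 0 T)) →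
      (∀ a b, 0 ≤ a → a ≤ b → b ≤ T → g b - g a = ∫ s in a..b, g1 s) →
      ∀ n, ∀ s ∈ Ioc r t, ‖(h n)⁻¹ • (g (s + h n) - g s)‖ ^ 2
        ≤ (h n)⁻¹ * ∫ x in s..(s + h n), ‖g1 x‖ ^ 2 := by
    intro Y _ _ _ g g1 hg hgp n s hs
    obtain ⟨k1, k2⟩ := hsI n s hs
    have hn := hpos n
    have e1 := norm_int_sq_le hg k1.1 (by linarith : s < s + h n) k2.2
    rw [← hgp s (s + h n) k1.1 (by linarith) k2.2, add_sub_cancel_left] at e1
    rw [norm_smul, mul_pow, norm_inv, Real.norm_eq_abs, abs_of_pos hn]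
    calc (h n)⁻¹ ^ 2 * ‖g (s + h n) - g s‖ ^ 2
        ≤ (h n)⁻¹ ^ 2 * (h n * ∫ x in s..(s + h n), ‖g1 x‖ ^ 2) := by gcongr
      _ = (h n)⁻¹ * ∫ x in s..(s + h n), ‖g1 x‖ ^ 2 := by field_simp
  have hsum : ∀ n, ∀ s ∈ Ioc r t, (h n)⁻¹ * (∫ x in s..(s + h n), ‖z1 x‖ ^ 2)
      + (h n)⁻¹ * (∫ x in s..(s + h n), ‖F1 x‖ ^ 2) = (h n)⁻¹ * (P (s + h n) - P s) := by
    intro n s hs
    obtain ⟨k1, k2⟩ := hsI n s hs
    have hn := hpos n
    rw [← mul_add, hPd, ← intervalIntegral.integral_add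
      (ii_of_int hz2 k1.1 (by linarith) k2.2) (ii_of_int hF2 k1.1 (by linarith) k2.2)]
    congr 1
    rw [intervalIntegral.integral_of_le (by linarith), intervalIntegral.integral_of_le (by linarith)]
    refine setIntegral_congr_fun measurableSet_Ioc fun x hx => ?_
    simp only [hk]
    rw [indicator_of_mem (Ioc_subset_Ioc k1.1 k2.2 hx)]
  -- the functions
  set f : ℕ → ℝ → ℝ := fun n s =>
    ⟪(h n)⁻¹ • (F (s + h n) - F s), (h n)⁻¹ • (z (s + h n) - z s)⟫_ℝ
      - ν * ‖(h n)⁻¹ • (z (s + h n) - z s)‖ ^ 2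
      - ⟪m ((h n)⁻¹ • (u (s + h n) - u s)), z s⟫_ℝ with hf
  have hWn : ∀ n, ∀ s ∈ Ioc r t,
      ((h n)⁻¹ • (u (s + h n) - u s), (h n)⁻¹ • (z (s + h n) - z s)) ∈ W := by
    intro n s hs
    obtain ⟨k1, k2⟩ := hsI n s hs
    have := W.smul_mem (h n)⁻¹ (W.sub_mem (S.mem _ k2) (S.mem _ k1))
    simpa using this
  have hbound : ∀ n, ∀ᵐ s ∂(volume.restrict (Ioc r t)), |f n s| ≤ G n s := by
    intro n
    filter_upwards [ae_restrict_mem measurableSet_Ioc] with s hs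
    obtain ⟨k1, k2⟩ := hsI n s hs
    have q1 := hsqb z z1 S.z1m S.pz n s hs
    have q2 := hsqb F F1 hF.memLp hF.prim n s hs
    have q3 := hsum n s hs
    set X : K := (h n)⁻¹ • (z (s + h n) - z s) with hX
    set Y : K := (h n)⁻¹ • (F (s + h n) - F s) with hY
    set V : H := (h n)⁻¹ • (u (s + h n) - u s) with hV
    have q4 : ‖m V‖ ≤ C * ‖X‖ ^ 2 := norm_m_le Fr (hWn n s hs)
    have q5 : |⟪Y, X⟫_ℝ| ≤ ‖Y‖ * ‖X‖ := abs_real_inner_le_norm _ _
    have q6 : |⟪m V, z s⟫_ℝ| ≤ C * ‖X‖ ^ 2 * Z :=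
      (abs_real_inner_le_norm _ _).trans (mul_le_mul q4 (hZ s k1) (norm_nonneg _) (by positivity))
    have q7 : |f n s| ≤ ‖Y‖ * ‖X‖ + ν * ‖X‖ ^ 2 + C * ‖X‖ ^ 2 * Z := by
      have h1 : |⟪Y, X⟫_ℝ - ν * ‖X‖ ^ 2 - ⟪m V, z s⟫_ℝ|
          ≤ |⟪Y, X⟫_ℝ - ν * ‖X‖ ^ 2| + |⟪m V, z s⟫_ℝ| := abs_sub _ _
      have h2 : |⟪Y, X⟫_ℝ - ν * ‖X‖ ^ 2| ≤ |⟪Y, X⟫_ℝ| + |ν * ‖X‖ ^ 2| := abs_sub _ _
      rw [abs_of_nonneg (by positivity : 0 ≤ ν * ‖X‖ ^ 2)] at h2
      simp only [hf]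
      linarith
    have q8 : ‖Y‖ * ‖X‖ ≤ ‖X‖ ^ 2 + ‖Y‖ ^ 2 := by
      nlinarith [sq_nonneg (‖X‖ - ‖Y‖), sq_nonneg ‖X‖, sq_nonneg ‖Y‖]
    have q9 : ‖X‖ ^ 2 + ‖Y‖ ^ 2 ≤ (h n)⁻¹ * (P (s + h n) - P s) := by linarith
    have q10 : 0 ≤ ‖X‖ ^ 2 := sq_nonneg _
    have q11 : 0 ≤ ‖Y‖ ^ 2 := sq_nonneg _
    calc |f n s| ≤ ‖Y‖ * ‖X‖ + ν * ‖X‖ ^ 2 + C * ‖X‖ ^ 2 * Z := q7
      _ ≤ (‖X‖ ^ 2 + ‖Y‖ ^ 2) + ν * (‖X‖ ^ 2 + ‖Y‖ ^ 2) + (Z * C) * (‖X‖ ^ 2 + ‖Y‖ ^ 2) := by
          have h1 : ν * ‖X‖ ^ 2 ≤ ν * (‖X‖ ^ 2 + ‖Y‖ ^ 2) :=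
            mul_le_mul_of_nonneg_left (by linarith) hν
          have h2 : C * ‖X‖ ^ 2 * Z ≤ (Z * C) * (‖X‖ ^ 2 + ‖Y‖ ^ 2) := by
            calc C * ‖X‖ ^ 2 * Z = (Z * C) * ‖X‖ ^ 2 := by ring
              _ ≤ (Z * C) * (‖X‖ ^ 2 + ‖Y‖ ^ 2) :=
                mul_le_mul_of_nonneg_left (by linarith) (by positivity)
          linarith
      _ = A * (‖X‖ ^ 2 + ‖Y‖ ^ 2) := by rw [hA]; ring
      _ ≤ G n s := mul_le_mul_of_nonneg_left q9 hA0
  have hcont : ∀ n, ContinuousOn (fun s => s + h n) (Icc r t) := fun n => by fun_prop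
  have hs0 : Icc r t ⊆ Icc 0 T := Icc_subset_Icc hr htT.le
  have hs1 : ∀ n, MapsTo (fun s => s + h n) (Icc r t) (Icc 0 T) := by
    intro n
    have := hpos n
    have := hle n
    exact fun s hs => ⟨by linarith [hs.1], by linarith [hs.2]⟩
  have hXc : ∀ n, ContinuousOn (fun s => (h n)⁻¹ • (z (s + h n) - z s)) (Icc r t) := fun n =>
    continuousOn_const.smul ((hzc.comp (hcont n) (hs1 n)).sub (hzc.mono hs0))
  have hYc : ∀ n, ContinuousOn (fun s => (h n)⁻¹ • (F (s + h n) - F s)) (Icc r t) := fun n =>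
    continuousOn_const.smul ((hFc.comp (hcont n) (hs1 n)).sub (hFc.mono hs0))
  have hVc : ∀ n, ContinuousOn (fun s => (h n)⁻¹ • (u (s + h n) - u s)) (Icc r t) := fun n =>
    continuousOn_const.smul ((huc.comp (hcont n) (hs1 n)).sub (huc.mono hs0))
  have hWn' : ∀ n, ∀ s ∈ Icc r t,
      ((h n)⁻¹ • (u (s + h n) - u s), (h n)⁻¹ • (z (s + h n) - z s)) ∈ W := by
    intro n s hs
    have := W.smul_mem (h n)⁻¹ (W.sub_mem (S.mem _ (hs1 n hs)) (S.mem _ (hs0 hs)))
    simpa using this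
  have hmc : ∀ n, ContinuousOn (fun s => m ((h n)⁻¹ • (u (s + h n) - u s))) (Icc r t) := by
    intro n x hx
    exact m_tendsto Fr (l := 𝓝[Icc r t] x) (p := fun y => ((h n)⁻¹ • (u (y + h n) - u y),
      (h n)⁻¹ • (z (y + h n) - z y))) (q := ((h n)⁻¹ • (u (x + h n) - u x),
      (h n)⁻¹ • (z (x + h n) - z x))) (by
        filter_upwards [self_mem_nhdsWithin] with y hy
        exact hWn' n y hy) (hWn' n _ hx) (hVc n x hx) (hXc n x hx)
  have hfc : ∀ n, ContinuousOn (f n) (Icc r t) := fun n =>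
    (((hYc n).inner (hXc n)).sub (continuousOn_const.mul ((hXc n).norm.pow 2))).sub
      ((hmc n).inner (hzc.mono hs0))
  have hfm : ∀ n, AEStronglyMeasurable (f n) (volume.restrict (Ioc r t)) := fun n =>
    ((hfc n).mono Ioc_subset_Icc_self).aestronglyMeasurable measurableSet_Ioc
  -- limits
  have hfl : ∀ᵐ s ∂(volume.restrict (Ioc r t)), Tendsto (fun n => f n s) atTop
      (𝓝 (⟪F1 s, z1 s⟫_ℝ - ν * ‖z1 s‖ ^ 2 - ⟪m (u1 s), z s⟫_ℝ)) := by
    filter_upwards [ae_mono hsub (ae_deriv_of_prim hT (memLp_ii hT.le S.z1m) S.pz),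
      ae_mono hsub (ae_deriv_of_prim hT (memLp_ii hT.le S.u1m) S.pu),
      ae_mono hsub (ae_deriv_of_prim hT (memLp_ii hT.le hF.memLp) hF.prim),
      ae_mono hsub S.mem1, ae_restrict_mem measurableSet_Ioc] with s d1 d2 d3 hmem hs
    have l1 := d1.tendsto_slope_zero_right.comp hlim
    have l2 := d2.tendsto_slope_zero_right.comp hlim
    have l3 := d3.tendsto_slope_zero_right.comp hlim
    have l4 : Tendsto (fun n => m ((h n)⁻¹ • (u (s + h n) - u s))) atTop (𝓝 (m (u1 s))) :=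
      m_tendsto Fr (p := fun n => ((h n)⁻¹ • (u (s + h n) - u s),
        (h n)⁻¹ • (z (s + h n) - z s))) (q := (u1 s, z1 s))
        (Eventually.of_forall fun n => hWn n s hs) hmem l2 l1
    exact ((l3.inner l1).sub ((l1.norm.pow 2).const_mul ν)).sub (l4.inner tendsto_const_nhds)
  have hPD : ∀ᵐ s ∂(volume.restrict (Ioc 0 T)), HasDerivAt P (k s) s :=
    ae_deriv_of_prim hT (hkii 0 T) (fun a b _ _ _ => hPd a b)
  have hGl : ∀ᵐ s ∂(volume.restrict (Ioc r t)), Tendsto (fun n => G n s) atTop (𝓝 (A * k s)) := by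
    filter_upwards [ae_mono hsub hPD] with s d
    have l := d.tendsto_slope_zero_right.comp hlim
    exact l.const_mul A
  have hGI : Tendsto (fun n => ∫ s in Ioc r t, G n s) atTop (𝓝 (∫ s in Ioc r t, A * k s)) := by
    set Q : ℝ → ℝ := fun x => ∫ s in (0 : ℝ)..x, P s with hQ
    have hPi : ∀ x y, IntervalIntegrable P volume x y := fun x y => hPc.intervalIntegrable _ _
    have hQd : ∀ x y, Q y - Q x = ∫ s in x..y, P s := fun x y =>
      intervalIntegral.integral_interval_sub_left (hPi _ _) (hPi _ _)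
    have hQD : ∀ x, HasDerivAt Q (P x) x := fun x =>
      intervalIntegral.integral_hasDerivAt_right (hPi _ _)
        (hPc.stronglyMeasurableAtFilter _ _) hPc.continuousAt
    have e1 : ∀ n, ∫ s in Ioc r t, G n s
        = A * ((h n)⁻¹ • (Q (t + h n) - Q t) - (h n)⁻¹ • (Q (r + h n) - Q r)) := by
      intro n
      rw [← intervalIntegral.integral_of_le hrt.le]
      simp only [hG, smul_eq_mul]
      have hPs : IntervalIntegrable (fun s => P (s + h n)) volume r t :=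
        (hPc.comp (by fun_prop : Continuous fun s : ℝ => s + h n)).intervalIntegrable _ _
      have e3 : ∫ s in r..t, (P (s + h n) - P s)
          = (Q (t + h n) - Q (r + h n)) - (Q t - Q r) := by
        rw [intervalIntegral.integral_sub hPs (hPi _ _),
          intervalIntegral.integral_comp_add_right (fun s => P s), ← hQd, ← hQd]
      rw [intervalIntegral.integral_const_mul, intervalIntegral.integral_const_mul, e3]
      ring
    have e2 : ∫ s in Ioc r t, A * k s = A * (P t - P r) := by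
      rw [← intervalIntegral.integral_of_le hrt.le, intervalIntegral.integral_const_mul, hPd]
    simp_rw [e1]
    rw [e2]
    exact (((hQD t).tendsto_slope_zero_right.comp hlim).sub
      ((hQD r).tendsto_slope_zero_right.comp hlim)).const_mul A
  obtain ⟨hint, hconv⟩ := pratt hfm hGint hΓint hbound hfl hGl hGI
  refine ⟨hint, ?_⟩
  -- the identity for the quotients
  have hid : ∀ n, ‖(h n)⁻¹ • (u (t + h n) - u t)‖ ^ 2 - ‖(h n)⁻¹ • (u (r + h n) - u r)‖ ^ 2
      = 2 * ∫ s in Ioc r t, f n s := by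
    intro n
    have hn := hpos n
    have hThh : t ≤ T - h n := by linarith [hle n]
    have hg1 : MemLp (fun s => u1 (s + h n) - u1 s) 2 (volume.restrict (Ioc 0 (T - h n))) := by
      have hmp : MeasurePreserving (fun s : ℝ => s + h n) (volume.restrict (Ioc 0 (T - h n)))
          (volume.restrict (Ioc (h n) T)) := by
        have := (measurePreserving_add_right volume (h n)).restrict_preimage
          (measurableSet_Ioc : MeasurableSet (Ioc (h n) T))
        rwa [preimage_add_const_Ioc, sub_self] at this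
      exact ((S.u1m.mono_measure (Measure.restrict_mono (Ioc_subset_Ioc_left hn.le)
        le_rfl)).comp_measurePreserving hmp).sub
        (S.u1m.mono_measure (Measure.restrict_mono (Ioc_subset_Ioc_right (by linarith)) le_rfl))
    have hu1i : Integrable u1 (volume.restrict (Ioc 0 T)) := S.u1m.integrable (by norm_num)
    have hgp : ∀ a b, 0 ≤ a → a ≤ b → b ≤ T - h n →
        (u (b + h n) - u b) - (u (a + h n) - u a) = ∫ s in a..b, (u1 (s + h n) - u1 s) := by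
      intro a b ha hab hb
      have i1 : IntervalIntegrable u1 volume a b := ii_of_int hu1i ha hab (by linarith)
      have i2 : IntervalIntegrable (fun s => u1 (s + h n)) volume a b := by
        have := (ii_of_int hu1i (by linarith : 0 ≤ a + h n) (by linarith) (by linarith :
          b + h n ≤ T)).comp_add_right (h n)
        simpa using this
      rw [intervalIntegral.integral_sub i2 i1,
        intervalIntegral.integral_comp_add_right (fun s => u1 s),
        ← S.pu a b ha hab (by linarith), ← S.pu (a + h n) (b + h n) (by linarith) (by linarith)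
        (by linarith)]
      abel
    have e1 := sq_prim hg1 hgp hr hrt.le hThh
    have e0 : ∀ {Y : Type} [NormedAddCommGroup Y] [InnerProductSpace ℝ Y] (x : Y),
        ‖(h n)⁻¹ • x‖ ^ 2 = ((h n) ^ 2)⁻¹ * ‖x‖ ^ 2 := by
      intro Y _ _ x
      rw [norm_smul, norm_inv, Real.norm_eq_abs, abs_of_pos hn, mul_pow, inv_pow]
    rw [e0, e0, ← mul_sub, e1, intervalIntegral.integral_of_le hrt.le, ← integral_const_mul,
      ← integral_const_mul]
    refine integral_congr_ae ?_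
    have hsub2 : (volume.restrict (Ioc r t) : Measure ℝ) ≤ volume.restrict (Ioc 0 (T - h n)) :=
      Measure.restrict_mono (Ioc_subset_Ioc hr hThh) le_rfl
    filter_upwards [ae_mono hsub2 (diff_eq Fr hT hF S hn), ae_restrict_mem measurableSet_Ioc]
      with s hs hsI'
    obtain ⟨k1, k2⟩ := hsI n s hsI'
    have e3 : m ((h n)⁻¹ • (u (s + h n) - u s)) = (h n)⁻¹ ^ 2 • m (u (s + h n) - u s) :=
      hm _ (W.sub_mem (S.mem _ k2) (S.mem _ k1)) _
    simp only [hf]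
    rw [hs, e3, e0, real_inner_smul_left, real_inner_smul_right, real_inner_smul_left]
    ring
  have hL := hdt.sub hdr
  have hR := hconv.const_mul 2
  rw [intervalIntegral.integral_of_le hrt.le]
  refine tendsto_nhds_unique hL ?_
  refine hR.congr fun n => ?_
  exact (hid n).symm

end Pool.Agent.Y303.RA
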