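import Pool.Agent.Y303.RA.Cross
import Pool.Agent.Y303.RA.EnA
import Pool.Agent.TH301.EQ.Space

/-!
The vector product of two fields in `H¹_{0,σ}`: measurability, bounds.
-/

set_option autoImplicit false
set_option linter.unusedSectionVars false

open MeasureTheory Set Filter Topology
open scoped InnerProductSpace ENNReal ContDiff NNReal

namespace Pool.Agent.Y303.RA

open H772R2.NS Pool.Agent.TH301.EQ
open H772R2.NSR (Frame)
open H772R2.NSG (norm_m_le)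

variable {Ω : Set E3}

theorem tens_smul (a : ℝ) (x : E3) : tens (a • x) = a ^ 2 • tens x := by
  ext p
  simp only [tens_apply, PiLp.smul_apply, smul_eq_mul]
  ring

theorem hom_tensL (hΩ : MeasurableSet Ω) : Hom (graphW Ω) (tensL (Ω := Ω)) := by
  intro p hp a
  have hap : a • p ∈ graphW Ω := (graphW Ω).smul_mem a hp
  apply Lp.ext
  filter_upwards [tensL_coe hΩ hap, tensL_coe hΩ hp, Lp.coeFn_smul a p.1,
    Lp.coeFn_smul (a ^ 2) (tensL p.1)] with x h1 h2 h3 h4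
  rw [h4, Pi.smul_apply, h2]
  have h1' : (tensL (a • p.1) : E3 → M3) x = tens ((a • p.1 : L2V Ω) x) := h1
  rw [h1', h3, Pi.smul_apply, tens_smul]

/-- `‖v × w‖²` -/
noncomputable def crs (v w : L2V Ω) : ℝ :=
  ∫ x in Ω, (‖v x‖ ^ 2 * ‖w x‖ ^ 2 - ⟪v x, w x⟫_ℝ ^ 2)

theorem crs_eq (hΩ : MeasurableSet Ω) {p q : L2V Ω × L2M Ω} (hp : p ∈ graphW Ω)
    (hq : q ∈ graphW Ω) : crs p.1 q.1 = ‖altL p.1 q.1‖ ^ 2 / 2 := (norm_altL_sq hΩ hp hq).symm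

theorem crs_comm (v w : L2V Ω) : crs v w = crs w v := by
  unfold crs
  refine integral_congr_ae (Eventually.of_forall fun x => ?_)
  simp only
  rw [real_inner_comm]
  ring

theorem crs_nonneg (v w : L2V Ω) : 0 ≤ crs v w := by
  unfold crs
  refine integral_nonneg fun x => ?_
  have := real_inner_mul_inner_self_le (v x) (w x)
  rw [real_inner_self_eq_norm_sq, real_inner_self_eq_norm_sq] at this
  simp only [Pi.zero_apply]
  nlinarith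

/-- `-∫ v·(v·∇)u ≤ ‖∇v‖ ‖u × v‖` -/
theorem tri_le (hΩ : MeasurableSet Ω) {p q : L2V Ω × L2M Ω} (hp : p ∈ graphW Ω)
    (hq : q ∈ graphW Ω) : -⟪tensL p.1, q.2⟫_ℝ ≤ ‖p.2‖ * √(crs q.1 p.1) := by
  have h := tri_cross hΩ hp hq
  rw [← crs_eq hΩ hp hq, crs_comm] at h
  have h0 := crs_nonneg q.1 p.1
  have h1 : (-⟪tensL p.1, q.2⟫_ℝ) ^ 2 ≤ (‖p.2‖ * √(crs q.1 p.1)) ^ 2 := by
    rw [neg_sq, mul_pow, Real.sq_sqrt h0]
    exact h
  exact (abs_le_of_sq_le_sq' h1 (by positivity)).2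

theorem crs_le (hΩ : MeasurableSet Ω) {C : ℝ} (Fr : Frame (graphW Ω) (tensL (Ω := Ω)) C)
    {p q : L2V Ω × L2M Ω} (hp : p ∈ graphW Ω) (hq : q ∈ graphW Ω) :
    crs p.1 q.1 ≤ 2 * C ^ 2 * (‖p.2‖ ^ 2 * ‖q.2‖ ^ 2) := by
  rw [crs_eq hΩ hp hq]
  have h1 := norm_altL_le hΩ hp hq
  have hn : ∀ {r : L2V Ω × L2M Ω}, r ∈ graphW Ω → n4 r.1 ^ 2 ≤ C * ‖r.2‖ ^ 2 := by
    intro r hr
    rw [← norm_tensL hΩ hr]
    exact norm_m_le Fr hr
  have hC0 := Fr.C0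
  have h2 : ‖altL p.1 q.1‖ ^ 2 ≤ (2 * (n4 p.1 * n4 q.1)) ^ 2 :=
    pow_le_pow_left₀ (norm_nonneg _) h1 2
  have h3 : (2 * (n4 p.1 * n4 q.1)) ^ 2 = 4 * (n4 p.1 ^ 2 * n4 q.1 ^ 2) := by ring
  have h4 : n4 p.1 ^ 2 * n4 q.1 ^ 2 ≤ (C * ‖p.2‖ ^ 2) * (C * ‖q.2‖ ^ 2) :=
    mul_le_mul (hn hp) (hn hq) (by positivity) (by positivity)
  nlinarith

/-- the trace -/
noncomputable def trc : M3 →L[ℝ] ℝ := ∑ i : Fin 3, (EuclideanSpace.proj (𝕜 := ℝ) (i, i) : M3 →L[ℝ] ℝ)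

theorem trc_tens (x : E3) : trc (tens x) = ‖x‖ ^ 2 := by
  rw [norm_sq_E3]
  simp only [trc, ContinuousLinearMap.sum_apply]
  refine Finset.sum_congr rfl fun i _ => ?_
  show tens x (i, i) = _
  rw [tens_apply, sq]

theorem inner_tens_tens (x y : E3) : ⟪tens x, tens y⟫_ℝ = ⟪x, y⟫_ℝ ^ 2 := by
  rw [inner_M3, inner_E3, sq, Finset.sum_mul_sum]
  refine Finset.sum_congr rfl fun i _ => Finset.sum_congr rfl fun j _ => ?_
  simp only [tens_apply]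
  ring

/-- the trace on `L²` -/
noncomputable def tcL (Ω : Set E3) : L2M Ω →L[ℝ] Lp ℝ 2 (volume.restrict Ω) :=
  trc.compLpL 2 (volume.restrict Ω)

theorem crs_tens (hΩ : MeasurableSet Ω) {p q : L2V Ω × L2M Ω} (hp : p ∈ graphW Ω)
    (hq : q ∈ graphW Ω) :
    crs p.1 q.1 = ⟪tcL Ω (tensL p.1), tcL Ω (tensL q.1)⟫_ℝ - ⟪tensL p.1, tensL q.1⟫_ℝ := by
  rw [L2.inner_def, L2.inner_def, ← integral_sub (L2.integrable_inner _ _)
    (L2.integrable_inner _ _)]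
  unfold crs
  apply integral_congr_ae
  filter_upwards [ContinuousLinearMap.coeFn_compLpL trc (tensL p.1),
    ContinuousLinearMap.coeFn_compLpL trc (tensL q.1), tensL_coe hΩ hp, tensL_coe hΩ hq]
    with x h1 h2 h3 h4
  have e1 : (tcL Ω (tensL p.1) : E3 → ℝ) x = ‖p.1 x‖ ^ 2 := by
    rw [← trc_tens, ← h3]; exact h1
  have e2 : (tcL Ω (tensL q.1) : E3 → ℝ) x = ‖q.1 x‖ ^ 2 := by
    rw [← trc_tens, ← h4]; exact h2
  rw [e1, e2, h3, h4, inner_tens_tens]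
  simp only [RCLike.inner_apply, conj_trivial]
  ring

theorem crs_meas (hΩ : MeasurableSet Ω) {μ : Measure ℝ} {u w : ℝ → L2V Ω} {G R : ℝ → L2M Ω}
    (hu : AEStronglyMeasurable u μ) (hG : AEStronglyMeasurable G μ)
    (hW : ∀ᵐ t ∂μ, (u t, G t) ∈ graphW Ω) (hw : AEStronglyMeasurable w μ)
    (hR : AEStronglyMeasurable R μ) (hW' : ∀ᵐ t ∂μ, (w t, R t) ∈ graphW Ω) :
    AEStronglyMeasurable (fun t => crs (u t) (w t)) μ := by
  have h1 := aestronglyMeasurable_tensL hΩ hu hG hW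
  have h2 := aestronglyMeasurable_tensL hΩ hw hR hW'
  have h3 : AEStronglyMeasurable (fun t => ⟪tcL Ω (tensL (u t)), tcL Ω (tensL (w t))⟫_ℝ
      - ⟪tensL (u t), tensL (w t)⟫_ℝ) μ :=
    (((tcL Ω).continuous.comp_aestronglyMeasurable h1).inner
      ((tcL Ω).continuous.comp_aestronglyMeasurable h2)).sub (h1.inner h2)
  refine h3.congr ?_
  filter_upwards [hW, hW'] with t k1 k2
  exact (crs_tens hΩ k1 k2).symm

theorem norm_eq_two (v : L2V Ω) : ‖v‖ = (eLpNorm v 2 (volume.restrict Ω)).toReal := Lp.norm_def v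

/-- bound of the vector product by a function in `L^q` -/
theorem crs_prod (hΩ : MeasurableSet Ω) {u : L2V Ω} {p : L2V Ω × L2M Ω}
    (hp : p ∈ graphW Ω) {w : E3 → ℝ} (hw : AEStronglyMeasurable w (volume.restrict Ω))
    {q : ℝ≥0∞} {θ B : ℝ} (hq : 3 ≤ q) (hθ : θ = (3 / q).toReal) (hθ1 : θ ≤ 1) (hB : 0 ≤ B)
    (hwB : eLpNorm w q (volume.restrict Ω) ≤ ENNReal.ofReal B)
    (hle : ∀ᵐ x ∂(volume.restrict Ω), ‖u x‖ ^ 2 * ‖p.1 x‖ ^ 2 - ⟪u x, p.1 x⟫_ℝ ^ 2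
      ≤ (w x) ^ 2 * ‖p.1 x‖ ^ 2) :
    crs u p.1 ≤ (B * (‖p.1‖ ^ (1 - θ) * ((CS : ℝ) * ‖p.2‖) ^ θ)) ^ 2 := by
  have hθ0 : 0 ≤ θ := by rw [hθ]; exact ENNReal.toReal_nonneg
  have h1 := prod_le (μ := volume.restrict Ω) hw (Lp.aestronglyMeasurable p.1) hq hθ
  have h6 := six_le hΩ hp
  have h2 : eLpNorm (fun x => w x * ‖p.1 x‖) 2 (volume.restrict Ω)
      ≤ ENNReal.ofReal B * (‖p.1‖ₑ ^ (1 - θ) * ((CS : ℝ≥0∞) * ‖p.2‖ₑ) ^ θ) := by
    refine h1.trans ?_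
    gcongr
    rw [Lp.enorm_def]
  have hfin : ENNReal.ofReal B * (‖p.1‖ₑ ^ (1 - θ) * ((CS : ℝ≥0∞) * ‖p.2‖ₑ) ^ θ) < ⊤ := by
    refine ENNReal.mul_lt_top ENNReal.ofReal_lt_top (ENNReal.mul_lt_top ?_ ?_)
    · exact ENNReal.rpow_lt_top_of_nonneg (by linarith) enorm_ne_top
    · exact ENNReal.rpow_lt_top_of_nonneg hθ0 (ENNReal.mul_ne_top (by simp) enorm_ne_top)
  have hmem : MemLp (fun x => w x * ‖p.1 x‖) 2 (volume.restrict Ω) :=
    ⟨hw.mul (Lp.aestronglyMeasurable p.1).norm, h2.trans_lt hfin⟩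
  have hsqi := (memLp_two_iff_integrable_sq hmem.aestronglyMeasurable).mp hmem
  have h3 : crs u p.1 ≤ ∫ x in Ω, (w x * ‖p.1 x‖) ^ 2 := by
    unfold crs
    refine integral_mono_of_nonneg (Eventually.of_forall fun x => ?_) hsqi ?_
    · have := real_inner_mul_inner_self_le (u x) (p.1 x)
      rw [real_inner_self_eq_norm_sq, real_inner_self_eq_norm_sq] at this
      simp only [Pi.zero_apply]
      nlinarith
    · filter_upwards [hle] with x hx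
      rw [mul_pow]
      exact hx
  have h4 : ∫ x in Ω, (w x * ‖p.1 x‖) ^ 2
      = (eLpNorm (fun x => w x * ‖p.1 x‖) 2 (volume.restrict Ω)).toReal ^ 2 := by
    rw [← Lp.norm_toLp _ hmem, ← real_inner_self_eq_norm_sq, L2.inner_def]
    apply integral_congr_ae
    filter_upwards [hmem.coeFn_toLp] with x hx
    rw [hx, real_inner_self_eq_norm_sq, Real.norm_eq_abs, sq_abs]
  have h5 : (eLpNorm (fun x => w x * ‖p.1 x‖) 2 (volume.restrict Ω)).toReal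
      ≤ B * (‖p.1‖ ^ (1 - θ) * ((CS : ℝ) * ‖p.2‖) ^ θ) := by
    have := ENNReal.toReal_mono hfin.ne h2
    rw [ENNReal.toReal_mul, ENNReal.toReal_ofReal hB, ENNReal.toReal_mul, ← ENNReal.toReal_rpow,
      ← ENNReal.toReal_rpow, ENNReal.toReal_mul, toReal_enorm, toReal_enorm,
      ENNReal.coe_toReal] at this
    exact this
  rw [h4] at h3
  exact h3.trans (pow_le_pow_left₀ ENNReal.toReal_nonneg h5 2)

end Pool.Agent.Y303.RA
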