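import Pool.Agent.Y303.RA.Main
import Pool.Agent.Y303.RA.Conc

/-!
The velocity and the acceleration before a first singular time, in a domain.
-/

set_option autoImplicit false
set_option linter.unusedSectionVars false

open MeasureTheory Set Filter Topology
open scoped InnerProductSpace ENNReal ContDiff NNReal

namespace Pool.Agent.Y303.RA

open H772R2.NS
open H772R2.NSR (Frame prim_cont)
open Pool.Agent.W795.TQ

/-- Young's inequality -/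
theorem young_pow {A x y ε θ : ℝ} (hA : 0 ≤ A) (hx : 0 ≤ x) (hy : 0 ≤ y) (hε : 0 < ε)
    (h0 : 0 ≤ θ) (h1 : θ < 1) :
    A * (x ^ (1 + θ) * y ^ (1 - θ))
      ≤ ε * x ^ 2 + A ^ (2 / (1 - θ)) * ε ^ (-((1 + θ) / (1 - θ))) * y ^ 2 := by
  have h1' : 0 < 1 - θ := by linarith
  set w1 : ℝ := (1 + θ) / 2 with hw1
  set w2 : ℝ := (1 - θ) / 2 with hw2
  set P : ℝ := ε * x ^ 2 with hP
  set Q : ℝ := A ^ (2 / (1 - θ)) * ε ^ (-((1 + θ) / (1 - θ))) * y ^ 2 with hQ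
  have hP0 : 0 ≤ P := by positivity
  have hQ0 : 0 ≤ Q := by positivity
  have hg := Real.geom_mean_le_arith_mean2_weighted (w₁ := w1) (w₂ := w2) (by positivity)
    (by positivity) hP0 hQ0 (by rw [hw1, hw2]; ring)
  have e1 : P ^ w1 = ε ^ w1 * x ^ (1 + θ) := by
    rw [hP, Real.mul_rpow hε.le (by positivity), ← Real.rpow_natCast x 2, ← Real.rpow_mul hx]
    congr 2
    rw [hw1]; push_cast; ring
  have e2 : Q ^ w2 = A * ε ^ (-w1) * y ^ (1 - θ) := by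
    rw [hQ, Real.mul_rpow (by positivity) (by positivity), Real.mul_rpow (by positivity)
      (by positivity), ← Real.rpow_mul hA, ← Real.rpow_mul hε.le, ← Real.rpow_natCast y 2,
      ← Real.rpow_mul hy]
    have k1 : 2 / (1 - θ) * w2 = 1 := by rw [hw2]; field_simp
    have k2 : -((1 + θ) / (1 - θ)) * w2 = -w1 := by rw [hw1, hw2]; field_simp
    have k3 : ((2 : ℕ) : ℝ) * w2 = 1 - θ := by rw [hw2]; push_cast; ring
    rw [k1, k2, k3, Real.rpow_one]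
  have e3 : P ^ w1 * Q ^ w2 = A * (x ^ (1 + θ) * y ^ (1 - θ)) := by
    rw [e1, e2]
    have : ε ^ w1 * ε ^ (-w1) = 1 := by
      rw [← Real.rpow_add hε, add_neg_cancel, Real.rpow_zero]
    calc ε ^ w1 * x ^ (1 + θ) * (A * ε ^ (-w1) * y ^ (1 - θ))
        = (ε ^ w1 * ε ^ (-w1)) * (A * (x ^ (1 + θ) * y ^ (1 - θ))) := by ring
      _ = _ := by rw [this, one_mul]
  rw [e3] at hg
  have hw1' : w1 ≤ 1 := by rw [hw1]; linarith
  have hw2' : w2 ≤ 1 := by rw [hw2]; linarith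
  calc A * (x ^ (1 + θ) * y ^ (1 - θ)) ≤ w1 * P + w2 * Q := hg
    _ ≤ 1 * P + 1 * Q := by gcongr
    _ = P + Q := by ring

variable {Ω : Set E3} {C ν T τ κ : ℝ} {F F1 : ℝ → L2M Ω} {v v1 : ℝ → L2V Ω} {z z1 : ℝ → L2M Ω}

/-- the square of the vector product is locally integrable in time -/
theorem crs_int (hΩ : IsOpen Ω) (Fr : Frame (graphW Ω) (tensL (Ω := Ω)) C)
    (hS : ∀ t ∈ Ioo 0 τ, Str (graphW Ω) (tensL (Ω := Ω)) ν t F v v1 z z1) {s t : ℝ} (hs : 0 ≤ s)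
    (ht : t ∈ Ioo 0 τ) : IntegrableOn (fun r => crs (v r) (v1 r)) (Ioc s t) := by
  have hm := hΩ.measurableSet
  have S := hS t ht
  have hsub : (volume.restrict (Ioc s t) : Measure ℝ) ≤ volume.restrict (Ioc 0 t) :=
    Measure.restrict_mono (Ioc_subset_Ioc_left hs) le_rfl
  have hzc : ContinuousOn z (Icc 0 t) := prim_cont S.z1m S.pz
  have huc : ContinuousOn v (Icc 0 t) := prim_cont S.u1m S.pu
  obtain ⟨Z, hZ⟩ : ∃ Z, ∀ s ∈ Icc 0 t, ‖z s‖ ≤ Z := by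
    obtain ⟨Z, hZ⟩ := (isCompact_Icc.image_of_continuousOn hzc).isBounded.exists_norm_le
    exact ⟨Z, fun s hs => hZ _ ⟨s, hs, rfl⟩⟩
  have hz2 : Integrable (fun s => ‖z1 s‖ ^ 2) (volume.restrict (Ioc 0 t)) :=
    (memLp_two_iff_integrable_sq_norm S.z1m.aestronglyMeasurable).mp S.z1m
  have hI : Integrable (fun r => crs (v r) (v1 r)) (volume.restrict (Ioc 0 t)) := by
    refine ((hz2.const_mul (2 * C ^ 2 * Z ^ 2))).mono' ?_ ?_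
    · refine crs_meas hm ((huc.mono Ioc_subset_Icc_self).aestronglyMeasurable measurableSet_Ioc)
        ((hzc.mono Ioc_subset_Icc_self).aestronglyMeasurable measurableSet_Ioc) ?_
        S.u1m.aestronglyMeasurable S.z1m.aestronglyMeasurable S.mem1
      filter_upwards [ae_restrict_mem measurableSet_Ioc] with r hr
      exact S.mem r (Ioc_subset_Icc_self hr)
    · filter_upwards [S.mem1, ae_restrict_mem measurableSet_Ioc] with r h1 hr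
      have hrI := Ioc_subset_Icc_self hr
      rw [Real.norm_of_nonneg (crs_nonneg _ _)]
      have h2 := crs_le hm Fr (S.mem r hrI) h1
      refine h2.trans ?_
      have h3 : ‖z r‖ ^ 2 ≤ Z ^ 2 := pow_le_pow_left₀ (norm_nonneg _) (hZ r hrI) 2
      have h4 : ‖z r‖ ^ 2 * ‖z1 r‖ ^ 2 ≤ Z ^ 2 * ‖z1 r‖ ^ 2 := by gcongr
      calc 2 * C ^ 2 * (‖z r‖ ^ 2 * ‖z1 r‖ ^ 2) ≤ 2 * C ^ 2 * (Z ^ 2 * ‖z1 r‖ ^ 2) := by gcongr
        _ = 2 * C ^ 2 * Z ^ 2 * ‖z1 r‖ ^ 2 := by ring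
  exact hI.mono_measure hsub

/-- membership almost everywhere up to `τ` -/
theorem mem_ae (hτ : 0 < τ)
    (hS : ∀ t ∈ Ioo 0 τ, Str (graphW Ω) (tensL (Ω := Ω)) ν t F v v1 z z1) :
    ∀ᵐ t ∂(volume.restrict (Ioo 0 τ)), (v t, z t) ∈ graphW Ω ∧ (v1 t, z1 t) ∈ graphW Ω := by
  have h1 : ∀ n : ℕ, ∃ t, t ∈ Ioo 0 τ ∧ τ - 1 / ((n : ℝ) + 1) < t := fun n => by
    have hn : (0 : ℝ) < 1 / ((n : ℝ) + 1) := by positivity
    obtain ⟨t, ht1, ht2⟩ := exists_between (max_lt (by linarith : τ - 1 / ((n : ℝ) + 1) < τ) hτ)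
    exact ⟨t, ⟨(le_max_right _ _).trans_lt ht1, ht2⟩, (le_max_left _ _).trans_lt ht1⟩
  choose t ht1 ht2 using h1
  have hsub : Ioo 0 τ ⊆ ⋃ n, Ioc 0 (t n) := by
    intro s hs
    obtain ⟨n, hn⟩ := exists_nat_one_div_lt (show 0 < τ - s by linarith [hs.2])
    exact mem_iUnion.2 ⟨n, hs.1, by linarith [ht2 n]⟩
  refine ae_mono (Measure.restrict_mono hsub le_rfl) ?_
  refine (ae_restrict_iUnion_iff (fun n => Ioc 0 (t n)) (fun s =>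
    (v s, z s) ∈ graphW Ω ∧ (v1 s, z1 s) ∈ graphW Ω)).2 ?_
  intro n
  filter_upwards [(hS _ (ht1 n)).mem1, ae_restrict_mem measurableSet_Ioc] with s h1 h2
  exact ⟨(hS _ (ht1 n)).mem s (Ioc_subset_Icc_self h2), h1⟩

theorem mem_ae' (hτ : 0 < τ)
    (hS : ∀ t ∈ Ioo 0 τ, Str (graphW Ω) (tensL (Ω := Ω)) ν t F v v1 z z1) {s : ℝ} (hs : 0 ≤ s) :
    ∀ᵐ t ∂(volume.restrict (Ioo s τ)), (v t, z t) ∈ graphW Ω ∧ (v1 t, z1 t) ∈ graphW Ω :=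
  ae_mono (Measure.restrict_mono (Ioo_subset_Ioo_left hs) le_rfl) (mem_ae hτ hS)

theorem tri_ae (hΩ : IsOpen Ω) (hτ : 0 < τ)
    (hS : ∀ t ∈ Ioo 0 τ, Str (graphW Ω) (tensL (Ω := Ω)) ν t F v v1 z z1) {s : ℝ} (hs : 0 ≤ s) :
    ∀ᵐ t ∂(volume.restrict (Ioo s τ)),
      -⟪tensL (v1 t), z t⟫_ℝ ≤ ‖z1 t‖ * √(crs (v t) (v1 t)) := by
  filter_upwards [mem_ae' hτ hS hs] with t ht
  exact tri_le (p := (v1 t, z1 t)) (q := (v t, z t)) hΩ.measurableSet ht.2 ht.1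

theorem core_A (hΩ : IsOpen Ω) (Fr : Frame (graphW Ω) (tensL (Ω := Ω)) C) (hν : 0 < ν)
    (hτ : 0 < τ) (hτT : τ ≤ T) (hF : FH T F F1)
    (hS : ∀ t ∈ Ioo 0 τ, Str (graphW Ω) (tensL (Ω := Ω)) ν t F v v1 z z1) (hκ : 0 < κ)
    (hrate : ∀ t0 < τ, ¬ ∀ᵐ t ∂(volume.restrict (Ioo t0 τ)),
      ‖v1 t‖ ≤ κ * (τ - t) ^ (-(3 / 4) : ℝ)) {s : ℝ} (hs : s ∈ Ico 0 τ) :
    ∀ t0 < τ, ∃ t ∈ Ioo t0 τ, s < t ∧
      κ ^ 2 / 2 * ν ≤ (τ - t) ^ (3 / 2 : ℝ) * ∫ r in s..t, crs (v r) (v1 r) := by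
  have hm := hΩ.measurableSet
  have e : ∀ r, (√(crs (v r) (v1 r))) ^ 2 = crs (v r) (v1 r) := fun r =>
    Real.sq_sqrt (crs_nonneg _ _)
  have hi : ∀ t ∈ Ioo s τ, IntegrableOn (fun t => (√(crs (v t) (v1 t))) ^ 2) (Ioc s t) := by
    intro t ht
    simp only [e]
    exact crs_int hΩ Fr hS hs.1 ⟨hs.1.trans_lt ht.1, ht.2⟩
  have h := growth_X Fr (hom_tensL hm) hν hτ hτT hF hS hκ hrate hs
    (X := fun t => √(crs (v t) (v1 t))) hi (tri_ae hΩ hτ hS hs.1)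
  intro t0 ht0
  obtain ⟨t, ht, hst, hle⟩ := h t0 ht0
  refine ⟨t, ht, hst, ?_⟩
  simp only [e] at hle
  exact hle

theorem core_B (hΩ : IsOpen Ω) (Fr : Frame (graphW Ω) (tensL (Ω := Ω)) C) (hν : 0 < ν)
    (hτ : 0 < τ) (hτT : τ ≤ T) (hF : FH T F F1)
    (hS : ∀ t ∈ Ioo 0 τ, Str (graphW Ω) (tensL (Ω := Ω)) ν t F v v1 z z1) (hκ : 0 < κ)
    (hrate : ∀ t0 < τ, ¬ ∀ᵐ t ∂(volume.restrict (Ioo t0 τ)),
      ‖v1 t‖ ≤ κ * (τ - t) ^ (-(3 / 4) : ℝ)) {c : ℝ} (hc : c ∈ Ioo (0 : ℝ) 3) {s : ℝ}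
    (hs : s ∈ Ico 0 τ) :
    ∃ M : ℝ, ∀ ψ : ℝ → ℝ, (∀ t, 0 ≤ ψ t) → (∀ t ∈ Ioo s τ, IntegrableOn ψ (Ioc s t)) →
      (∀ᵐ t ∂(volume.restrict (Ioo s τ)), crs (v t) (v1 t) ≤ ψ t * ‖v1 t‖ ^ 2) →
      ∀ t0 < τ, ∃ t ∈ Ioo t0 τ, s < t ∧
        c * ν * Real.log (1 / (τ - t)) - M ≤ ∫ r in s..t, ψ r := by
  have hm := hΩ.measurableSet
  have hc3 : 0 < 3 - c := by linarith [hc.2]
  obtain ⟨M, hM⟩ := growth_Λ Fr (hom_tensL hm) hν hτ hτT hF hS hκ hrate hs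
    (δ := 1 - c / 3) (by linarith)
  refine ⟨4 * ν * (c / 3) * M, ?_⟩
  intro ψ hψ0 hψi hψ t0 ht0
  have hcν : 0 < 4 * ν * (c / 3) := by have := hc.1; positivity
  obtain ⟨t, ht, hst, hle⟩ := hM (fun t => ψ t / (4 * ν * (c / 3)))
    (fun t => by have := hψ0 t; positivity) (fun t ht => (hψi t ht).div_const _) (by
      filter_upwards [hψ, tri_ae hΩ hτ hS hs.1] with t h1 h3
      have h4 : √(crs (v t) (v1 t)) ≤ √(ψ t) * ‖v1 t‖ := by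
        rw [← Real.sqrt_sq (norm_nonneg (v1 t)), ← Real.sqrt_mul (hψ0 t)]
        exact Real.sqrt_le_sqrt h1
      have h5 : ‖z1 t‖ * √(crs (v t) (v1 t)) ≤ ‖z1 t‖ * (√(ψ t) * ‖v1 t‖) := by gcongr
      have h6 : √(ψ t) ^ 2 = ψ t := Real.sq_sqrt (hψ0 t)
      have h7 : 0 ≤ (2 * (c / 3) * ν * ‖z1 t‖ - √(ψ t) * ‖v1 t‖) ^ 2 / (4 * ν * (c / 3)) := by
        positivity
      have h8 : (2 * (c / 3) * ν * ‖z1 t‖ - √(ψ t) * ‖v1 t‖) ^ 2 / (4 * ν * (c / 3))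
          = (c / 3) * ν * ‖z1 t‖ ^ 2 - ‖z1 t‖ * (√(ψ t) * ‖v1 t‖)
            + ψ t / (4 * ν * (c / 3)) * ‖v1 t‖ ^ 2 := by
        have e : ψ t / (4 * ν * (c / 3)) * ‖v1 t‖ ^ 2
            = √(ψ t) ^ 2 / (4 * ν * (c / 3)) * ‖v1 t‖ ^ 2 := by rw [h6]
        rw [e]
        have := hc.1
        field_simp
        ring
      have e9 : (1 - (1 - c / 3)) * ν * ‖z1 t‖ ^ 2 = (c / 3) * ν * ‖z1 t‖ ^ 2 := by ring
      rw [e9]
      linarith) t0 ht0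
  refine ⟨t, ht, hst, ?_⟩
  rw [intervalIntegral.integral_div, le_div_iff₀ hcν] at hle
  calc c * ν * Real.log (1 / (τ - t)) - 4 * ν * (c / 3) * M
      = (3 / 4 * Real.log (1 / (τ - t)) - M) * (4 * ν * (c / 3)) := by ring
    _ ≤ _ := hle

theorem core_S (hΩ : IsOpen Ω) (Fr : Frame (graphW Ω) (tensL (Ω := Ω)) C) (hν : 0 < ν)
    (hτ : 0 < τ) (hτT : τ ≤ T) (hF : FH T F F1)
    (hS : ∀ t ∈ Ioo 0 τ, Str (graphW Ω) (tensL (Ω := Ω)) ν t F v v1 z z1) (hκ : 0 < κ)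
    (hrate : ∀ t0 < τ, ¬ ∀ᵐ t ∂(volume.restrict (Ioo t0 τ)),
      ‖v1 t‖ ≤ κ * (τ - t) ^ (-(3 / 4) : ℝ)) {s : ℝ} (hs : s ∈ Ico 0 τ) {p q : ℝ≥0∞}
    (hpq : 2 / p + 3 / q = 1) (hp : p ≠ ⊤) {w : ℝ → E3 → ℝ} {B : ℝ → ℝ}
    (hB : MemLp B p (volume.restrict (Ioo s τ)))
    (hwB : ∀ᵐ t ∂(volume.restrict (Ioo s τ)), AEStronglyMeasurable (w t) (volume.restrict Ω) ∧
      eLpNorm (w t) q (volume.restrict Ω) ≤ ENNReal.ofReal (B t)) :
    ¬ ∀ᵐ t ∂(volume.restrict (Ioo s τ)), ∀ᵐ x ∂(volume.restrict Ω),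
      ‖v t x‖ ^ 2 * ‖v1 t x‖ ^ 2 - ⟪v t x, v1 t x⟫_ℝ ^ 2 ≤ (w t x) ^ 2 * ‖v1 t x‖ ^ 2 := by
  intro hcon
  have hm := hΩ.measurableSet
  -- the exponents
  set θ : ℝ := (3 / q).toReal with hθ
  have h3q : 3 / q ≤ 1 := by rw [← hpq]; exact le_add_self
  have h2p : 2 / p ≤ 1 := by rw [← hpq]; exact le_self_add
  have hq3 : 3 ≤ q := by
    by_contra h
    rw [not_le] at h
    have : 1 < 3 / q := by
      rw [ENNReal.lt_div_iff_mul_lt (Or.inr (by simp)) (Or.inl (h.trans (by simp)).ne), one_mul]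
      exact h
    exact absurd h3q (not_le.2 this)
  have hθ0 : 0 ≤ θ := ENNReal.toReal_nonneg
  have hsum : (2 / p).toReal + θ = 1 := by
    rw [hθ, ← ENNReal.toReal_add (h2p.trans_lt (by simp)).ne (h3q.trans_lt (by simp)).ne, hpq]
    simp
  have hp0 : p ≠ 0 := by
    intro h
    rw [h, ENNReal.div_zero (by simp)] at h2p
    exact absurd h2p (by simp)
  have hpr : 0 < p.toReal := ENNReal.toReal_pos hp0 hp
  have h2pr : (2 / p).toReal = 2 / p.toReal := by rw [ENNReal.toReal_div]; simp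
  have hθ1 : θ < 1 := by
    have : 0 < 2 / p.toReal := by positivity
    rw [h2pr] at hsum
    linarith
  have hpθ : p.toReal = 2 / (1 - θ) := by
    have : 1 - θ = 2 / p.toReal := by rw [← h2pr]; linarith
    rw [this]
    field_simp
  -- the coefficient
  set D : ℝ := ((CS : ℝ) ^ θ) ^ (2 / (1 - θ)) * (ν / 2) ^ (-((1 + θ) / (1 - θ))) with hD
  have hD0 : 0 ≤ D := by positivity
  set Λ : ℝ → ℝ := fun t => D * |B t| ^ p.toReal with hΛ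
  have hΛi : IntegrableOn Λ (Ioo s τ) := by
    have := hB.integrable_norm_rpow hp0 hp
    exact this.const_mul D
  obtain ⟨M, hM⟩ := growth_Λ Fr (hom_tensL hm) hν hτ hτT hF hS hκ hrate hs
    (δ := 1 / 2) (by norm_num)
  have hΛ0 : ∀ t, 0 ≤ Λ t := fun t => by simp only [hΛ]; positivity
  have key := hM Λ hΛ0
    (fun t ht => hΛi.mono_set fun x hx => ⟨hx.1, hx.2.trans_lt ht.2⟩) (by
      filter_upwards [hcon, hwB, mem_ae' hτ hS hs.1, tri_ae hΩ hτ hS hs.1] with t h1 h2 h3 h5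
      have hwB' : eLpNorm (w t) q (volume.restrict Ω) ≤ ENNReal.ofReal |B t| :=
        h2.2.trans (ENNReal.ofReal_le_ofReal (le_abs_self _))
      have h4 : crs (v t) (v1 t)
          ≤ (|B t| * (‖v1 t‖ ^ (1 - θ) * ((CS : ℝ) * ‖z1 t‖) ^ θ)) ^ 2 :=
        crs_prod (p := (v1 t, z1 t)) hm h3.2 h2.1 hq3 hθ hθ1.le (abs_nonneg (B t)) hwB' h1
      have h6 : √(crs (v t) (v1 t)) ≤ |B t| * (‖v1 t‖ ^ (1 - θ) * ((CS : ℝ) * ‖z1 t‖) ^ θ) := by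
        refine Real.sqrt_le_sqrt h4 |>.trans (le_of_eq ?_)
        exact Real.sqrt_sq (by positivity)
      have h7 : ‖z1 t‖ * √(crs (v t) (v1 t))
          ≤ (|B t| * (CS : ℝ) ^ θ) * (‖z1 t‖ ^ (1 + θ) * ‖v1 t‖ ^ (1 - θ)) := by
        have e1 : ‖z1 t‖ ^ (1 + θ) = ‖z1 t‖ * ‖z1 t‖ ^ θ := by
          rcases eq_or_lt_of_le (norm_nonneg (z1 t)) with h | h
          · rw [← h, Real.zero_rpow (by linarith), zero_mul]
          · rw [Real.rpow_add h, Real.rpow_one]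
        calc ‖z1 t‖ * √(crs (v t) (v1 t))
            ≤ ‖z1 t‖ * (|B t| * (‖v1 t‖ ^ (1 - θ) * ((CS : ℝ) * ‖z1 t‖) ^ θ)) := by gcongr
          _ = (|B t| * (CS : ℝ) ^ θ) * (‖z1 t‖ ^ (1 + θ) * ‖v1 t‖ ^ (1 - θ)) := by
              rw [Real.mul_rpow (by positivity) (norm_nonneg _), e1]
              ring
      have h8 := young_pow (A := |B t| * (CS : ℝ) ^ θ) (x := ‖z1 t‖) (y := ‖v1 t‖) (ε := ν / 2)
        (by positivity) (norm_nonneg _) (norm_nonneg _) (by positivity) hθ0 hθ1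
      have e2 : (|B t| * (CS : ℝ) ^ θ) ^ (2 / (1 - θ)) * (ν / 2) ^ (-((1 + θ) / (1 - θ)))
          = Λ t := by
        simp only [hΛ, hD]
        rw [Real.mul_rpow (abs_nonneg _) (by positivity), hpθ]
        ring
      rw [e2] at h8
      have e3 : (1 - 1 / 2) * ν * ‖z1 t‖ ^ 2 = ν / 2 * ‖z1 t‖ ^ 2 := by ring
      rw [e3]
      linarith)
  -- contradiction
  set I : ℝ := ∫ x in Ioo s τ, Λ x with hI
  have hIb : ∀ t ∈ Ioo s τ, ∫ r in s..t, Λ r ≤ I := by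
    intro t ht
    rw [intervalIntegral.integral_of_le ht.1.le, hI]
    refine setIntegral_mono_set hΛi (Eventually.of_forall hΛ0) ?_
    have : Ioc s t ⊆ Ioo s τ := fun x hx => ⟨hx.1, hx.2.trans_lt ht.2⟩
    exact this.eventuallyLE
  obtain ⟨t, ht, hst, hle⟩ := key (τ - Real.exp (-(4 / 3 * (I + M + 1)))) (by
    have := Real.exp_pos (-(4 / 3 * (I + M + 1)))
    linarith)
  have h1 := hIb t ⟨hst, ht.2⟩
  have hp' : 0 < τ - t := by linarith [ht.2]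
  have h2 : τ - t < Real.exp (-(4 / 3 * (I + M + 1))) := by linarith [ht.1]
  have h3 : Real.log (τ - t) < -(4 / 3 * (I + M + 1)) := by
    rw [Real.log_lt_iff_lt_exp hp']
    exact h2
  rw [one_div, Real.log_inv] at hle
  linarith

end Pool.Agent.Y303.RA
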