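import Pool.Agent.W795.ES.Osc
import Pool.Agent.W795.TQ.DFin
import Pool.Agent.W918.ES.GronL1
import Pool.Agent.Y303.RA.EnA

/-!
The time derivative before a first singular time, in the abstract frame.
-/

set_option autoImplicit false
set_option linter.unusedSectionVars false

open MeasureTheory Set Filter Topology
open scoped InnerProductSpace

namespace Pool.Agent.Y303.RA

open Pool.Agent.W795.TQ
open Pool.Agent.W795.ES (increment limit_state int_sq)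
open Pool.Agent.W918.ES (gronL1)
open H772R2.NSR (Frame prim_cont memLp_ii ae_deriv_of_prim)
open H772R2.NSG (ii_of_int)

section glue

variable {H K : Type} [NormedAddCommGroup H] [InnerProductSpace ℝ H] [CompleteSpace H]
  [NormedAddCommGroup K] [InnerProductSpace ℝ K] [CompleteSpace K]
  {W : Submodule ℝ (H × K)} {m : H → K} {C ν T : ℝ} {F F1 : ℝ → K}

/-- a strong solution with canonical derivatives -/
theorem glue (Fr : Frame W m C) (hT : 0 < T) {u u1 : ℝ → H} {z z1 : ℝ → K}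
    (S : Str W m ν T F u u1 z z1) {v : ℝ → H} (hv : ∀ t ∈ Icc 0 T, v t = u t) :
    Str W m ν T F v (deriv v) (gz W v) (deriv (gz W v)) := by
  have hz : ∀ t ∈ Icc 0 T, gz W v t = z t := fun t ht => gz_eq Fr (by
    rw [hv t ht]
    exact S.mem t ht)
  have hne : ∀ᵐ s ∂(volume.restrict (Ioc 0 T)), s ≠ T := by
    refine ae_restrict_of_ae ?_
    simp [ae_iff, measure_singleton]
  have hdu : ∀ᵐ s ∂(volume.restrict (Ioc 0 T)), deriv v s = u1 s := by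
    filter_upwards [ae_deriv_of_prim hT (memLp_ii hT.le S.u1m) S.pu,
      ae_restrict_mem measurableSet_Ioc, hne] with s hd hs hsT
    refine (hd.congr_of_eventuallyEq ?_).deriv
    filter_upwards [Icc_mem_nhds hs.1 (lt_of_le_of_ne hs.2 hsT)] with x hx
    exact hv x hx
  have hdz : ∀ᵐ s ∂(volume.restrict (Ioc 0 T)), deriv (gz W v) s = z1 s := by
    filter_upwards [ae_deriv_of_prim hT (memLp_ii hT.le S.z1m) S.pz,
      ae_restrict_mem measurableSet_Ioc, hne] with s hd hs hsT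
    refine (hd.congr_of_eventuallyEq ?_).deriv
    filter_upwards [Icc_mem_nhds hs.1 (lt_of_le_of_ne hs.2 hsT)] with x hx
    exact hz x hx
  have hsub : ∀ a b : ℝ, 0 ≤ a → b ≤ T →
      (volume.restrict (Ioc a b) : Measure ℝ) ≤ volume.restrict (Ioc 0 T) := fun a b ha hb =>
    Measure.restrict_mono (Ioc_subset_Ioc ha hb) le_rfl
  obtain ⟨c, hc⟩ := S.bd
  have hdu' : deriv v =ᵐ[volume.restrict (Ioc 0 T)] u1 := hdu
  have hdz' : deriv (gz W v) =ᵐ[volume.restrict (Ioc 0 T)] z1 := hdz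
  refine ⟨fun t ht => ?_, ?_, ⟨c, ?_⟩, S.u1m.ae_eq hdu'.symm, S.z1m.ae_eq hdz'.symm, ?_, ?_, ?_, ?_⟩
  · rw [hv t ht, hz t ht]; exact S.mem t ht
  · filter_upwards [hdu, hdz, S.mem1] with s h1 h2 h3
    rw [h1, h2]; exact h3
  · filter_upwards [hdu, hc] with s h1 h2
    rw [h1]; exact h2
  · intro a b ha hab hb
    rw [hv a ⟨ha, hab.trans hb⟩, hv b ⟨ha.trans hab, hb⟩, S.pu a b ha hab hb,
      intervalIntegral.integral_of_le hab, intervalIntegral.integral_of_le hab]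
    exact integral_congr_ae (by
      filter_upwards [ae_mono (hsub a b ha hb) hdu] with s h1
      exact h1.symm)
  · intro a b ha hab hb
    rw [hz a ⟨ha, hab.trans hb⟩, hz b ⟨ha.trans hab, hb⟩, S.pz a b ha hab hb,
      intervalIntegral.integral_of_le hab, intervalIntegral.integral_of_le hab]
    exact integral_congr_ae (by
      filter_upwards [ae_mono (hsub a b ha hb) hdz] with s h1
      exact h1.symm)
  · intro p hp t ht
    rw [hv t ht, hv 0 ⟨le_rfl, hT.le⟩, S.weak p hp t ht]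
    refine intervalIntegral.integral_congr fun s hs => ?_
    rw [uIcc_of_le ht.1] at hs
    have hs' : s ∈ Icc 0 T := ⟨hs.1, hs.2.trans ht.2⟩
    rw [hv s hs', hz s hs']
  · intro t ht
    rw [hv t ht, hv 0 ⟨le_rfl, hT.le⟩]
    have e1 : ∫ s in (0 : ℝ)..t, ‖gz W v s‖ ^ 2 = ∫ s in (0 : ℝ)..t, ‖z s‖ ^ 2 :=
      intervalIntegral.integral_congr fun s hs => by
        rw [uIcc_of_le ht.1] at hs
        rw [hz s ⟨hs.1, hs.2.trans ht.2⟩]
    have e2 : ∫ s in (0 : ℝ)..t, ⟪F s, gz W v s⟫_ℝ = ∫ s in (0 : ℝ)..t, ⟪F s, z s⟫_ℝ :=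
      intervalIntegral.integral_congr fun s hs => by
        rw [uIcc_of_le ht.1] at hs
        rw [hz s ⟨hs.1, hs.2.trans ht.2⟩]
    rw [e1, e2]
    exact S.energy t ht

end glue

/-- Before a first singular time the time derivative is not bounded by a small multiple of
`(τ - t)^{-3/4}`. -/
theorem rate (hit : S_iter) (hode : S_ode) (htp : S_dtp) (he1 : S_est1)
    (he2 : S_est2) (hloc : S_loc) (huni : S_uni) : ∀ c : ℝ, 0 < c → ∃ κ : ℝ, 0 < κ ∧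
    ∀ (H K : Type) [NormedAddCommGroup H] [InnerProductSpace ℝ H] [CompleteSpace H]
      [NormedAddCommGroup K] [InnerProductSpace ℝ K] [CompleteSpace K]
      (W : Submodule ℝ (H × K)) (m : H → K) (C ν T : ℝ) (F F1 : ℝ → K) (x0 g0 : H) (z0 : K)
      (v : ℝ → H) (y : ℝ → K), Frame W m C → Univ W m c →
      (∀ R : ℝ, TotallyBounded {v : H | ∃ z, (v, z) ∈ W ∧ ‖z‖ ≤ R}) →
      0 < ν → 0 < T → FH T F F1 → (x0, z0) ∈ W →
      (∀ p ∈ W, ⟪F 0 - ν • z0 + m x0, p.2⟫_ℝ = ⟪g0, p.1⟫_ℝ) →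
      H772R2.NSG.LH W m T (fun _ => ν) F x0 v y →
      (∃ (u u1 : ℝ → H) (z z1 : ℝ → K), Str W m ν T F u u1 z z1 ∧ ∀ t ∈ Icc 0 T, v t = u t) ∨
      ∃ τ ∈ Ioc 0 T, (∀ t ∈ Ioo 0 τ, Str W m ν t F v (deriv v) (gz W v) (deriv (gz W v))) ∧
        (∀ᵐ s ∂(volume.restrict (Ioo 0 τ)), y s = gz W v s) ∧
        ∀ t0 < τ, ¬ ∀ᵐ t ∂(volume.restrict (Ioo t0 τ)),
          ‖deriv v t‖ ≤ κ * ν ^ (5 / 4 : ℝ) * (τ - t) ^ (-(3 / 4) : ℝ) := by
  intro c hc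
  obtain ⟨k, hk, hcrit⟩ := dcrit hit hode htp he1 he2 hloc huni c hc
  refine ⟨Real.sqrt (k / 11), Real.sqrt_pos.2 (by positivity), ?_⟩
  intro H K _ _ _ _ _ _ W m C ν T F F1 x0 g0 z0 v y Fr Un hcomp hν hT hF h0 hg L
  rcases hcrit H K W m C ν T F F1 x0 g0 z0 v y Fr Un hcomp hν hT hF h0 hg L with hl | hr
  · exact Or.inl hl
  refine Or.inr ?_
  obtain ⟨τ, hτ, hst, hU⟩ := hr
  have hFc : ContinuousOn F (Icc 0 T) := prim_cont hF.memLp hF.prim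
  have hS : ∀ t ∈ Ioo 0 τ, Str W m ν t F v (deriv v) (gz W v) (deriv (gz W v)) := by
    intro t ht
    obtain ⟨u, u1, z, z1, hS, hvu⟩ := hst t ht
    exact glue Fr ht.1 hS hvu
  refine ⟨τ, hτ, hS, ?_, ?_⟩
  · have h1 : ∀ n : ℕ, ∃ t, t ∈ Ioo 0 τ ∧ τ - 1 / ((n : ℝ) + 1) < t := fun n => by
      have hn : (0 : ℝ) < 1 / ((n : ℝ) + 1) := by positivity
      obtain ⟨t, ht1, ht2⟩ := exists_between (max_lt (by linarith : τ - 1 / ((n : ℝ) + 1) < τ) hτ.1)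
      exact ⟨t, ⟨(le_max_right _ _).trans_lt ht1, ht2⟩, (le_max_left _ _).trans_lt ht1⟩
    choose t ht1 ht2 using h1
    have hsub : Ioo 0 τ ⊆ ⋃ n, Ioc 0 (t n) := by
      intro s hs
      obtain ⟨n, hn⟩ := exists_nat_one_div_lt (show 0 < τ - s by linarith [hs.2])
      exact mem_iUnion.2 ⟨n, hs.1, by linarith [ht2 n]⟩
    refine ae_mono (Measure.restrict_mono hsub le_rfl) ?_
    refine (ae_restrict_iUnion_iff (fun n => Ioc 0 (t n)) (fun s => y s = gz W v s)).2 ?_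
    intro n
    exact (huni H K W m C ν T (t n) F x0 v v (deriv v) y (gz W v) (deriv (gz W v)) Fr hν
      (ht1 n).1 ((ht1 n).2.le.trans hτ.2) hFc L (hS _ (ht1 n)) L.init).2
  intro t0 ht0 hcon
  set κ : ℝ := Real.sqrt (k / 11) * ν ^ (5 / 4 : ℝ) with hκ
  have hν54 : 0 < ν ^ (5 / 4 : ℝ) := Real.rpow_pos_of_pos hν _
  have hν52 : 0 < ν ^ (5 / 2 : ℝ) := Real.rpow_pos_of_pos hν _
  have hκ0 : 0 ≤ κ := by positivity
  have hκ2 : 11 * κ ^ 2 = k * ν ^ (5 / 2 : ℝ) := by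
    have e54 : (ν ^ (5 / 4 : ℝ)) ^ 2 = ν ^ (5 / 2 : ℝ) := by
      rw [← Real.rpow_natCast, ← Real.rpow_mul hν.le]
      norm_num
    rw [hκ, mul_pow, Real.sq_sqrt (by positivity), e54]; ring
  set s' := max t0 0 with hs'
  have hs'τ : s' < τ := max_lt ht0 hτ.1
  have hs'0 : 0 ≤ s' := le_max_right _ _
  have ht0s' : t0 ≤ s' := le_max_left _ _
  have hinc : ∀ a b, s' < a → a ≤ b → b < τ →
      ‖v b - v a‖ ≤ 4 * κ * ((τ - a) ^ (1 / 4 : ℝ) - (τ - b) ^ (1 / 4 : ℝ)) := by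
    intro a1 b ha1 hab hb
    have ha10 : 0 < a1 := by linarith
    have hS' := hS b ⟨by linarith, hb⟩
    refine increment hab hb (hS'.pu a1 b ha10.le hab le_rfl) ?_
    have hss : Ioc a1 b ⊆ Ioo t0 τ := fun x hx => ⟨by linarith [hx.1], hx.2.trans_lt hb⟩
    exact ae_mono (Measure.restrict_mono hss le_rfl) hcon
  obtain ⟨U, hUb⟩ := limit_state hs'τ hκ0 hinc
  have hvc : ContinuousOn v (Ioo s' τ) := by
    intro t ht
    set T' := (t + τ) / 2 with hT'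
    have hbT' : t < T' := by simp only [hT']; linarith [ht.2]
    have hT'τ : T' < τ := by simp only [hT']; linarith [ht.2]
    have ht0' : 0 < t := by linarith [ht.1]
    have hS' := hS T' ⟨by linarith, hT'τ⟩
    have huc : ContinuousOn v (Icc 0 T') := prim_cont hS'.u1m hS'.pu
    exact (huc.continuousAt (Icc_mem_nhds ht0' hbT')).continuousWithinAt
  obtain ⟨h, hh0, hh1, hh2⟩ := hU U (τ - s') (by linarith) (by linarith)
  have h3 := int_sq hκ0 hvc hUb hh0 hh1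
  rw [hκ2] at h3
  linarith

section growth

variable {H K : Type} [NormedAddCommGroup H] [InnerProductSpace ℝ H] [CompleteSpace H]
  [NormedAddCommGroup K] [InnerProductSpace ℝ K] [CompleteSpace K]
  {W : Submodule ℝ (H × K)} {m : H → K} {C ν T τ : ℝ} {F F1 : ℝ → K} {v v1 : ℝ → H}
  {z z1 : ℝ → K}

/-- a time at which `v` is differentiable -/
theorem exists_diff (hτ : 0 < τ) (hS : ∀ t ∈ Ioo 0 τ, Str W m ν t F v v1 z z1) {s : ℝ}
    (hs : s ∈ Ico 0 τ) : ∃ r ∈ Ioo s τ, HasDerivAt v (v1 r) r := by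
  have hT'0 : 0 < (s + τ) / 2 := by linarith [hs.1]
  have hT'τ : (s + τ) / 2 < τ := by linarith [hs.2]
  have k3 := hS ((s + τ) / 2) ⟨hT'0, hT'τ⟩
  have hd := ae_deriv_of_prim hT'0 (memLp_ii hT'0.le k3.u1m) k3.pu
  have hpos : volume (Ioo s ((s + τ) / 2)) ≠ 0 := by
    rw [Real.volume_Ioo]
    simp only [ne_eq, ENNReal.ofReal_eq_zero, not_le]
    linarith [hs.2]
  have hss : Ioo s ((s + τ) / 2) ⊆ Ioc 0 ((s + τ) / 2) :=
    fun x hx => ⟨hs.1.trans_lt hx.1, hx.2.le⟩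
  have h1 : ∀ᵐ x ∂(volume.restrict (Ioo s ((s + τ) / 2))), HasDerivAt v (v1 x) x :=
    ae_mono (Measure.restrict_mono hss le_rfl) hd
  rw [ae_restrict_iff' measurableSet_Ioo] at h1
  by_contra hcon
  push Not at hcon
  refine hpos (measure_mono_null (t := {x | ¬ (x ∈ Ioo s ((s + τ) / 2) →
    HasDerivAt v (v1 x) x)}) ?_ h1)
  intro x hx
  simp only [mem_setOf_eq, not_forall]
  exact ⟨hx, hcon x ⟨hx.1, hx.2.trans hT'τ⟩⟩

/-- the energy equality for the derivative between a good time and almost every later time -/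
theorem energy_ae (Fr : Frame W m C) (hm : Hom W m) (hν : 0 ≤ ν) (hτT : τ ≤ T)
    (hF : FH T F F1) (hS : ∀ t ∈ Ioo 0 τ, Str W m ν t F v v1 z z1) {r : ℝ} (hr : r ∈ Ioo 0 τ)
    (dr : HasDerivAt v (v1 r) r) :
    (∀ t ∈ Ioo r τ, IntegrableOn
      (fun s => ⟪F1 s, z1 s⟫_ℝ - ν * ‖z1 s‖ ^ 2 - ⟪m (v1 s), z s⟫_ℝ) (Ioc r t)) ∧
    ∀ᵐ t ∂(volume.restrict (Ioo r τ)), ‖v1 t‖ ^ 2 = ‖v1 r‖ ^ 2
      + 2 * ∫ s in r..t, (⟪F1 s, z1 s⟫_ℝ - ν * ‖z1 s‖ ^ 2 - ⟪m (v1 s), z s⟫_ℝ) := by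
  have hFH : ∀ T' ≤ T, FH T' F F1 := fun T' hT' =>
    ⟨hF.memLp.mono_measure (Measure.restrict_mono (Ioc_subset_Ioc_right hT') le_rfl),
      fun a b ha hab hb => hF.prim a b ha hab (hb.trans hT')⟩
  -- differentiability almost everywhere
  have hdiff : ∀ᵐ t ∂(volume.restrict (Ioo r τ)), HasDerivAt v (v1 t) t := by
    have h1 : ∀ n : ℕ, ∃ t, t ∈ Ioo 0 τ ∧ τ - 1 / ((n : ℝ) + 1) < t := fun n => by
      have hn : (0 : ℝ) < 1 / ((n : ℝ) + 1) := by positivity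
      obtain ⟨t, ht1, ht2⟩ := exists_between
        (max_lt (by linarith : τ - 1 / ((n : ℝ) + 1) < τ) (hr.1.trans hr.2))
      exact ⟨t, ⟨(le_max_right _ _).trans_lt ht1, ht2⟩, (le_max_left _ _).trans_lt ht1⟩
    choose t ht1 ht2 using h1
    have hsub : Ioo r τ ⊆ ⋃ n, Ioc 0 (t n) := by
      intro s hs
      obtain ⟨n, hn⟩ := exists_nat_one_div_lt (show 0 < τ - s by linarith [hs.2])
      exact mem_iUnion.2 ⟨n, hr.1.trans hs.1, by linarith [ht2 n]⟩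
    refine ae_mono (Measure.restrict_mono hsub le_rfl) ?_
    refine (ae_restrict_iUnion_iff (fun n => Ioc 0 (t n)) (fun s => HasDerivAt v (v1 s) s)).2 ?_
    intro n
    have S := hS _ (ht1 n)
    exact ae_deriv_of_prim (ht1 n).1 (memLp_ii (ht1 n).1.le S.u1m) S.pu
  -- the energy equality up to a time `t` at which there is a derivative `b`
  have key : ∀ t ∈ Ioo r τ, ∀ b, HasDerivAt v b t → IntegrableOn
      (fun s => ⟪F1 s, z1 s⟫_ℝ - ν * ‖z1 s‖ ^ 2 - ⟪m (v1 s), z s⟫_ℝ) (Ioc r t) ∧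
      ‖b‖ ^ 2 - ‖v1 r‖ ^ 2
        = 2 * ∫ s in r..t, (⟪F1 s, z1 s⟫_ℝ - ν * ‖z1 s‖ ^ 2 - ⟪m (v1 s), z s⟫_ℝ) := by
    intro t ht b hb
    have hT'0 : 0 < (t + τ) / 2 := by linarith [hr.1, ht.1, ht.2]
    have hT'τ : (t + τ) / 2 < τ := by linarith [ht.2]
    exact en_a Fr hm hν hT'0 (hFH _ (hT'τ.le.trans hτT)) (hS _ ⟨hT'0, hT'τ⟩) hr.1.le ht.1
      (by linarith [ht.2]) dr hb
  refine ⟨fun t ht => ?_, ?_⟩
  · obtain ⟨t', ht', hd'⟩ := exists_diff (hr.1.trans hr.2) hS ⟨(hr.1.trans ht.1).le, ht.2⟩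
    exact (key t' ⟨ht.1.trans ht'.1, ht'.2⟩ _ hd').1.mono_set (Ioc_subset_Ioc_right ht'.1.le)
  · filter_upwards [hdiff, ae_restrict_mem measurableSet_Ioo] with t hd ht
    have := (key t ht _ hd).2
    linarith

/-- the bound of the derivative in terms of `∫ X²` -/
theorem bound_X (Fr : Frame W m C) (hm : Hom W m) (hν : 0 < ν) (hτT : τ ≤ T)
    (hF : FH T F F1) (hS : ∀ t ∈ Ioo 0 τ, Str W m ν t F v v1 z z1) {r : ℝ} (hr : r ∈ Ioo 0 τ)
    (dr : HasDerivAt v (v1 r) r) {X : ℝ → ℝ}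
    (hXi : ∀ t ∈ Ioo r τ, IntegrableOn (fun t => X t ^ 2) (Ioc r t))
    (hX : ∀ᵐ t ∂(volume.restrict (Ioo r τ)), -⟪m (v1 t), z t⟫_ℝ ≤ ‖z1 t‖ * X t) :
    ∀ᵐ t ∂(volume.restrict (Ioo r τ)), ‖v1 t‖ ^ 2 ≤ ‖v1 r‖ ^ 2
      + (∫ s in (0 : ℝ)..T, ‖F1 s‖ ^ 2) / ν + (∫ s in r..t, X s ^ 2) / ν := by
  obtain ⟨hi, he⟩ := energy_ae Fr hm hν.le hτT hF hS hr dr
  have hF2 : Integrable (fun s => ‖F1 s‖ ^ 2) (volume.restrict (Ioc 0 T)) :=
    (memLp_two_iff_integrable_sq_norm hF.memLp.aestronglyMeasurable).mp hF.memLp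
  filter_upwards [he, ae_restrict_mem measurableSet_Ioo] with t ht htI
  have htT : t ≤ T := htI.2.le.trans hτT
  have hFi : IntegrableOn (fun s => ‖F1 s‖ ^ 2) (Ioc r t) :=
    hF2.mono_measure (Measure.restrict_mono (Ioc_subset_Ioc hr.1.le htT) le_rfl)
  have h1 : ∫ s in Ioc r t, (⟪F1 s, z1 s⟫_ℝ - ν * ‖z1 s‖ ^ 2 - ⟪m (v1 s), z s⟫_ℝ)
      ≤ ∫ s in Ioc r t, (‖F1 s‖ ^ 2 / (2 * ν) + X s ^ 2 / (2 * ν)) := by
    refine integral_mono_ae (hi t htI) ((hFi.div_const _).add ((hXi t htI).div_const _)) ?_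
    have hss : Ioc r t ⊆ Ioo r τ := fun x hx => ⟨hx.1, hx.2.trans_lt htI.2⟩
    filter_upwards [ae_mono (Measure.restrict_mono hss le_rfl) hX] with s hs
    have k1 : ⟪F1 s, z1 s⟫_ℝ ≤ ‖F1 s‖ * ‖z1 s‖ := real_inner_le_norm _ _
    have k2 : ‖F1 s‖ * ‖z1 s‖ ≤ ν / 2 * ‖z1 s‖ ^ 2 + ‖F1 s‖ ^ 2 / (2 * ν) := by
      have : 0 ≤ (ν * ‖z1 s‖ - ‖F1 s‖) ^ 2 / (2 * ν) := by positivity
      have e : (ν * ‖z1 s‖ - ‖F1 s‖) ^ 2 / (2 * ν)
          = ν / 2 * ‖z1 s‖ ^ 2 - ‖F1 s‖ * ‖z1 s‖ + ‖F1 s‖ ^ 2 / (2 * ν) := by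
        field_simp; ring
      linarith
    have k3 : ‖z1 s‖ * X s ≤ ν / 2 * ‖z1 s‖ ^ 2 + X s ^ 2 / (2 * ν) := by
      have : 0 ≤ (ν * ‖z1 s‖ - X s) ^ 2 / (2 * ν) := by positivity
      have e : (ν * ‖z1 s‖ - X s) ^ 2 / (2 * ν)
          = ν / 2 * ‖z1 s‖ ^ 2 - ‖z1 s‖ * X s + X s ^ 2 / (2 * ν) := by
        field_simp; ring
      linarith
    linarith
  rw [integral_add (hFi.div_const _) ((hXi t htI).div_const _), integral_div, integral_div] at h1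
  rw [ht, intervalIntegral.integral_of_le htI.1.le, intervalIntegral.integral_of_le htI.1.le,
    intervalIntegral.integral_of_le (by linarith [hr.1, htI.1] : (0 : ℝ) ≤ T)]
  have h2 : ∫ s in Ioc r t, ‖F1 s‖ ^ 2 ≤ ∫ s in Ioc 0 T, ‖F1 s‖ ^ 2 :=
    setIntegral_mono_set hF2 (Eventually.of_forall fun s => by positivity)
      (Ioc_subset_Ioc hr.1.le htT).eventuallyLE
  have h3 : (∫ s in Ioc r t, ‖F1 s‖ ^ 2) / ν ≤ (∫ s in Ioc 0 T, ‖F1 s‖ ^ 2) / ν := by gcongr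
  have e1 : 2 * ((∫ s in Ioc r t, ‖F1 s‖ ^ 2) / (2 * ν) + (∫ s in Ioc r t, X s ^ 2) / (2 * ν))
      = (∫ s in Ioc r t, ‖F1 s‖ ^ 2) / ν + (∫ s in Ioc r t, X s ^ 2) / ν := by
    field_simp
  linarith

/-- the bound of the derivative in terms of `∫ Λ` -/
theorem bound_Λ (Fr : Frame W m C) (hm : Hom W m) (hν : 0 < ν) (hτT : τ ≤ T)
    (hF : FH T F F1) (hS : ∀ t ∈ Ioo 0 τ, Str W m ν t F v v1 z z1) {r : ℝ} (hr : r ∈ Ioo 0 τ)
    (dr : HasDerivAt v (v1 r) r) {δ : ℝ} (hδ : 0 < δ) {Λ : ℝ → ℝ} (hΛ0 : ∀ t, 0 ≤ Λ t)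
    (hΛi : ∀ t ∈ Ioo r τ, IntegrableOn Λ (Ioc r t))
    (hΛ : ∀ᵐ t ∂(volume.restrict (Ioo r τ)),
      -⟪m (v1 t), z t⟫_ℝ ≤ (1 - δ) * ν * ‖z1 t‖ ^ 2 + Λ t * ‖v1 t‖ ^ 2) :
    ∀ᵐ t ∂(volume.restrict (Ioo r τ)), ‖v1 t‖ ^ 2 ≤ (‖v1 r‖ ^ 2
      + (∫ s in (0 : ℝ)..T, ‖F1 s‖ ^ 2) / (2 * δ * ν)) * Real.exp (2 * ∫ s in r..t, Λ s) := by
  obtain ⟨hi, he⟩ := energy_ae Fr hm hν.le hτT hF hS hr dr
  have hF2 : Integrable (fun s => ‖F1 s‖ ^ 2) (volume.restrict (Ioc 0 T)) :=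
    (memLp_two_iff_integrable_sq_norm hF.memLp.aestronglyMeasurable).mp hF.memLp
  set f : ℝ → ℝ := fun s => ⟪F1 s, z1 s⟫_ℝ - ν * ‖z1 s‖ ^ 2 - ⟪m (v1 s), z s⟫_ℝ with hf
  set k : ℝ := ‖v1 r‖ ^ 2 + (∫ s in (0 : ℝ)..T, ‖F1 s‖ ^ 2) / (2 * δ * ν) with hk
  set Y : ℝ → ℝ := fun t => ‖v1 r‖ ^ 2 + 2 * ∫ s in r..t, f s with hY
  filter_upwards [he, ae_restrict_mem measurableSet_Ioo] with t ht htI
  have htT : t ≤ T := htI.2.le.trans hτT
  have hrt : r ≤ t := htI.1.le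
  rw [ht]
  -- continuity of `Y`
  have hYc : ContinuousOn Y (Icc r t) := by
    have h1 : IntegrableOn f (uIcc r t) volume := by
      rw [uIcc_of_le hrt, integrableOn_Icc_iff_integrableOn_Ioc]
      exact hi t htI
    have h2 := intervalIntegral.continuousOn_primitive_interval h1
    rw [uIcc_of_le hrt] at h2
    exact continuousOn_const.add (continuousOn_const.mul h2)
  have hΛii : IntervalIntegrable (fun s => 2 * Λ s) volume r t := by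
    rw [intervalIntegrable_iff_integrableOn_Ioc_of_le hrt]
    exact (hΛi t htI).const_mul 2
  have hYv : ∀ x ∈ Icc r t, ∀ᵐ s ∂(volume.restrict (Ioc r x)), ‖v1 s‖ ^ 2 = Y s := by
    intro x hx
    have hss : Ioc r x ⊆ Ioo r τ := fun s hs => ⟨hs.1, (hs.2.trans hx.2).trans_lt htI.2⟩
    exact ae_mono (Measure.restrict_mono hss le_rfl) he
  have hineq : ∀ x ∈ Icc r t, Y x ≤ k + ∫ s in r..x, 2 * Λ s * Y s := by
    intro x hx
    have hss : Ioc r x ⊆ Ioo r τ := fun s hs => ⟨hs.1, (hs.2.trans hx.2).trans_lt htI.2⟩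
    have hsst : Ioc r x ⊆ Ioc r t := Ioc_subset_Ioc_right hx.2
    have hFi : IntegrableOn (fun s => ‖F1 s‖ ^ 2) (Ioc r x) :=
      hF2.mono_measure (Measure.restrict_mono (Ioc_subset_Ioc hr.1.le (hx.2.trans htT)) le_rfl)
    have hΛY : IntegrableOn (fun s => 2 * Λ s * Y s) (Ioc r x) := by
      have h1 : IntervalIntegrable (fun s => 2 * Λ s * Y s) volume r t := by
        refine hΛii.mul_continuousOn ?_
        rwa [uIcc_of_le hrt]
      rw [intervalIntegrable_iff_integrableOn_Ioc_of_le hrt] at h1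
      exact h1.mono_set hsst
    have h1 : ∫ s in Ioc r x, 2 * f s
        ≤ ∫ s in Ioc r x, (‖F1 s‖ ^ 2 / (2 * δ * ν) + 2 * Λ s * Y s) := by
      refine integral_mono_ae (((hi t htI).mono_set hsst).const_mul 2)
        ((hFi.div_const _).add hΛY) ?_
      filter_upwards [ae_mono (Measure.restrict_mono hss le_rfl) hΛ, hYv x hx] with s hs hs2
      have k1 : ⟪F1 s, z1 s⟫_ℝ ≤ ‖F1 s‖ * ‖z1 s‖ := real_inner_le_norm _ _
      have k2 : 2 * (‖F1 s‖ * ‖z1 s‖) ≤ 2 * (δ * ν * ‖z1 s‖ ^ 2) + ‖F1 s‖ ^ 2 / (2 * δ * ν) := by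
        have : 0 ≤ (2 * δ * ν * ‖z1 s‖ - ‖F1 s‖) ^ 2 / (2 * δ * ν) := by positivity
        have e : (2 * δ * ν * ‖z1 s‖ - ‖F1 s‖) ^ 2 / (2 * δ * ν)
            = 2 * (δ * ν * ‖z1 s‖ ^ 2) - 2 * (‖F1 s‖ * ‖z1 s‖) + ‖F1 s‖ ^ 2 / (2 * δ * ν) := by
          field_simp; ring
        linarith
      simp only [hf]
      rw [← hs2]
      nlinarith
    rw [integral_const_mul, integral_add (hFi.div_const _) hΛY, integral_div] at h1
    have h2 : ∫ s in Ioc r x, ‖F1 s‖ ^ 2 ≤ ∫ s in Ioc 0 T, ‖F1 s‖ ^ 2 :=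
      setIntegral_mono_set hF2 (Eventually.of_forall fun s => by positivity)
        (Ioc_subset_Ioc hr.1.le (hx.2.trans htT)).eventuallyLE
    have h3 : (∫ s in Ioc r x, ‖F1 s‖ ^ 2) / (2 * δ * ν)
        ≤ (∫ s in Ioc 0 T, ‖F1 s‖ ^ 2) / (2 * δ * ν) := by gcongr
    rw [hY, hk]
    simp only
    rw [intervalIntegral.integral_of_le hx.1, intervalIntegral.integral_of_le hx.1,
      intervalIntegral.integral_of_le (by linarith [hr.1, htI.1] : (0 : ℝ) ≤ T)]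
    linarith
  have := gronL1 hrt hYc hΛii (fun s => by have := hΛ0 s; positivity) hineq
  rw [intervalIntegral.integral_const_mul] at this
  exact this

end growth

end Pool.Agent.Y303.RA
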