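import Pool.Agent.Y303.RA.EnA0
import Pool.Agent.Y303.RA.Rate

/-!
A continuation principle for strong solutions.
-/

set_option autoImplicit false
set_option linter.unusedSectionVars false

open MeasureTheory Set Filter Topology
open scoped InnerProductSpace

namespace Pool.Agent.Y303.RA

open Pool.Agent.W795.TQ
open Pool.Agent.W918.ES (gronL1)
open H772R2.NSR (Frame prim_cont memLp_ii ae_deriv_of_prim)
open H772R2.NSG (ii_of_int)

variable {H K : Type} [NormedAddCommGroup H] [InnerProductSpace ℝ H] [CompleteSpace H]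
  [NormedAddCommGroup K] [InnerProductSpace ℝ K] [CompleteSpace K]
  {W : Submodule ℝ (H × K)} {m : H → K} {C ν T τ : ℝ} {F F1 : ℝ → K} {v v1 : ℝ → H}
  {z z1 : ℝ → K}

theorem diff_ae (hτ : 0 < τ) (hS : ∀ t ∈ Ioo 0 τ, Str W m ν t F v v1 z z1) :
    ∀ᵐ t ∂(volume.restrict (Ioo 0 τ)), HasDerivAt v (v1 t) t := by
  have h1 : ∀ n : ℕ, ∃ t, t ∈ Ioo 0 τ ∧ τ - 1 / ((n : ℝ) + 1) < t := fun n => by
    have hn : (0 : ℝ) < 1 / ((n : ℝ) + 1) := by positivity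
    obtain ⟨t, ht1, ht2⟩ := exists_between
      (max_lt (by linarith : τ - 1 / ((n : ℝ) + 1) < τ) hτ)
    exact ⟨t, ⟨(le_max_right _ _).trans_lt ht1, ht2⟩, (le_max_left _ _).trans_lt ht1⟩
  choose t ht1 ht2 using h1
  have hsub : Ioo 0 τ ⊆ ⋃ n, Ioc 0 (t n) := by
    intro s hs
    obtain ⟨n, hn⟩ := exists_nat_one_div_lt (show 0 < τ - s by linarith [hs.2])
    exact mem_iUnion.2 ⟨n, hs.1, by linarith [ht2 n]⟩
  refine ae_mono (Measure.restrict_mono hsub le_rfl) ?_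
  refine (ae_restrict_iUnion_iff (fun n => Ioc 0 (t n)) (fun s => HasDerivAt v (v1 s) s)).2 ?_
  intro n
  have S := hS _ (ht1 n)
  exact ae_deriv_of_prim (ht1 n).1 (memLp_ii (ht1 n).1.le S.u1m) S.pu

/-- **Continuation principle.** -/
theorem boot (Fr : Frame W m C) (hm : Hom W m) (hν : 0 < ν) (hτ : 0 < τ) (hτT : τ ≤ T)
    (hF : FH T F F1) (hS : ∀ t ∈ Ioo 0 τ, Str W m ν t F v v1 z z1) {g0 : H}
    (hg : ∀ p ∈ W, ⟪F 0 - ν • z 0 + m (v 0), p.2⟫_ℝ = ⟪g0, p.1⟫_ℝ)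
    {δ L Y : ℝ} (hδ : 0 < δ) (hL : 0 ≤ L) (hY0 : 0 ≤ Y)
    (hY : (16 * ‖g0‖ ^ 2 + (∫ s in (0 : ℝ)..T, ‖F1 s‖ ^ 2) / (2 * δ * ν)) * Real.exp (2 * L)
      < Y ^ 2)
    (hyp : ∀ t ∈ Ioo 0 τ, (∀ᵐ s ∂(volume.restrict (Ioc 0 t)), ‖v1 s‖ ≤ Y) →
      ∃ Λ : ℝ → ℝ, (∀ s, 0 ≤ Λ s) ∧ IntegrableOn Λ (Ioc 0 t) ∧ (∫ s in (0 : ℝ)..t, Λ s) ≤ L ∧
        ∀ᵐ s ∂(volume.restrict (Ioc 0 t)),
          -⟪m (v1 s), z s⟫_ℝ ≤ (1 - δ) * ν * ‖z1 s‖ ^ 2 + Λ s * ‖v1 s‖ ^ 2) :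
    ∀ᵐ t ∂(volume.restrict (Ioo 0 τ)), ‖v1 t‖ ≤ Y := by
  have hF2 : Integrable (fun s => ‖F1 s‖ ^ 2) (volume.restrict (Ioc 0 T)) :=
    (memLp_two_iff_integrable_sq_norm hF.memLp.aestronglyMeasurable).mp hF.memLp
  have hFH : ∀ T' ≤ T, FH T' F F1 := fun T' hT' =>
    ⟨hF.memLp.mono_measure (Measure.restrict_mono (Ioc_subset_Ioc_right hT') le_rfl),
      fun a b ha hab hb => hF.prim a b ha hab (hb.trans hT')⟩
  have hdiff := diff_ae hτ hS
  set f : ℝ → ℝ := fun s => ⟪F1 s, z1 s⟫_ℝ - ν * ‖z1 s‖ ^ 2 - ⟪m (v1 s), z s⟫_ℝ with hf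
  set k : ℝ := 16 * ‖g0‖ ^ 2 + (∫ s in (0 : ℝ)..T, ‖F1 s‖ ^ 2) / (2 * δ * ν) with hk
  set Z : ℝ → ℝ := fun t => 16 * ‖g0‖ ^ 2 + 2 * ∫ s in (0 : ℝ)..t, f s with hZ
  have hI0 : 0 ≤ ∫ s in (0 : ℝ)..T, ‖F1 s‖ ^ 2 :=
    intervalIntegral.integral_nonneg (by linarith) fun s _ => by positivity
  have hk0 : 0 ≤ k := by positivity
  have key : ∀ t ∈ Ioo 0 τ, ∀ b, HasDerivAt v b t → IntegrableOn f (Ioc 0 t) ∧
      ‖b‖ ^ 2 ≤ Z t := by
    intro t ht b hb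
    have hT'0 : 0 < (t + τ) / 2 := by linarith [ht.1, ht.2]
    have hT'τ : (t + τ) / 2 < τ := by linarith [ht.2]
    exact en_a0 Fr hm hν hT'0 (hFH _ (hT'τ.le.trans hτT)) (hS _ ⟨hT'0, hT'τ⟩) hg ht.1
      (by linarith [ht.2]) hb
  have hi : ∀ t ∈ Ioo 0 τ, IntegrableOn f (Ioc 0 t) := by
    intro t ht
    obtain ⟨t', ht', hd'⟩ := exists_diff hτ hS ⟨ht.1.le, ht.2⟩
    exact (key t' ⟨ht.1.trans ht'.1, ht'.2⟩ _ hd').1.mono_set (Ioc_subset_Ioc_right ht'.1.le)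
  have he : ∀ᵐ t ∂(volume.restrict (Ioo 0 τ)), ‖v1 t‖ ^ 2 ≤ Z t := by
    filter_upwards [hdiff, ae_restrict_mem measurableSet_Ioo] with t hd ht
    exact (key t ht _ hd).2
  have hZc : ∀ t ∈ Ioo 0 τ, ContinuousOn Z (Icc 0 t) := by
    intro t ht
    have h1 : IntegrableOn f (uIcc 0 t) volume := by
      rw [uIcc_of_le ht.1.le, integrableOn_Icc_iff_integrableOn_Ioc]
      exact hi t ht
    have h2 := intervalIntegral.continuousOn_primitive_interval h1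
    rw [uIcc_of_le ht.1.le] at h2
    exact continuousOn_const.add (continuousOn_const.mul h2)
  have hZ0 : Z 0 < Y ^ 2 := by
    have h1 : Z 0 = 16 * ‖g0‖ ^ 2 := by simp [hZ]
    have h2 : 1 ≤ Real.exp (2 * L) := Real.one_le_exp (by linarith)
    have h3 : 16 * ‖g0‖ ^ 2 ≤ k := by
      rw [hk]
      have : 0 ≤ (∫ s in (0 : ℝ)..T, ‖F1 s‖ ^ 2) / (2 * δ * ν) := by positivity
      linarith
    have h4 : k * 1 ≤ k * Real.exp (2 * L) := mul_le_mul_of_nonneg_left h2 hk0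
    linarith
  -- the claim
  have claim : ∀ t ∈ Ioo 0 τ, Z t < Y ^ 2 := by
    intro t1 ht1
    by_contra hcon
    rw [not_lt] at hcon
    have hc1 := hZc t1 ht1
    set S : Set ℝ := Icc 0 t1 ∩ Z ⁻¹' (Ici (Y ^ 2)) with hSdef
    have hSc : IsCompact S :=
      isCompact_Icc.of_isClosed_subset (hc1.preimage_isClosed_of_isClosed isClosed_Icc isClosed_Ici)
        inter_subset_left
    have hSne : S.Nonempty := ⟨t1, ⟨ht1.1.le, le_rfl⟩, hcon⟩
    have hmem := hSc.sInf_mem hSne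
    set t := sInf S with ht
    have htZ : Y ^ 2 ≤ Z t := hmem.2
    have ht0 : 0 < t := by
      rcases eq_or_lt_of_le hmem.1.1 with h | h
      · rw [← h] at htZ
        exact absurd htZ (not_le.2 hZ0)
      · exact h
    have htτ : t ∈ Ioo 0 τ := ⟨ht0, hmem.1.2.trans_lt ht1.2⟩
    have hlt : ∀ x ∈ Ico 0 t, Z x < Y ^ 2 := by
      intro x hx
      by_contra h
      rw [not_lt] at h
      have : x ∈ S := ⟨⟨hx.1, hx.2.le.trans hmem.1.2⟩, h⟩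
      exact absurd (csInf_le hSc.bddBelow this) (not_le.2 hx.2)
    have hne : ∀ᵐ s ∂(volume.restrict (Ioc 0 t)), s ≠ t := by
      refine ae_restrict_of_ae ?_
      simp [ae_iff, measure_singleton]
    have hss : Ioc 0 t ⊆ Ioo 0 τ := fun x hx => ⟨hx.1, hx.2.trans_lt htτ.2⟩
    have hb : ∀ᵐ s ∂(volume.restrict (Ioc 0 t)), ‖v1 s‖ ≤ Y := by
      filter_upwards [ae_mono (Measure.restrict_mono hss le_rfl) he, hne,
        ae_restrict_mem measurableSet_Ioc] with s h1 h2 h3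
      have h4 := hlt s ⟨h3.1.le, lt_of_le_of_ne h3.2 h2⟩
      exact (pow_le_pow_iff_left₀ (norm_nonneg _) hY0 (by norm_num)).mp (h1.trans h4.le)
    obtain ⟨Λ, hΛ0, hΛi, hΛL, hΛ⟩ := hyp t htτ hb
    have hΛii : IntervalIntegrable (fun s => 2 * Λ s) volume 0 t := by
      rw [intervalIntegrable_iff_integrableOn_Ioc_of_le ht0.le]
      exact hΛi.const_mul 2
    have hineq : ∀ x ∈ Icc 0 t, Z x ≤ k + ∫ s in (0 : ℝ)..x, 2 * Λ s * Z s := by
      intro x hx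
      have hsst : Ioc 0 x ⊆ Ioc 0 t := Ioc_subset_Ioc_right hx.2
      have htT : t ≤ T := htτ.2.le.trans hτT
      have hFi : IntegrableOn (fun s => ‖F1 s‖ ^ 2) (Ioc 0 x) :=
        hF2.mono_measure (Measure.restrict_mono (Ioc_subset_Ioc le_rfl (hx.2.trans htT)) le_rfl)
      have hΛZ : IntegrableOn (fun s => 2 * Λ s * Z s) (Ioc 0 x) := by
        have h1 : IntervalIntegrable (fun s => 2 * Λ s * Z s) volume 0 t := by
          refine hΛii.mul_continuousOn ?_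
          rw [uIcc_of_le ht0.le]
          exact hZc t htτ
        rw [intervalIntegrable_iff_integrableOn_Ioc_of_le ht0.le] at h1
        exact h1.mono_set hsst
      have h1 : ∫ s in Ioc 0 x, 2 * f s
          ≤ ∫ s in Ioc 0 x, (‖F1 s‖ ^ 2 / (2 * δ * ν) + 2 * Λ s * Z s) := by
        refine integral_mono_ae (((hi t htτ).mono_set hsst).const_mul 2)
          ((hFi.div_const _).add hΛZ) ?_
        filter_upwards [ae_mono (Measure.restrict_mono hsst le_rfl) hΛ,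
          ae_mono (Measure.restrict_mono (hsst.trans hss) le_rfl) he] with s hs hs2
        have k1 : ⟪F1 s, z1 s⟫_ℝ ≤ ‖F1 s‖ * ‖z1 s‖ := real_inner_le_norm _ _
        have k2 : 2 * (‖F1 s‖ * ‖z1 s‖) ≤ 2 * (δ * ν * ‖z1 s‖ ^ 2) + ‖F1 s‖ ^ 2 / (2 * δ * ν) := by
          have : 0 ≤ (2 * δ * ν * ‖z1 s‖ - ‖F1 s‖) ^ 2 / (2 * δ * ν) := by positivity
          have e : (2 * δ * ν * ‖z1 s‖ - ‖F1 s‖) ^ 2 / (2 * δ * ν)
              = 2 * (δ * ν * ‖z1 s‖ ^ 2) - 2 * (‖F1 s‖ * ‖z1 s‖) + ‖F1 s‖ ^ 2 / (2 * δ * ν) := by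
            field_simp; ring
          linarith
        have k3 : Λ s * ‖v1 s‖ ^ 2 ≤ Λ s * Z s := mul_le_mul_of_nonneg_left hs2 (hΛ0 s)
        simp only [hf]
        nlinarith
      rw [integral_const_mul, integral_add (hFi.div_const _) hΛZ, integral_div] at h1
      have h2 : ∫ s in Ioc 0 x, ‖F1 s‖ ^ 2 ≤ ∫ s in Ioc 0 T, ‖F1 s‖ ^ 2 :=
        setIntegral_mono_set hF2 (Eventually.of_forall fun s => by positivity)
          (Ioc_subset_Ioc le_rfl (hx.2.trans htT)).eventuallyLE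
      have h3 : (∫ s in Ioc 0 x, ‖F1 s‖ ^ 2) / (2 * δ * ν)
          ≤ (∫ s in Ioc 0 T, ‖F1 s‖ ^ 2) / (2 * δ * ν) := by gcongr
      rw [hZ, hk]
      simp only
      rw [intervalIntegral.integral_of_le hx.1, intervalIntegral.integral_of_le hx.1,
        intervalIntegral.integral_of_le (by linarith : (0 : ℝ) ≤ T)]
      linarith
    have hg1 := gronL1 ht0.le (hZc t htτ) hΛii (fun s => by have := hΛ0 s; positivity) hineq
    rw [intervalIntegral.integral_const_mul] at hg1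
    have h5 : k * Real.exp (2 * ∫ s in (0 : ℝ)..t, Λ s) ≤ k * Real.exp (2 * L) :=
      mul_le_mul_of_nonneg_left (Real.exp_le_exp.2 (by linarith)) hk0
    linarith
  filter_upwards [he, ae_restrict_mem measurableSet_Ioo] with t h1 h2
  exact (pow_le_pow_iff_left₀ (norm_nonneg _) hY0 (by norm_num)).mp (h1.trans (claim t h2).le)

/-- a bounded time derivative contradicts the rate at a first singular time -/
theorem no_bd {κ : ℝ} (hτ : 0 < τ) (hκ : 0 < κ)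
    (hrate : ∀ t0 < τ, ¬ ∀ᵐ t ∂(volume.restrict (Ioo t0 τ)),
      ‖v1 t‖ ≤ κ * (τ - t) ^ (-(3 / 4) : ℝ)) {Y : ℝ}
    (hb : ∀ᵐ t ∂(volume.restrict (Ioo 0 τ)), ‖v1 t‖ ≤ Y) : False := by
  -- near `τ` the right-hand side exceeds `Y`
  set Y' : ℝ := max Y κ with hY'
  have hY'0 : 0 < Y' := hκ.trans_le (le_max_right _ _)
  set ε : ℝ := (κ / Y') ^ (4 / 3 : ℝ) with hε
  have hε0 : 0 < ε := by positivity
  refine hrate (max 0 (τ - ε)) (max_lt hτ (by linarith)) ?_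
  have hss : Ioo (max 0 (τ - ε)) τ ⊆ Ioo 0 τ := Ioo_subset_Ioo_left (le_max_left _ _)
  filter_upwards [ae_mono (Measure.restrict_mono hss le_rfl) hb,
    ae_restrict_mem measurableSet_Ioo] with t h1 h2
  have hp : 0 < τ - t := by linarith [h2.2]
  have hpε : τ - t ≤ ε := by
    have := (le_max_right _ _).trans_lt h2.1
    linarith
  have h3 : (τ - t) ^ (3 / 4 : ℝ) ≤ κ / Y' := by
    calc (τ - t) ^ (3 / 4 : ℝ) ≤ ε ^ (3 / 4 : ℝ) := Real.rpow_le_rpow hp.le hpε (by norm_num)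
      _ = κ / Y' := by
          rw [hε, ← Real.rpow_mul (by positivity)]
          norm_num
  have h4 : 0 < (τ - t) ^ (3 / 4 : ℝ) := Real.rpow_pos_of_pos hp _
  rw [Real.rpow_neg hp.le, ← div_eq_mul_inv, le_div_iff₀ h4]
  calc ‖v1 t‖ * (τ - t) ^ (3 / 4 : ℝ) ≤ Y' * (κ / Y') := by
        have : ‖v1 t‖ ≤ Y' := h1.trans (le_max_left _ _)
        gcongr
    _ = κ := by field_simp

end Pool.Agent.Y303.RA
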