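import Pool.Agent.TH301.EQ.Key

/-!
The trilinear form and the vector product: `|∫ a·(a·∇)u| ≤ ‖∇a‖ ‖u × a‖` on `H¹_{0,σ}`.
-/

set_option autoImplicit false
set_option linter.unusedSectionVars false

open MeasureTheory Set Filter Topology
open scoped InnerProductSpace ENNReal ContDiff NNReal

namespace Pool.Agent.Y303.RA

open H772R2.NS Pool.Agent.TH301.EQ

/-- transposition of matrices -/
noncomputable def trn : M3 →L[ℝ] M3 := LinearMap.toContinuousLinearMap
  { toFun := fun z => WithLp.toLp 2 fun p => z (p.2, p.1)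
    map_add' := fun a b => by ext p; simp
    map_smul' := fun a b => by ext p; simp }

theorem trn_apply (z : M3) (p : Fin 3 × Fin 3) : trn z p = z (p.2, p.1) := rfl

theorem trn_trn (z : M3) : trn (trn z) = z := by ext p; simp [trn_apply]

theorem inner_trn (a b : M3) : ⟪trn a, b⟫_ℝ = ⟪a, trn b⟫_ℝ := by
  rw [inner_M3, inner_M3, Finset.sum_comm]
  refine Finset.sum_congr rfl fun i _ => Finset.sum_congr rfl fun j _ => ?_
  simp only [trn_apply]

theorem trn_alt (v w : E3) : trn (alt v w) = -alt v w := by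
  ext p
  simp only [trn_apply, alt_apply, PiLp.neg_apply]
  ring

section test

variable {Ω : Set E3} {φ : E3 → E3}

/-- the pure second derivatives commute -/
theorem snd_comm {g : E3 → ℝ} (hg : ContDiff ℝ ∞ g) (x v w : E3) :
    fderiv ℝ (fun y => fderiv ℝ g y v) x w = fderiv ℝ (fun y => fderiv ℝ g y w) x v := by
  have hd : DifferentiableAt ℝ (fderiv ℝ g) x :=
    (hg.fderiv_right (m := ∞) (by simp)).differentiable (by simp) x
  have h1 : ∀ v w : E3, fderiv ℝ (fun y => fderiv ℝ g y v) x w = fderiv ℝ (fderiv ℝ g) x w v := by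
    intro v w
    rw [fderiv_clm_apply hd (differentiableAt_const v)]
    simp
  rw [h1, h1]
  have hs : IsSymmSndFDerivAt ℝ g x :=
    (hg.contDiffAt (x := x)).isSymmSndFDerivAt (by
      rw [minSmoothness_of_isRCLikeNormedField]
      exact ENat.LEInfty.out)
  exact hs.eq w v

theorem test_trn (h : IsTest Ω φ) : ∫ x, ⟪trn (jac φ x), jac φ x⟫_ℝ = 0 := by
  set g : Fin 3 → E3 → ℝ := fun i x => φ x i with hg
  have hgs : ∀ i, ContDiff ℝ ∞ (g i) := fun i => contDiff_coord h.smooth i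
  have hgc : ∀ i, HasCompactSupport (g i) := fun i => hasCompactSupport_coord h.compact i
  set J : Fin 3 → Fin 3 → E3 → ℝ := fun i j x => fderiv ℝ (g i) x (ev j) with hJ
  have hJs : ∀ i j, ContDiff ℝ ∞ (J i j) := fun i j =>
    ((hgs i).fderiv_right (m := ∞) (by simp)).clm_apply contDiff_const
  have hJc : ∀ i j, HasCompactSupport (J i j) := fun i j =>
    (hgc i).fderiv_apply ℝ (ev j)
  have hjac : ∀ x i j, jac φ x (i, j) = J i j x := by
    intro x i j
    rw [hJ, hg]
    simp only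
    rw [fderiv_coord h.smooth, jac_apply]
  have hdJ : ∀ i j k, Continuous (fun x => fderiv ℝ (J i j) x (ev k)) := fun i j k =>
    ((hJs i j).continuous_fderiv (by simp)).clm_apply continuous_const
  have hibp : ∀ i j, ∫ x, J j i x * J i j x = - ∫ x, fderiv ℝ (J j i) x (ev j) * g i x := by
    intro i j
    apply integral_mul_fderiv_eq_neg_fderiv_mul_of_integrable
    · exact ((hdJ j i j).mul (hgs i).continuous).integrable_of_hasCompactSupport
        ((hgc i).mul_left)
    · exact ((hJs j i).continuous.mul (hJs i j).continuous).integrable_of_hasCompactSupport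
        ((hJc i j).mul_left)
    · exact ((hJs j i).continuous.mul (hgs i).continuous).integrable_of_hasCompactSupport
        ((hgc i).mul_left)
    · intro x _
      exact ((hJs j i).differentiable (by simp)) x
    · intro x _
      exact ((hgs i).differentiable (by simp)) x
  have hpt : ∀ x, ⟪trn (jac φ x), jac φ x⟫_ℝ = ∑ i, ∑ j, J j i x * J i j x := by
    intro x
    rw [inner_M3]
    refine Finset.sum_congr rfl fun i _ => Finset.sum_congr rfl fun j _ => ?_
    rw [trn_apply]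
    simp only [hjac]
  simp_rw [hpt]
  have hi1 : ∀ i j, Integrable (fun x => J j i x * J i j x) := fun i j =>
    ((hJs j i).continuous.mul (hJs i j).continuous).integrable_of_hasCompactSupport
      ((hJc i j).mul_left)
  have hi2 : ∀ i j, Integrable (fun x => fderiv ℝ (J j i) x (ev j) * g i x) := fun i j =>
    ((hdJ j i j).mul (hgs i).continuous).integrable_of_hasCompactSupport ((hgc i).mul_left)
  rw [integral_finsetSum _ fun i _ => integrable_finsetSum _ fun j _ => hi1 i j]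
  refine Finset.sum_eq_zero fun i _ => ?_
  rw [integral_finsetSum _ fun j _ => hi1 i j]
  simp_rw [hibp i]
  rw [Finset.sum_neg_distrib, ← integral_finsetSum _ fun j _ => hi2 i j]
  have hz : ∀ x, ∑ j, fderiv ℝ (J j i) x (ev j) * g i x = 0 := by
    intro x
    rw [← Finset.sum_mul]
    have h1 : ∀ j, fderiv ℝ (J j i) x (ev j) = fderiv ℝ (J j j) x (ev i) := fun j =>
      snd_comm (hgs j) x (ev i) (ev j)
    have h2 : ∑ j, fderiv ℝ (J j j) x (ev i) = 0 := by
      have h3 : (fun y => ∑ j, J j j y) = fun _ => (0 : ℝ) := by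
        funext y
        have := h.divfree y
        simpa [hjac] using this
      have h4 : fderiv ℝ (fun y => ∑ j, J j j y) x (ev i) = ∑ j, fderiv ℝ (J j j) x (ev i) := by
        rw [fderiv_fun_sum fun j _ => ((hJs j j).differentiable (by simp)) x]
        simp
      rw [← h4, h3]
      simp
    rw [Finset.sum_congr rfl fun j _ => h1 j, h2, zero_mul]
  simp [hz]

end test

variable {Ω : Set E3}

/-- transposition on `L²` -/
noncomputable def trL (Ω : Set E3) : L2M Ω →L[ℝ] L2M Ω := trn.compLpL 2 (volume.restrict Ω)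

theorem trL_coe (z : L2M Ω) : (trL Ω z : E3 → M3) =ᵐ[volume.restrict Ω] fun x => trn (z x) :=
  ContinuousLinearMap.coeFn_compLpL _ _

theorem inner_trL (a b : L2M Ω) : ⟪trL Ω a, b⟫_ℝ = ⟪a, trL Ω b⟫_ℝ := by
  rw [L2.inner_def, L2.inner_def]
  apply integral_congr_ae
  filter_upwards [trL_coe a, trL_coe b] with x h1 h2
  rw [h1, h2, inner_trn]

theorem trL_trL (a : L2M Ω) : trL Ω (trL Ω a) = a := by
  apply Lp.ext
  filter_upwards [trL_coe (trL Ω a), trL_coe a] with x h1 h2
  rw [h1, h2, trn_trn]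

theorem trL_altL (hΩ : MeasurableSet Ω) {p q : L2V Ω × L2M Ω} (hp : p ∈ graphW Ω)
    (hq : q ∈ graphW Ω) : trL Ω (altL p.1 q.1) = -altL p.1 q.1 := by
  apply Lp.ext
  filter_upwards [trL_coe (altL p.1 q.1), altL_coe hΩ hp hq, Lp.coeFn_neg (altL p.1 q.1)]
    with x h1 h2 h3
  rw [h1, h3, Pi.neg_apply, h2, trn_alt]

/-- `∫ ∑ ∂_j v_i ∂_i v_j = 0` on `H¹_{0,σ}`. -/
theorem inner_trL_zero {p : L2V Ω × L2M Ω} (hp : p ∈ graphW Ω) : ⟪trL Ω p.2, p.2⟫_ℝ = 0 := by
  refine graphW_induction (fun p => ⟪trL Ω p.2, p.2⟫_ℝ)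
    (((trL Ω).continuous.comp continuous_snd).inner continuous_snd).continuousOn ?_ hp
  rintro q ⟨φ, h1, h2, h3⟩
  show ⟪trL Ω q.2, q.2⟫_ℝ = 0
  have e1 : ⟪trL Ω q.2, q.2⟫_ℝ = ∫ x in Ω, ⟪trn (jac φ x), jac φ x⟫_ℝ := by
    rw [L2.inner_def]
    apply integral_congr_ae
    filter_upwards [trL_coe q.2, h3] with x a b
    rw [a, b]
  rw [e1, setIntegral_eq_integral_of_forall_compl_eq_zero]
  · exact test_trn h1
  · intro x hx
    have : jac φ x = 0 := by
      apply image_eq_zero_of_notMem_tsupport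
      intro hc
      exact hx (h1.supp (tsupport_jac_subset hc))
    rw [this, inner_zero_right]

/-- the bound of the trilinear form with the sharp constant -/
theorem tri_cross (hΩ : MeasurableSet Ω) {p q : L2V Ω × L2M Ω} (hp : p ∈ graphW Ω)
    (hq : q ∈ graphW Ω) :
    ⟪tensL p.1, q.2⟫_ℝ ^ 2 ≤ ‖p.2‖ ^ 2 * (‖altL p.1 q.1‖ ^ 2 / 2) := by
  have h1 : ⟪tensL p.1, q.2⟫_ℝ = (1 / 2) * ⟪altL p.1 q.1, p.2 - trL Ω p.2⟫_ℝ := by
    rw [identity hΩ hp hq, inner_sub_right, ← inner_trL, trL_altL hΩ hp hq, inner_neg_left]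
    ring
  have h2 : ‖p.2 - trL Ω p.2‖ ^ 2 = 2 * ‖p.2‖ ^ 2 := by
    rw [norm_sub_sq_real, real_inner_comm, inner_trL_zero hp, ← real_inner_self_eq_norm_sq
      (trL Ω p.2), ← inner_trL, trL_trL, real_inner_self_eq_norm_sq]
    ring
  have h3 := real_inner_mul_inner_self_le (altL p.1 q.1) (p.2 - trL Ω p.2)
  rw [real_inner_self_eq_norm_sq, real_inner_self_eq_norm_sq, h2] at h3
  rw [h1]
  nlinarith

/-- `‖v ∧ w‖² = 2 ∫ (|v|² |w|² - (v·w)²)` -/
theorem norm_altL_sq (hΩ : MeasurableSet Ω) {p q : L2V Ω × L2M Ω} (hp : p ∈ graphW Ω)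
    (hq : q ∈ graphW Ω) :
    ‖altL p.1 q.1‖ ^ 2 / 2 = ∫ x in Ω, (‖p.1 x‖ ^ 2 * ‖q.1 x‖ ^ 2 - ⟪p.1 x, q.1 x⟫_ℝ ^ 2) := by
  rw [← real_inner_self_eq_norm_sq, L2.inner_def, div_eq_inv_mul, ← integral_const_mul]
  apply integral_congr_ae
  filter_upwards [altL_coe hΩ hp hq] with x h
  rw [h, real_inner_self_eq_norm_sq, norm_sq_alt]
  ring

end Pool.Agent.Y303.RA
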