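import Pool.Agent.Y303.RA.EnA

/-!
The energy inequality for the time derivative of a strong solution, from the initial time.
-/

set_option autoImplicit false
set_option linter.unusedSectionVars false

open MeasureTheory Set Filter Topology Metric
open scoped InnerProductSpace NNReal ENNReal

namespace Pool.Agent.Y303.RA

open Pool.Agent.W795.TQ
open H772R2.NSR (Frame prim_cont memLp_ii ae_deriv_of_prim int_sq_le)
open H772R2.NSG (St by_parts ii_of_int int_inner norm_m_le)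
open Pool.Agent.W790.TQ (toSt sq_prim)

variable {H K : Type} [NormedAddCommGroup H] [InnerProductSpace ℝ H] [CompleteSpace H]
  [NormedAddCommGroup K] [InnerProductSpace ℝ K] [CompleteSpace K]
  {W : Submodule ℝ (H × K)} {m : H → K} {C c ν T : ℝ} {F F1 : ℝ → K} {u u1 : ℝ → H}
  {z z1 : ℝ → K}

/-- the pointwise inequality for the difference to the initial state -/
theorem init_pt (Fr : Frame W m C) (hν : 0 < ν) (hT : 0 < T) (hF : FH T F F1)
    (S : Str W m ν T F u u1 z z1) {g0 : H}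
    (hg : ∀ p ∈ W, ⟪F 0 - ν • z 0 + m (u 0), p.2⟫_ℝ = ⟪g0, p.1⟫_ℝ) :
    ∃ A : ℝ, 0 < A ∧ ∀ᵐ s ∂(volume.restrict (Ioc 0 T)),
      2 * ⟪u1 s, u s - u 0⟫_ℝ ≤ 2 * ‖g0‖ * ‖u s - u 0‖ + A * ‖u s - u 0‖ ^ 2
        + 1 / ν * ‖F s - F 0‖ ^ 2 := by
  obtain ⟨Z, St1⟩ := toSt hF S
  have hw := St1.deriv_weak Fr hT
  have hC0 := Fr.C0
  -- Young's inequality
  set A : ℝ := 2 * (27 / 32 * (C ^ 2 * ‖z 0‖ ^ 4) / ν ^ 3) + 1 with hA
  refine ⟨A, by positivity, ?_⟩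
  filter_upwards [hw, ae_restrict_mem measurableSet_Ioc] with s k1 hs
  have hsI := Ioc_subset_Icc_self hs
  have h0I : (0 : ℝ) ∈ Icc 0 T := ⟨le_rfl, hT.le⟩
  have hW : (u s - u 0, z s - z 0) ∈ W := W.sub_mem (S.mem _ hsI) (S.mem _ h0I)
  have e1 := k1 _ hW
  have e2 := hg _ hW
  have e3 := Fr.anti _ (S.mem _ hsI) _ (S.mem _ h0I)
  simp only at e1 e2 e3
  set D := u s - u 0 with hD
  set E := z s - z 0 with hE
  have e4 : ⟪u1 s, D⟫_ℝ = ⟪g0, D⟫_ℝ + ⟪F s - F 0, E⟫_ℝ - ν * ‖E‖ ^ 2 - ⟪m D, z 0⟫_ℝ := by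
    rw [e1, ← e2]
    have e5 : F s - ν • z s + m (u s) = (F 0 - ν • z 0 + m (u 0)) + (F s - F 0) - ν • E
        + (m (u s) - m (u 0)) := by
      rw [hE, smul_sub]; abel
    rw [e5, inner_add_left, inner_sub_left, inner_add_left, inner_smul_left,
      real_inner_self_eq_norm_sq, e3]
    simp
    ring
  have h1 : ⟪g0, D⟫_ℝ ≤ ‖g0‖ * ‖D‖ := real_inner_le_norm _ _
  have h2 : ⟪F s - F 0, E⟫_ℝ ≤ ‖F s - F 0‖ * ‖E‖ := real_inner_le_norm _ _
  have h3 : ‖F s - F 0‖ * ‖E‖ ≤ ν / 2 * ‖E‖ ^ 2 + 1 / (2 * ν) * ‖F s - F 0‖ ^ 2 := by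
    have : 0 ≤ (ν * ‖E‖ - ‖F s - F 0‖) ^ 2 / (2 * ν) := by positivity
    have e : (ν * ‖E‖ - ‖F s - F 0‖) ^ 2 / (2 * ν)
        = ν / 2 * ‖E‖ ^ 2 - ‖F s - F 0‖ * ‖E‖ + 1 / (2 * ν) * ‖F s - F 0‖ ^ 2 := by
      field_simp; ring
    linarith
  have h4 : -⟪m D, z 0⟫_ℝ ≤ ‖m D‖ * ‖z 0‖ := by
    have := abs_real_inner_le_norm (m D) (z 0)
    have := neg_abs_le ⟪m D, z 0⟫_ℝ
    linarith
  have h5 : (‖m D‖ * ‖z 0‖) ≤ ν / 2 * ‖E‖ ^ 2
      + 27 / 32 * (C ^ 2 * ‖z 0‖ ^ 4) / ν ^ 3 * ‖D‖ ^ 2 := by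
    have hq := Fr.quart _ hW
    simp only at hq
    -- `X = ‖m D‖ ‖z 0‖`, `X⁴ ≤ C² ‖z 0‖⁴ ‖D‖² ‖E‖⁶`
    set X : ℝ := ‖m D‖ * ‖z 0‖ with hX
    set α : ℝ := ν / 2 * ‖E‖ ^ 2 with hα
    set β : ℝ := 27 / 32 * (C ^ 2 * ‖z 0‖ ^ 4) / ν ^ 3 * ‖D‖ ^ 2 with hβ
    have hX0 : 0 ≤ X := by positivity
    have hα0 : 0 ≤ α := by positivity
    have hβ0 : 0 ≤ β := by positivity
    have hX4 : X ^ 4 ≤ C ^ 2 * ‖z 0‖ ^ 4 * (‖D‖ ^ 2 * ‖E‖ ^ 6) := by
      calc X ^ 4 = (‖m D‖ ^ 2) ^ 2 * ‖z 0‖ ^ 4 := by rw [hX]; ring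
        _ ≤ (C * (‖D‖ * ‖E‖ ^ 3)) ^ 2 * ‖z 0‖ ^ 4 := by gcongr
        _ = C ^ 2 * ‖z 0‖ ^ 4 * (‖D‖ ^ 2 * ‖E‖ ^ 6) := by ring
    have hab : C ^ 2 * ‖z 0‖ ^ 4 * (‖D‖ ^ 2 * ‖E‖ ^ 6) = 256 / 27 * (α ^ 3 * β) := by
      rw [hα, hβ]; field_simp; ring
    have hag : 256 / 27 * (α ^ 3 * β) ≤ (α + β) ^ 4 := by
      -- weighted arithmetic-geometric inequality
      have : 0 ≤ (α - 3 * β) ^ 2 * (27 * α ^ 2 + 14 * (α * β) + 3 * β ^ 2) := by positivity
      nlinarith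
    have : X ^ 4 ≤ (α + β) ^ 4 := hX4.trans (hab.le.trans hag)
    exact (pow_le_pow_iff_left₀ hX0 (by positivity) (by norm_num)).mp this
  have e9 : 1 / ν * ‖F s - F 0‖ ^ 2 = 2 * (1 / (2 * ν) * ‖F s - F 0‖ ^ 2) := by field_simp
  rw [e4, e9, hA]
  nlinarith [sq_nonneg ‖D‖]

/-- the difference quotients at the initial time are bounded by `4 ‖g0‖` in the limit -/
theorem initial_quot (Fr : Frame W m C) (hν : 0 < ν) (hT : 0 < T) (hF : FH T F F1)
    (S : Str W m ν T F u u1 z z1) {g0 : H}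
    (hg : ∀ p ∈ W, ⟪F 0 - ν • z 0 + m (u 0), p.2⟫_ℝ = ⟪g0, p.1⟫_ℝ) {ε : ℝ} (hε : 0 < ε) :
    ∀ᶠ h in 𝓝[>] (0 : ℝ), ‖h⁻¹ • (u (0 + h) - u 0)‖ ≤ 4 * ‖g0‖ + ε := by
  obtain ⟨A, hA, hpt⟩ := init_pt Fr hν hT hF S hg
  have huc : ContinuousOn u (Icc 0 T) := prim_cont S.u1m S.pu
  have hFc : ContinuousOn F (Icc 0 T) := prim_cont hF.memLp hF.prim
  have hF2 : Integrable (fun s => ‖F1 s‖ ^ 2) (volume.restrict (Ioc 0 T)) :=
    (memLp_two_iff_integrable_sq_norm hF.memLp.aestronglyMeasurable).mp hF.memLp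
  set P : ℝ → ℝ := fun x => ∫ s in (0 : ℝ)..x, ‖F1 s‖ ^ 2 with hP
  have hPc : ContinuousOn P (Icc 0 T) := by
    have hi : IntegrableOn (fun s => ‖F1 s‖ ^ 2) (uIcc 0 T) volume := by
      rw [uIcc_of_le hT.le, integrableOn_Icc_iff_integrableOn_Ioc]
      exact hF2
    have := intervalIntegral.continuousOn_primitive_interval hi
    rwa [uIcc_of_le hT.le] at this
  have hPm : ∀ x y, 0 ≤ x → x ≤ y → y ≤ T → P x ≤ P y := by
    intro x y hx hxy hy
    have := intervalIntegral.integral_add_adjacent_intervals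
      (ii_of_int hF2 le_rfl hx (hxy.trans hy)) (ii_of_int hF2 hx hxy hy)
    have h2 : 0 ≤ ∫ s in x..y, ‖F1 s‖ ^ 2 :=
      intervalIntegral.integral_nonneg hxy fun s _ => by positivity
    simp only [hP]
    linarith
  have hP0 : Tendsto (fun h => P h) (𝓝[>] 0) (𝓝 0) := by
    have h1 := hPc 0 ⟨le_rfl, hT.le⟩
    have h2 : P 0 = 0 := by simp [hP]
    rw [ContinuousWithinAt, h2] at h1
    refine h1.mono_left ?_
    rw [nhdsWithin_le_iff]
    filter_upwards [Ioo_mem_nhdsGT hT] with x hx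
    exact ⟨hx.1.le, hx.2.le⟩
  have hev1 : ∀ᶠ h in 𝓝[>] (0 : ℝ), 2 / ν * P h ≤ ε ^ 2 := by
    have := hP0.const_mul (2 / ν)
    rw [mul_zero] at this
    filter_upwards [this.eventually (gt_mem_nhds (show (0 : ℝ) < ε ^ 2 by positivity))] with h hh
    exact hh.le
  have hev2 : ∀ᶠ h in 𝓝[>] (0 : ℝ), h < min T (1 / (2 * A)) :=
    mem_nhdsWithin_of_mem_nhds (Iio_mem_nhds (lt_min hT (by positivity)))
  filter_upwards [hev1, hev2, self_mem_nhdsWithin] with h hh1 hh2 hh0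
  have hh0' : 0 < h := hh0
  have hhT : h ≤ T := (hh2.trans_le (min_le_left _ _)).le
  have hhA : A * h ≤ 1 / 2 := by
    have := (hh2.trans_le (min_le_right _ _)).le
    rw [le_div_iff₀ (by positivity)] at this
    linarith
  -- the maximum of `‖u - u 0‖` on `[0,h]`
  have hDc : ContinuousOn (fun s => ‖u s - u 0‖) (Icc 0 h) :=
    ((huc.mono (Icc_subset_Icc_right hhT)).sub continuousOn_const).norm
  obtain ⟨r, hr, hmax⟩ := isCompact_Icc.exists_isMaxOn (nonempty_Icc.2 hh0'.le) hDc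
  have hmax' : ∀ s ∈ Icc 0 h, ‖u s - u 0‖ ≤ ‖u r - u 0‖ := fun s hs => hmax hs
  set M := ‖u r - u 0‖ with hM
  have hM0 : 0 ≤ M := norm_nonneg _
  have hg1 : MemLp u1 2 (volume.restrict (Ioc 0 T)) := S.u1m
  have e1 := sq_prim (g := fun s => u s - u 0) (g1 := u1) hg1 (fun a b ha hab hb => by
    rw [sub_sub_sub_cancel_right]
    exact S.pu a b ha hab hb) le_rfl hr.1 (hr.2.trans hhT)
  have hFd : ∀ s ∈ Icc 0 h, ‖F s - F 0‖ ^ 2 ≤ s * P s := by
    intro s hs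
    rcases eq_or_lt_of_le hs.1 with h0 | h0
    · rw [← h0]; simp
    · rw [hF.prim 0 s le_rfl hs.1 (hs.2.trans hhT)]
      have := norm_int_sq_le hF.memLp le_rfl h0 (hs.2.trans hhT)
      rwa [sub_zero] at this
  have e2 : ∫ s in (0 : ℝ)..r, 2 * ⟪u1 s, u s - u 0⟫_ℝ
      ≤ ∫ s in (0 : ℝ)..r, (2 * ‖g0‖ * M + A * M ^ 2 + 1 / ν * (h * P h)) := by
    refine intervalIntegral.integral_mono_ae_restrict hr.1 ?_ intervalIntegrable_const ?_
    · refine (ii_of_int (T := T) (int_inner hg1 (g := fun s => u s - u 0) ?_) le_rfl hr.1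
        (hr.2.trans hhT)).const_mul 2
      obtain ⟨B, hB⟩ := (isCompact_Icc.image_of_continuousOn
        (huc.sub (continuousOn_const (c := u 0)))).isBounded.exists_norm_le
      refine MemLp.of_bound (((huc.sub continuousOn_const).mono
        Ioc_subset_Icc_self).aestronglyMeasurable measurableSet_Ioc) B ?_
      filter_upwards [ae_restrict_mem measurableSet_Ioc] with s hs
      exact hB _ ⟨s, Ioc_subset_Icc_self hs, rfl⟩
    · rw [Filter.EventuallyLE, ← restrict_Ioc_eq_restrict_Icc]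
      have hsub : (volume.restrict (Ioc 0 r) : Measure ℝ) ≤ volume.restrict (Ioc 0 T) :=
        Measure.restrict_mono (Ioc_subset_Ioc_right (hr.2.trans hhT)) le_rfl
      filter_upwards [ae_mono hsub hpt, ae_restrict_mem measurableSet_Ioc] with s hs hsI
      have hsh : s ∈ Icc 0 h := ⟨hsI.1.le, hsI.2.trans hr.2⟩
      have k1 := hmax' s hsh
      have k2 := hFd s hsh
      have k3 : s * P s ≤ h * P h := by
        have hPs : 0 ≤ P s := by
          have := hPm 0 s le_rfl hsh.1 (hsh.2.trans hhT)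
          simpa [hP] using this
        exact mul_le_mul hsh.2 (hPm s h hsh.1 hsh.2 hhT) hPs hh0'.le
      refine hs.trans ?_
      have k4 : 1 / ν * ‖F s - F 0‖ ^ 2 ≤ 1 / ν * (h * P h) := by
        have := k2.trans k3
        gcongr
      have k5 : 2 * ‖g0‖ * ‖u s - u 0‖ ≤ 2 * ‖g0‖ * M := by gcongr
      have k6 : A * ‖u s - u 0‖ ^ 2 ≤ A * M ^ 2 := by gcongr
      linarith
  rw [← e1, intervalIntegral.integral_const, smul_eq_mul, sub_zero] at e2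
  simp only [sub_self, norm_zero] at e2
  have hPh : 0 ≤ P h := by
    have := hPm 0 h le_rfl hh0'.le hhT
    simpa [hP] using this
  have e3 : M ^ 2 ≤ h * (2 * ‖g0‖ * M + A * M ^ 2 + 1 / ν * (h * P h)) := by
    have hnn : 0 ≤ 2 * ‖g0‖ * M + A * M ^ 2 + 1 / ν * (h * P h) := by positivity
    have := mul_le_mul_of_nonneg_right hr.2 hnn
    have e5 : ‖u r - u 0‖ ^ 2 = M ^ 2 := rfl
    rw [← hM] at e2
    linarith
  have e4 : M ^ 2 ≤ 4 * ‖g0‖ * h * M + (ε * h) ^ 2 := by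
    have k1 : h * (A * M ^ 2) ≤ 1 / 2 * M ^ 2 := by
      have := mul_le_mul_of_nonneg_right hhA (sq_nonneg M)
      linarith
    have k2 : h * (1 / ν * (h * P h)) * 2 ≤ (ε * h) ^ 2 := by
      have := mul_le_mul_of_nonneg_right hh1 (sq_nonneg h)
      have e : h * (1 / ν * (h * P h)) * 2 = 2 / ν * P h * h ^ 2 := by field_simp
      rw [e]
      linarith
    nlinarith
  have e5 : M ≤ 4 * ‖g0‖ * h + ε * h := by
    by_contra hcon
    rw [not_le] at hcon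
    have hεh : 0 < ε * h := by positivity
    have hgh : 0 ≤ 4 * ‖g0‖ * h := by positivity
    nlinarith
  have e6 : ‖u (0 + h) - u 0‖ ≤ M := by
    rw [zero_add]
    exact hmax' h ⟨hh0'.le, le_rfl⟩
  rw [norm_smul, norm_inv, Real.norm_eq_abs, abs_of_pos hh0', inv_mul_le_iff₀ hh0']
  calc ‖u (0 + h) - u 0‖ ≤ M := e6
    _ ≤ h * (4 * ‖g0‖ + ε) := by linarith


/-- Energy inequality for `∂ₜu` from a time at which the difference quotients are bounded. -/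
theorem en_gen (Fr : Frame W m C) (hm : Hom W m) (hν : 0 ≤ ν) (hT : 0 < T) (hF : FH T F F1)
    (S : Str W m ν T F u u1 z z1) {r t : ℝ} (hr : 0 ≤ r) (hrt : r < t) (htT : t < T) {b : H}
    {B : ℝ} (hB : ∀ᶠ h in 𝓝[>] (0 : ℝ), ‖h⁻¹ • (u (r + h) - u r)‖ ^ 2 ≤ B)
    (dt : HasDerivAt u b t) :
    IntegrableOn (fun s => ⟪F1 s, z1 s⟫_ℝ - ν * ‖z1 s‖ ^ 2 - ⟪m (u1 s), z s⟫_ℝ) (Ioc r t) ∧
    ‖b‖ ^ 2 ≤ B
      + 2 * ∫ s in r..t, (⟪F1 s, z1 s⟫_ℝ - ν * ‖z1 s‖ ^ 2 - ⟪m (u1 s), z s⟫_ℝ) := by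
  set h : ℕ → ℝ := fun n => (T - t) / (n + 1) with hh
  have hTt : 0 < T - t := by linarith
  have hpos : ∀ n, 0 < h n := fun n => by rw [hh]; positivity
  have hle : ∀ n, t + h n ≤ T := by
    intro n
    have : h n ≤ T - t := by
      rw [hh]
      refine div_le_self hTt.le ?_
      have : (0 : ℝ) ≤ n := Nat.cast_nonneg n
      linarith
    linarith
  have hlim0 : Tendsto h atTop (𝓝 0) := by
    have := (tendsto_one_div_add_atTop_nhds_zero_nat (𝕜 := ℝ)).const_mul (T - t)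
    rw [mul_zero] at this
    refine this.congr fun n => ?_
    rw [hh]; ring
  have hlim : Tendsto h atTop (𝓝[>] 0) :=
    tendsto_nhdsWithin_iff.2 ⟨hlim0, Eventually.of_forall fun n => hpos n⟩
  have hzc : ContinuousOn z (Icc 0 T) := prim_cont S.z1m S.pz
  have huc : ContinuousOn u (Icc 0 T) := prim_cont S.u1m S.pu
  have hFc : ContinuousOn F (Icc 0 T) := prim_cont hF.memLp hF.prim
  have hF2 : Integrable (fun s => ‖F1 s‖ ^ 2) (volume.restrict (Ioc 0 T)) :=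
    (memLp_two_iff_integrable_sq_norm hF.memLp.aestronglyMeasurable).mp hF.memLp
  have hz2 : Integrable (fun s => ‖z1 s‖ ^ 2) (volume.restrict (Ioc 0 T)) :=
    (memLp_two_iff_integrable_sq_norm S.z1m.aestronglyMeasurable).mp S.z1m
  obtain ⟨Z, hZ⟩ : ∃ Z, ∀ s ∈ Icc 0 T, ‖z s‖ ≤ Z := by
    obtain ⟨Z, hZ⟩ := (isCompact_Icc.image_of_continuousOn hzc).isBounded.exists_norm_le
    exact ⟨Z, fun s hs => hZ _ ⟨s, hs, rfl⟩⟩
  have hZ0 : 0 ≤ Z := (norm_nonneg _).trans (hZ 0 ⟨le_rfl, hT.le⟩)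
  have hC0 := Fr.C0
  -- derivatives at the end points
  have hdt : Tendsto (fun n => ‖(h n)⁻¹ • (u (t + h n) - u t)‖ ^ 2) atTop (𝓝 (‖b‖ ^ 2)) :=
    ((dt.tendsto_slope_zero_right.comp hlim).norm).pow 2
  have hdr : ∀ᶠ n in atTop, ‖(h n)⁻¹ • (u (r + h n) - u r)‖ ^ 2 ≤ B := hlim.eventually hB
  have hsub : (volume.restrict (Ioc r t) : Measure ℝ) ≤ volume.restrict (Ioc 0 T) :=
    Measure.restrict_mono (Ioc_subset_Ioc hr htT.le) le_rfl
  have hsI : ∀ n, ∀ s ∈ Ioc r t, s ∈ Icc 0 T ∧ s + h n ∈ Icc 0 T := by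
    intro n s hs
    have := hpos n
    have := hle n
    exact ⟨⟨by linarith [hs.1], by linarith [hs.2]⟩, ⟨by linarith [hs.1], by linarith [hs.2]⟩⟩
  -- the dominating functions
  set k : ℝ → ℝ := (Ioc 0 T).indicator (fun s => ‖z1 s‖ ^ 2 + ‖F1 s‖ ^ 2) with hk
  have hki : Integrable k volume := (integrable_indicator_iff measurableSet_Ioc).mpr (hz2.add hF2)
  have hkii : ∀ x y, IntervalIntegrable k volume x y := fun x y => hki.intervalIntegrable
  set P : ℝ → ℝ := fun x => ∫ s in (0 : ℝ)..x, k s with hP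
  have hPc : Continuous P := intervalIntegral.continuous_primitive hkii 0
  have hPd : ∀ x y, P y - P x = ∫ s in x..y, k s := fun x y =>
    intervalIntegral.integral_interval_sub_left (hkii _ _) (hkii _ _)
  set A : ℝ := 1 + ν + Z * C with hA
  have hA0 : 0 ≤ A := by positivity
  set G : ℕ → ℝ → ℝ := fun n s => A * ((h n)⁻¹ * (P (s + h n) - P s)) with hG
  have hGc : ∀ n, Continuous (G n) := fun n => by
    simp only [hG]
    exact continuous_const.mul (continuous_const.mul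
      ((hPc.comp (by fun_prop : Continuous fun s : ℝ => s + h n)).sub hPc))
  have hGint : ∀ n, Integrable (G n) (volume.restrict (Ioc r t)) := fun n =>
    ((hGc n).integrableOn_Icc (a := r) (b := t)).mono_set Ioc_subset_Icc_self
  have hΓint : Integrable (fun s => A * k s) (volume.restrict (Ioc r t)) :=
    (hki.const_mul A).mono_measure Measure.restrict_le_self
  -- bound of the squares of the quotients
  have hsqb : ∀ {Y : Type} [NormedAddCommGroup Y] [InnerProductSpace ℝ Y] [CompleteSpace Y]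
      (g g1 : ℝ → Y), MemLp g1 2 (volume.restrict (Ioc 0 T)) →
      (∀ a b, 0 ≤ a → a ≤ b → b ≤ T → g b - g a = ∫ s in a..b, g1 s) →
      ∀ n, ∀ s ∈ Ioc r t, ‖(h n)⁻¹ • (g (s + h n) - g s)‖ ^ 2
        ≤ (h n)⁻¹ * ∫ x in s..(s + h n), ‖g1 x‖ ^ 2 := by
    intro Y _ _ _ g g1 hg hgp n s hs
    obtain ⟨k1, k2⟩ := hsI n s hs
    have hn := hpos n
    have e1 := norm_int_sq_le hg k1.1 (by linarith : s < s + h n) k2.2
    rw [← hgp s (s + h n) k1.1 (by linarith) k2.2, add_sub_cancel_left] at e1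
    rw [norm_smul, mul_pow, norm_inv, Real.norm_eq_abs, abs_of_pos hn]
    calc (h n)⁻¹ ^ 2 * ‖g (s + h n) - g s‖ ^ 2
        ≤ (h n)⁻¹ ^ 2 * (h n * ∫ x in s..(s + h n), ‖g1 x‖ ^ 2) := by gcongr
      _ = (h n)⁻¹ * ∫ x in s..(s + h n), ‖g1 x‖ ^ 2 := by field_simp
  have hsum : ∀ n, ∀ s ∈ Ioc r t, (h n)⁻¹ * (∫ x in s..(s + h n), ‖z1 x‖ ^ 2)
      + (h n)⁻¹ * (∫ x in s..(s + h n), ‖F1 x‖ ^ 2) = (h n)⁻¹ * (P (s + h n) - P s) := by
    intro n s hs
    obtain ⟨k1, k2⟩ := hsI n s hs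
    have hn := hpos n
    rw [← mul_add, hPd, ← intervalIntegral.integral_add
      (ii_of_int hz2 k1.1 (by linarith) k2.2) (ii_of_int hF2 k1.1 (by linarith) k2.2)]
    congr 1
    rw [intervalIntegral.integral_of_le (by linarith), intervalIntegral.integral_of_le (by linarith)]
    refine setIntegral_congr_fun measurableSet_Ioc fun x hx => ?_
    simp only [hk]
    rw [indicator_of_mem (Ioc_subset_Ioc k1.1 k2.2 hx)]
  -- the functions
  set f : ℕ → ℝ → ℝ := fun n s =>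
    ⟪(h n)⁻¹ • (F (s + h n) - F s), (h n)⁻¹ • (z (s + h n) - z s)⟫_ℝ
      - ν * ‖(h n)⁻¹ • (z (s + h n) - z s)‖ ^ 2
      - ⟪m ((h n)⁻¹ • (u (s + h n) - u s)), z s⟫_ℝ with hf
  have hWn : ∀ n, ∀ s ∈ Ioc r t,
      ((h n)⁻¹ • (u (s + h n) - u s), (h n)⁻¹ • (z (s + h n) - z s)) ∈ W := by
    intro n s hs
    obtain ⟨k1, k2⟩ := hsI n s hs
    have := W.smul_mem (h n)⁻¹ (W.sub_mem (S.mem _ k2) (S.mem _ k1))
    simpa using this
  have hbound : ∀ n, ∀ᵐ s ∂(volume.restrict (Ioc r t)), |f n s| ≤ G n s := by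
    intro n
    filter_upwards [ae_restrict_mem measurableSet_Ioc] with s hs
    obtain ⟨k1, k2⟩ := hsI n s hs
    have q1 := hsqb z z1 S.z1m S.pz n s hs
    have q2 := hsqb F F1 hF.memLp hF.prim n s hs
    have q3 := hsum n s hs
    set X : K := (h n)⁻¹ • (z (s + h n) - z s) with hX
    set Y : K := (h n)⁻¹ • (F (s + h n) - F s) with hY
    set V : H := (h n)⁻¹ • (u (s + h n) - u s) with hV
    have q4 : ‖m V‖ ≤ C * ‖X‖ ^ 2 := norm_m_le Fr (hWn n s hs)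
    have q5 : |⟪Y, X⟫_ℝ| ≤ ‖Y‖ * ‖X‖ := abs_real_inner_le_norm _ _
    have q6 : |⟪m V, z s⟫_ℝ| ≤ C * ‖X‖ ^ 2 * Z :=
      (abs_real_inner_le_norm _ _).trans (mul_le_mul q4 (hZ s k1) (norm_nonneg _) (by positivity))
    have q7 : |f n s| ≤ ‖Y‖ * ‖X‖ + ν * ‖X‖ ^ 2 + C * ‖X‖ ^ 2 * Z := by
      have h1 : |⟪Y, X⟫_ℝ - ν * ‖X‖ ^ 2 - ⟪m V, z s⟫_ℝ|
          ≤ |⟪Y, X⟫_ℝ - ν * ‖X‖ ^ 2| + |⟪m V, z s⟫_ℝ| := abs_sub _ _
      have h2 : |⟪Y, X⟫_ℝ - ν * ‖X‖ ^ 2| ≤ |⟪Y, X⟫_ℝ| + |ν * ‖X‖ ^ 2| := abs_sub _ _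
      rw [abs_of_nonneg (by positivity : 0 ≤ ν * ‖X‖ ^ 2)] at h2
      simp only [hf]
      linarith
    have q8 : ‖Y‖ * ‖X‖ ≤ ‖X‖ ^ 2 + ‖Y‖ ^ 2 := by
      nlinarith [sq_nonneg (‖X‖ - ‖Y‖), sq_nonneg ‖X‖, sq_nonneg ‖Y‖]
    have q9 : ‖X‖ ^ 2 + ‖Y‖ ^ 2 ≤ (h n)⁻¹ * (P (s + h n) - P s) := by linarith
    have q10 : 0 ≤ ‖X‖ ^ 2 := sq_nonneg _
    have q11 : 0 ≤ ‖Y‖ ^ 2 := sq_nonneg _
    calc |f n s| ≤ ‖Y‖ * ‖X‖ + ν * ‖X‖ ^ 2 + C * ‖X‖ ^ 2 * Z := q7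
      _ ≤ (‖X‖ ^ 2 + ‖Y‖ ^ 2) + ν * (‖X‖ ^ 2 + ‖Y‖ ^ 2) + (Z * C) * (‖X‖ ^ 2 + ‖Y‖ ^ 2) := by
          have h1 : ν * ‖X‖ ^ 2 ≤ ν * (‖X‖ ^ 2 + ‖Y‖ ^ 2) :=
            mul_le_mul_of_nonneg_left (by linarith) hν
          have h2 : C * ‖X‖ ^ 2 * Z ≤ (Z * C) * (‖X‖ ^ 2 + ‖Y‖ ^ 2) := by
            calc C * ‖X‖ ^ 2 * Z = (Z * C) * ‖X‖ ^ 2 := by ring
              _ ≤ (Z * C) * (‖X‖ ^ 2 + ‖Y‖ ^ 2) :=
                mul_le_mul_of_nonneg_left (by linarith) (by positivity)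
          linarith
      _ = A * (‖X‖ ^ 2 + ‖Y‖ ^ 2) := by rw [hA]; ring
      _ ≤ G n s := mul_le_mul_of_nonneg_left q9 hA0
  have hcont : ∀ n, ContinuousOn (fun s => s + h n) (Icc r t) := fun n => by fun_prop
  have hs0 : Icc r t ⊆ Icc 0 T := Icc_subset_Icc hr htT.le
  have hs1 : ∀ n, MapsTo (fun s => s + h n) (Icc r t) (Icc 0 T) := by
    intro n
    have := hpos n
    have := hle n
    exact fun s hs => ⟨by linarith [hs.1], by linarith [hs.2]⟩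
  have hXc : ∀ n, ContinuousOn (fun s => (h n)⁻¹ • (z (s + h n) - z s)) (Icc r t) := fun n =>
    continuousOn_const.smul ((hzc.comp (hcont n) (hs1 n)).sub (hzc.mono hs0))
  have hYc : ∀ n, ContinuousOn (fun s => (h n)⁻¹ • (F (s + h n) - F s)) (Icc r t) := fun n =>
    continuousOn_const.smul ((hFc.comp (hcont n) (hs1 n)).sub (hFc.mono hs0))
  have hVc : ∀ n, ContinuousOn (fun s => (h n)⁻¹ • (u (s + h n) - u s)) (Icc r t) := fun n =>
    continuousOn_const.smul ((huc.comp (hcont n) (hs1 n)).sub (huc.mono hs0))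
  have hWn' : ∀ n, ∀ s ∈ Icc r t,
      ((h n)⁻¹ • (u (s + h n) - u s), (h n)⁻¹ • (z (s + h n) - z s)) ∈ W := by
    intro n s hs
    have := W.smul_mem (h n)⁻¹ (W.sub_mem (S.mem _ (hs1 n hs)) (S.mem _ (hs0 hs)))
    simpa using this
  have hmc : ∀ n, ContinuousOn (fun s => m ((h n)⁻¹ • (u (s + h n) - u s))) (Icc r t) := by
    intro n x hx
    exact m_tendsto Fr (l := 𝓝[Icc r t] x) (p := fun y => ((h n)⁻¹ • (u (y + h n) - u y),
      (h n)⁻¹ • (z (y + h n) - z y))) (q := ((h n)⁻¹ • (u (x + h n) - u x),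
      (h n)⁻¹ • (z (x + h n) - z x))) (by
        filter_upwards [self_mem_nhdsWithin] with y hy
        exact hWn' n y hy) (hWn' n _ hx) (hVc n x hx) (hXc n x hx)
  have hfc : ∀ n, ContinuousOn (f n) (Icc r t) := fun n =>
    (((hYc n).inner (hXc n)).sub (continuousOn_const.mul ((hXc n).norm.pow 2))).sub
      ((hmc n).inner (hzc.mono hs0))
  have hfm : ∀ n, AEStronglyMeasurable (f n) (volume.restrict (Ioc r t)) := fun n =>
    ((hfc n).mono Ioc_subset_Icc_self).aestronglyMeasurable measurableSet_Ioc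
  -- limits
  have hfl : ∀ᵐ s ∂(volume.restrict (Ioc r t)), Tendsto (fun n => f n s) atTop
      (𝓝 (⟪F1 s, z1 s⟫_ℝ - ν * ‖z1 s‖ ^ 2 - ⟪m (u1 s), z s⟫_ℝ)) := by
    filter_upwards [ae_mono hsub (ae_deriv_of_prim hT (memLp_ii hT.le S.z1m) S.pz),
      ae_mono hsub (ae_deriv_of_prim hT (memLp_ii hT.le S.u1m) S.pu),
      ae_mono hsub (ae_deriv_of_prim hT (memLp_ii hT.le hF.memLp) hF.prim),
      ae_mono hsub S.mem1, ae_restrict_mem measurableSet_Ioc] with s d1 d2 d3 hmem hs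
    have l1 := d1.tendsto_slope_zero_right.comp hlim
    have l2 := d2.tendsto_slope_zero_right.comp hlim
    have l3 := d3.tendsto_slope_zero_right.comp hlim
    have l4 : Tendsto (fun n => m ((h n)⁻¹ • (u (s + h n) - u s))) atTop (𝓝 (m (u1 s))) :=
      m_tendsto Fr (p := fun n => ((h n)⁻¹ • (u (s + h n) - u s),
        (h n)⁻¹ • (z (s + h n) - z s))) (q := (u1 s, z1 s))
        (Eventually.of_forall fun n => hWn n s hs) hmem l2 l1
    exact ((l3.inner l1).sub ((l1.norm.pow 2).const_mul ν)).sub (l4.inner tendsto_const_nhds)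
  have hPD : ∀ᵐ s ∂(volume.restrict (Ioc 0 T)), HasDerivAt P (k s) s :=
    ae_deriv_of_prim hT (hkii 0 T) (fun a b _ _ _ => hPd a b)
  have hGl : ∀ᵐ s ∂(volume.restrict (Ioc r t)), Tendsto (fun n => G n s) atTop (𝓝 (A * k s)) := by
    filter_upwards [ae_mono hsub hPD] with s d
    have l := d.tendsto_slope_zero_right.comp hlim
    exact l.const_mul A
  have hGI : Tendsto (fun n => ∫ s in Ioc r t, G n s) atTop (𝓝 (∫ s in Ioc r t, A * k s)) := by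
    set Q : ℝ → ℝ := fun x => ∫ s in (0 : ℝ)..x, P s with hQ
    have hPi : ∀ x y, IntervalIntegrable P volume x y := fun x y => hPc.intervalIntegrable _ _
    have hQd : ∀ x y, Q y - Q x = ∫ s in x..y, P s := fun x y =>
      intervalIntegral.integral_interval_sub_left (hPi _ _) (hPi _ _)
    have hQD : ∀ x, HasDerivAt Q (P x) x := fun x =>
      intervalIntegral.integral_hasDerivAt_right (hPi _ _)
        (hPc.stronglyMeasurableAtFilter _ _) hPc.continuousAt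
    have e1 : ∀ n, ∫ s in Ioc r t, G n s
        = A * ((h n)⁻¹ • (Q (t + h n) - Q t) - (h n)⁻¹ • (Q (r + h n) - Q r)) := by
      intro n
      rw [← intervalIntegral.integral_of_le hrt.le]
      simp only [hG, smul_eq_mul]
      have hPs : IntervalIntegrable (fun s => P (s + h n)) volume r t :=
        (hPc.comp (by fun_prop : Continuous fun s : ℝ => s + h n)).intervalIntegrable _ _
      have e3 : ∫ s in r..t, (P (s + h n) - P s)
          = (Q (t + h n) - Q (r + h n)) - (Q t - Q r) := by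
        rw [intervalIntegral.integral_sub hPs (hPi _ _),
          intervalIntegral.integral_comp_add_right (fun s => P s), ← hQd, ← hQd]
      rw [intervalIntegral.integral_const_mul, intervalIntegral.integral_const_mul, e3]
      ring
    have e2 : ∫ s in Ioc r t, A * k s = A * (P t - P r) := by
      rw [← intervalIntegral.integral_of_le hrt.le, intervalIntegral.integral_const_mul, hPd]
    simp_rw [e1]
    rw [e2]
    exact (((hQD t).tendsto_slope_zero_right.comp hlim).sub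
      ((hQD r).tendsto_slope_zero_right.comp hlim)).const_mul A
  obtain ⟨hint, hconv⟩ := pratt hfm hGint hΓint hbound hfl hGl hGI
  refine ⟨hint, ?_⟩
  -- the identity for the quotients
  have hid : ∀ n, ‖(h n)⁻¹ • (u (t + h n) - u t)‖ ^ 2 - ‖(h n)⁻¹ • (u (r + h n) - u r)‖ ^ 2
      = 2 * ∫ s in Ioc r t, f n s := by
    intro n
    have hn := hpos n
    have hThh : t ≤ T - h n := by linarith [hle n]
    have hg1 : MemLp (fun s => u1 (s + h n) - u1 s) 2 (volume.restrict (Ioc 0 (T - h n))) := by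
      have hmp : MeasurePreserving (fun s : ℝ => s + h n) (volume.restrict (Ioc 0 (T - h n)))
          (volume.restrict (Ioc (h n) T)) := by
        have := (measurePreserving_add_right volume (h n)).restrict_preimage
          (measurableSet_Ioc : MeasurableSet (Ioc (h n) T))
        rwa [preimage_add_const_Ioc, sub_self] at this
      exact ((S.u1m.mono_measure (Measure.restrict_mono (Ioc_subset_Ioc_left hn.le)
        le_rfl)).comp_measurePreserving hmp).sub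
        (S.u1m.mono_measure (Measure.restrict_mono (Ioc_subset_Ioc_right (by linarith)) le_rfl))
    have hu1i : Integrable u1 (volume.restrict (Ioc 0 T)) := S.u1m.integrable (by norm_num)
    have hgp : ∀ a b, 0 ≤ a → a ≤ b → b ≤ T - h n →
        (u (b + h n) - u b) - (u (a + h n) - u a) = ∫ s in a..b, (u1 (s + h n) - u1 s) := by
      intro a b ha hab hb
      have i1 : IntervalIntegrable u1 volume a b := ii_of_int hu1i ha hab (by linarith)
      have i2 : IntervalIntegrable (fun s => u1 (s + h n)) volume a b := by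
        have := (ii_of_int hu1i (by linarith : 0 ≤ a + h n) (by linarith) (by linarith :
          b + h n ≤ T)).comp_add_right (h n)
        simpa using this
      rw [intervalIntegral.integral_sub i2 i1,
        intervalIntegral.integral_comp_add_right (fun s => u1 s),
        ← S.pu a b ha hab (by linarith), ← S.pu (a + h n) (b + h n) (by linarith) (by linarith)
        (by linarith)]
      abel
    have e1 := sq_prim hg1 hgp hr hrt.le hThh
    have e0 : ∀ {Y : Type} [NormedAddCommGroup Y] [InnerProductSpace ℝ Y] (x : Y),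
        ‖(h n)⁻¹ • x‖ ^ 2 = ((h n) ^ 2)⁻¹ * ‖x‖ ^ 2 := by
      intro Y _ _ x
      rw [norm_smul, norm_inv, Real.norm_eq_abs, abs_of_pos hn, mul_pow, inv_pow]
    rw [e0, e0, ← mul_sub, e1, intervalIntegral.integral_of_le hrt.le, ← integral_const_mul,
      ← integral_const_mul]
    refine integral_congr_ae ?_
    have hsub2 : (volume.restrict (Ioc r t) : Measure ℝ) ≤ volume.restrict (Ioc 0 (T - h n)) :=
      Measure.restrict_mono (Ioc_subset_Ioc hr hThh) le_rfl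
    filter_upwards [ae_mono hsub2 (diff_eq Fr hT hF S hn), ae_restrict_mem measurableSet_Ioc]
      with s hs hsI'
    obtain ⟨k1, k2⟩ := hsI n s hsI'
    have e3 : m ((h n)⁻¹ • (u (s + h n) - u s)) = (h n)⁻¹ ^ 2 • m (u (s + h n) - u s) :=
      hm _ (W.sub_mem (S.mem _ k2) (S.mem _ k1)) _
    simp only [hf]
    rw [hs, e3, e0, real_inner_smul_left, real_inner_smul_right, real_inner_smul_left]
    ring
  have hR := (hconv.const_mul 2).const_add B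
  rw [intervalIntegral.integral_of_le hrt.le]
  refine le_of_tendsto_of_tendsto hdt hR ?_
  filter_upwards [hdr] with n hn
  have := hid n
  linarith


/-- the energy inequality for the time derivative from the initial time -/
theorem en_a0 (Fr : Frame W m C) (hm : Hom W m) (hν : 0 < ν) (hT : 0 < T) (hF : FH T F F1)
    (S : Str W m ν T F u u1 z z1) {g0 : H}
    (hg : ∀ p ∈ W, ⟪F 0 - ν • z 0 + m (u 0), p.2⟫_ℝ = ⟪g0, p.1⟫_ℝ)
    {t : ℝ} (ht : 0 < t) (htT : t < T) {b : H} (dt : HasDerivAt u b t) :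
    IntegrableOn (fun s => ⟪F1 s, z1 s⟫_ℝ - ν * ‖z1 s‖ ^ 2 - ⟪m (u1 s), z s⟫_ℝ) (Ioc 0 t) ∧
    ‖b‖ ^ 2 ≤ 16 * ‖g0‖ ^ 2
      + 2 * ∫ s in (0 : ℝ)..t, (⟪F1 s, z1 s⟫_ℝ - ν * ‖z1 s‖ ^ 2 - ⟪m (u1 s), z s⟫_ℝ) := by
  have key : ∀ ε : ℝ, 0 < ε → IntegrableOn
      (fun s => ⟪F1 s, z1 s⟫_ℝ - ν * ‖z1 s‖ ^ 2 - ⟪m (u1 s), z s⟫_ℝ) (Ioc 0 t) ∧
      ‖b‖ ^ 2 ≤ (4 * ‖g0‖ + ε) ^ 2
        + 2 * ∫ s in (0 : ℝ)..t, (⟪F1 s, z1 s⟫_ℝ - ν * ‖z1 s‖ ^ 2 - ⟪m (u1 s), z s⟫_ℝ) := by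
    intro ε hε
    refine en_gen Fr hm hν.le hT hF S le_rfl ht htT (B := (4 * ‖g0‖ + ε) ^ 2) ?_ dt
    filter_upwards [initial_quot Fr hν hT hF S hg hε] with h hh
    exact pow_le_pow_left₀ (norm_nonneg _) hh 2
  refine ⟨(key 1 one_pos).1, ?_⟩
  set I : ℝ := ∫ s in (0 : ℝ)..t, (⟪F1 s, z1 s⟫_ℝ - ν * ‖z1 s‖ ^ 2 - ⟪m (u1 s), z s⟫_ℝ) with hI
  have hlim : Tendsto (fun ε : ℝ => (4 * ‖g0‖ + ε) ^ 2 + 2 * I) (𝓝[>] 0)
      (𝓝 ((4 * ‖g0‖ + 0) ^ 2 + 2 * I)) := by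
    refine Tendsto.mono_left ?_ nhdsWithin_le_nhds
    exact (Continuous.tendsto (by fun_prop) 0)
  have h2 : ‖b‖ ^ 2 ≤ (4 * ‖g0‖ + 0) ^ 2 + 2 * I := by
    refine ge_of_tendsto hlim ?_
    filter_upwards [self_mem_nhdsWithin] with ε hε
    exact (key ε hε).2
  calc ‖b‖ ^ 2 ≤ (4 * ‖g0‖ + 0) ^ 2 + 2 * I := h2
    _ = 16 * ‖g0‖ ^ 2 + 2 * I := by ring

end Pool.Agent.Y303.RA
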