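import Pool.Agent.Y303.RA.Rate

/-!
The time derivative before a first singular time: growth, in the abstract frame.
-/

set_option autoImplicit false
set_option linter.unusedSectionVars false

open MeasureTheory Set Filter Topology
open scoped InnerProductSpace

namespace Pool.Agent.Y303.RA

open Pool.Agent.W795.TQ
open H772R2.NSR (Frame)

variable {H K : Type} [NormedAddCommGroup H] [InnerProductSpace ℝ H] [CompleteSpace H]
  [NormedAddCommGroup K] [InnerProductSpace ℝ K] [CompleteSpace K]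
  {W : Submodule ℝ (H × K)} {m : H → K} {C ν T τ κ : ℝ} {F F1 : ℝ → K} {v v1 : ℝ → H}
  {z z1 : ℝ → K}

theorem sq_rate {κ x : ℝ} (hx : 0 < x) :
    (κ * x ^ (-(3 / 4) : ℝ)) ^ 2 = κ ^ 2 * x ^ (-(3 / 2) : ℝ) := by
  rw [mul_pow, ← Real.rpow_natCast (x ^ (-(3 / 4) : ℝ)), ← Real.rpow_mul hx.le]
  norm_num

theorem growth_X (Fr : Frame W m C) (hm : Hom W m) (hν : 0 < ν) (hτ : 0 < τ) (hτT : τ ≤ T)
    (hF : FH T F F1) (hS : ∀ t ∈ Ioo 0 τ, Str W m ν t F v v1 z z1) (hκ : 0 < κ)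
    (hrate : ∀ t0 < τ, ¬ ∀ᵐ t ∂(volume.restrict (Ioo t0 τ)),
      ‖v1 t‖ ≤ κ * (τ - t) ^ (-(3 / 4) : ℝ)) {s : ℝ} (hs : s ∈ Ico 0 τ) {X : ℝ → ℝ}
    (hXi : ∀ t ∈ Ioo s τ, IntegrableOn (fun t => X t ^ 2) (Ioc s t))
    (hX : ∀ᵐ t ∂(volume.restrict (Ioo s τ)), -⟪m (v1 t), z t⟫_ℝ ≤ ‖z1 t‖ * X t) :
    ∀ t0 < τ, ∃ t ∈ Ioo t0 τ, s < t ∧
      κ ^ 2 / 2 * ν ≤ (τ - t) ^ (3 / 2 : ℝ) * ∫ r in s..t, X r ^ 2 := by
  intro t0 ht0
  by_contra hcon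
  push Not at hcon
  obtain ⟨r, hr, dr⟩ := exists_diff hτ hS hs
  have hr0 : r ∈ Ioo 0 τ := ⟨hs.1.trans_lt hr.1, hr.2⟩
  have hb := bound_X Fr hm hν hτT hF hS hr0 dr (X := X)
    (fun t ht => (hXi t ⟨hr.1.trans ht.1, ht.2⟩).mono_set (Ioc_subset_Ioc_left hr.1.le))
    (ae_mono (Measure.restrict_mono (Ioo_subset_Ioo_left hr.1.le) le_rfl) hX)
  set k : ℝ := ‖v1 r‖ ^ 2 + (∫ s in (0 : ℝ)..T, ‖F1 s‖ ^ 2) / ν with hk
  -- `k` is absorbed near `τ`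
  have hlim : Tendsto (fun t : ℝ => k * |τ - t| ^ (3 / 2 : ℝ)) (𝓝 τ) (𝓝 0) := by
    have hc : Continuous fun t : ℝ => k * |τ - t| ^ (3 / 2 : ℝ) :=
      continuous_const.mul ((by fun_prop : Continuous fun t : ℝ => |τ - t|).rpow_const
        fun _ => Or.inr (by norm_num))
    have := hc.tendsto τ
    rwa [sub_self, abs_zero, Real.zero_rpow (by norm_num), mul_zero] at this
  have hev := hlim.eventually (gt_mem_nhds (show (0 : ℝ) < κ ^ 2 / 2 by positivity))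
  obtain ⟨ε, hε, hball⟩ := Metric.eventually_nhds_iff.1 hev
  refine hrate (max (max t0 r) (τ - ε)) (max_lt (max_lt ht0 hr.2) (by linarith)) ?_
  have hss : Ioo (max (max t0 r) (τ - ε)) τ ⊆ Ioo r τ := fun x hx =>
    ⟨(le_max_right _ _).trans_lt ((le_max_left _ _).trans_lt hx.1), hx.2⟩
  filter_upwards [ae_mono (Measure.restrict_mono hss le_rfl) hb, ae_restrict_mem measurableSet_Ioo]
    with t ht htI
  have hrt : r < t := (hss htI).1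
  have ht0t : t0 < t := (le_max_left _ _).trans_lt ((le_max_left _ _).trans_lt htI.1)
  have hεt : τ - ε < t := (le_max_right _ _).trans_lt htI.1
  have hp : 0 < τ - t := by linarith [htI.2]
  have h1 := hcon t ⟨ht0t, htI.2⟩ (hr.1.trans hrt)
  have h2 := @hball t (by rw [Real.dist_eq, abs_lt]; constructor <;> linarith)
  rw [abs_of_pos hp] at h2
  have hq : 0 < (τ - t) ^ (3 / 2 : ℝ) := Real.rpow_pos_of_pos hp _
  have h3 : ∫ x in r..t, X x ^ 2 ≤ ∫ x in s..t, X x ^ 2 := by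
    rw [intervalIntegral.integral_of_le hrt.le,
      intervalIntegral.integral_of_le (hr.1.trans hrt).le]
    exact setIntegral_mono_set (hXi t ⟨hr.1.trans hrt, htI.2⟩)
      (Eventually.of_forall fun s => by positivity) (Ioc_subset_Ioc_left hr.1.le).eventuallyLE
  have h4 : ‖v1 t‖ ^ 2 ≤ (κ * (τ - t) ^ (-(3 / 4) : ℝ)) ^ 2 := by
    rw [sq_rate hp, Real.rpow_neg hp.le, ← div_eq_mul_inv, le_div_iff₀ hq]
    have h5 : (∫ x in s..t, X x ^ 2) / ν * (τ - t) ^ (3 / 2 : ℝ) < κ ^ 2 / 2 := by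
      rw [div_mul_eq_mul_div, div_lt_iff₀ hν]
      linarith
    have h6 : (∫ x in r..t, X x ^ 2) / ν ≤ (∫ x in s..t, X x ^ 2) / ν := by gcongr
    calc ‖v1 t‖ ^ 2 * (τ - t) ^ (3 / 2 : ℝ)
        ≤ (k + (∫ x in s..t, X x ^ 2) / ν) * (τ - t) ^ (3 / 2 : ℝ) := by
          gcongr
          linarith
      _ = k * (τ - t) ^ (3 / 2 : ℝ) + (∫ x in s..t, X x ^ 2) / ν * (τ - t) ^ (3 / 2 : ℝ) := by
          ring
      _ ≤ κ ^ 2 := by linarith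
  exact (pow_le_pow_iff_left₀ (norm_nonneg _) (by positivity) (by norm_num)).mp h4

theorem growth_Λ (Fr : Frame W m C) (hm : Hom W m) (hν : 0 < ν) (hτ : 0 < τ) (hτT : τ ≤ T)
    (hF : FH T F F1) (hS : ∀ t ∈ Ioo 0 τ, Str W m ν t F v v1 z z1) (hκ : 0 < κ)
    (hrate : ∀ t0 < τ, ¬ ∀ᵐ t ∂(volume.restrict (Ioo t0 τ)),
      ‖v1 t‖ ≤ κ * (τ - t) ^ (-(3 / 4) : ℝ)) {s : ℝ} (hs : s ∈ Ico 0 τ) {δ : ℝ} (hδ : 0 < δ) :
    ∃ M : ℝ, ∀ Λ : ℝ → ℝ, (∀ t, 0 ≤ Λ t) → (∀ t ∈ Ioo s τ, IntegrableOn Λ (Ioc s t)) →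
      (∀ᵐ t ∂(volume.restrict (Ioo s τ)),
        -⟪m (v1 t), z t⟫_ℝ ≤ (1 - δ) * ν * ‖z1 t‖ ^ 2 + Λ t * ‖v1 t‖ ^ 2) →
      ∀ t0 < τ, ∃ t ∈ Ioo t0 τ, s < t ∧
        3 / 4 * Real.log (1 / (τ - t)) - M ≤ ∫ r in s..t, Λ r := by
  obtain ⟨r, hr, dr⟩ := exists_diff hτ hS hs
  have hr0 : r ∈ Ioo 0 τ := ⟨hs.1.trans_lt hr.1, hr.2⟩
  set k : ℝ := ‖v1 r‖ ^ 2 + (∫ s in (0 : ℝ)..T, ‖F1 s‖ ^ 2) / (2 * δ * ν) with hk
  have hI : 0 ≤ ∫ s in (0 : ℝ)..T, ‖F1 s‖ ^ 2 :=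
    intervalIntegral.integral_nonneg (by linarith) fun s _ => by positivity
  have hk0 : 0 ≤ k := by positivity
  refine ⟨Real.log ((k + 1) / κ ^ 2) / 2, ?_⟩
  intro Λ hΛ0 hΛi hΛ t0 ht0
  by_contra hcon
  push Not at hcon
  have hb := bound_Λ Fr hm hν hτT hF hS hr0 dr hδ hΛ0
    (fun t ht => (hΛi t ⟨hr.1.trans ht.1, ht.2⟩).mono_set (Ioc_subset_Ioc_left hr.1.le))
    (ae_mono (Measure.restrict_mono (Ioo_subset_Ioo_left hr.1.le) le_rfl) hΛ)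
  refine hrate (max t0 r) (max_lt ht0 hr.2) ?_
  have hss : Ioo (max t0 r) τ ⊆ Ioo r τ := fun x hx => ⟨(le_max_right _ _).trans_lt hx.1, hx.2⟩
  filter_upwards [ae_mono (Measure.restrict_mono hss le_rfl) hb, ae_restrict_mem measurableSet_Ioo]
    with t ht htI
  have hrt : r < t := (hss htI).1
  have ht0t : t0 < t := (le_max_left _ _).trans_lt htI.1
  have hp : 0 < τ - t := by linarith [htI.2]
  have h1 := hcon t ⟨ht0t, htI.2⟩ (hr.1.trans hrt)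
  have h3 : ∫ x in r..t, Λ x ≤ ∫ x in s..t, Λ x := by
    rw [intervalIntegral.integral_of_le hrt.le,
      intervalIntegral.integral_of_le (hr.1.trans hrt).le]
    exact setIntegral_mono_set (hΛi t ⟨hr.1.trans hrt, htI.2⟩)
      (Eventually.of_forall hΛ0) (Ioc_subset_Ioc_left hr.1.le).eventuallyLE
  have h4 : ‖v1 t‖ ^ 2 ≤ (κ * (τ - t) ^ (-(3 / 4) : ℝ)) ^ 2 := by
    rw [sq_rate hp]
    have e1 : Real.exp (2 * ∫ x in r..t, Λ x)
        ≤ Real.exp (3 / 2 * Real.log (1 / (τ - t)) - Real.log ((k + 1) / κ ^ 2)) :=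
      Real.exp_le_exp.2 (by linarith)
    have e2 : Real.exp (3 / 2 * Real.log (1 / (τ - t)) - Real.log ((k + 1) / κ ^ 2))
        = (τ - t) ^ (-(3 / 2) : ℝ) * (κ ^ 2 / (k + 1)) := by
      rw [Real.exp_sub, Real.exp_log (by positivity), one_div, Real.log_inv,
        Real.rpow_def_of_pos hp]
      rw [show 3 / 2 * -Real.log (τ - t) = Real.log (τ - t) * (-(3 / 2)) by ring]
      field_simp
    have e3 : 0 < (τ - t) ^ (-(3 / 2) : ℝ) := Real.rpow_pos_of_pos hp _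
    calc ‖v1 t‖ ^ 2 ≤ k * Real.exp (2 * ∫ x in r..t, Λ x) := ht
      _ ≤ (k + 1) * ((τ - t) ^ (-(3 / 2) : ℝ) * (κ ^ 2 / (k + 1))) := by
          rw [← e2]
          have := Real.exp_pos (2 * ∫ x in r..t, Λ x)
          gcongr
          linarith
      _ = κ ^ 2 * (τ - t) ^ (-(3 / 2) : ℝ) := by field_simp
  exact (pow_le_pow_iff_left₀ (norm_nonneg _) (by positivity) (by norm_num)).mp h4

end Pool.Agent.Y303.RA
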